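import Pool.Agent.Lib_helper1.ZF.Def

/-!
Elementary set theory inside a model of ZF.
-/

set_option linter.unusedSectionVars false

universe u

namespace Pool.Agent.ZF1

open FirstOrder Language

/-! ### Basic notions, for an arbitrary structure -/

section notions
variable {V : Type u} [Lset.Structure V]

section dp
variable {t s r : (ℕ → V) → V}

instance [ht : DF t] [hs : DF s] : DP (fun v => Sub (t v) (s v)) :=
  DP.comp2 (by unfold Sub; infer_instance) ht hs

instance [ht : DF t] : DP (fun v => IsEmp (t v)) :=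
  DP.comp1 (by unfold IsEmp; infer_instance) ht

instance [ht : DF t] [hs : DF s] [hr : DF r] : DP (fun v => IsUpair (t v) (s v) (r v)) :=
  DP.comp3 (by unfold IsUpair; infer_instance) ht hs hr

instance [ht : DF t] [hs : DF s] [hr : DF r] : DP (fun v => IsOpair (t v) (s v) (r v)) :=
  DP.comp3 (by unfold IsOpair; infer_instance) ht hs hr

instance [ht : DF t] [hs : DF s] : DP (fun v => IsSucc (t v) (s v)) :=
  DP.comp2 (by unfold IsSucc; infer_instance) ht hs

instance [ht : DF t] : DP (fun v => IsInductive (t v)) :=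
  DP.comp1 (by unfold IsInductive; infer_instance) ht

instance [ht : DF t] : DP (fun v => IsNat (t v)) :=
  DP.comp1 (by unfold IsNat; infer_instance) ht

instance [ht : DF t] [hs : DF s] [hr : DF r] : DP (fun v => OMem (t v) (s v) (r v)) :=
  DP.comp3 (by unfold OMem; infer_instance) ht hs hr

instance [ht : DF t] [hs : DF s] [hr : DF r] : DP (fun v => IsFun (t v) (s v) (r v)) :=
  DP.comp3 (by unfold IsFun; infer_instance) ht hs hr

end dp

end notions

/-! ### Models of ZF -/

/-- Semantic form of being a model of ZF. -/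
class IsZF (V : Type u) [Lset.Structure V] : Prop where
  ext : ∀ x y : V, (∀ z, z ∈ x ↔ z ∈ y) → x = y
  found : ∀ x : V, (∃ y, y ∈ x) → ∃ y ∈ x, ∀ z ∈ x, z ∉ y
  pair : ∀ x y : V, ∃ p : V, IsUpair p x y
  union : ∀ x : V, ∃ u : V, ∀ w, w ∈ u ↔ ∃ y ∈ x, w ∈ y
  power : ∀ x : V, ∃ p : V, ∀ w, w ∈ p ↔ Sub w x
  infinity : ∃ x : V, IsInductive x
  sep : ∀ (Q : V → Prop), DP (fun v => Q (v 0)) → ∀ a : V, ∃ b : V, ∀ z, z ∈ b ↔ z ∈ a ∧ Q z
  repl : ∀ (R : V → V → Prop), DP (fun v => R (v 0) (v 1)) → ∀ a : V,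
    (∀ x ∈ a, ∃! y, R x y) → ∃ b : V, ∀ y, y ∈ b ↔ ∃ x ∈ a, R x y

section
variable {V : Type u} [Lset.Structure V] [IsZF V]

theorem ext {x y : V} (h : ∀ z, z ∈ x ↔ z ∈ y) : x = y := IsZF.ext x y h

theorem sub_antisymm {x y : V} (h : Sub x y) (h' : Sub y x) : x = y :=
  ext fun z => ⟨h z, h' z⟩

theorem sub_refl (x : V) : Sub x x := fun _ h => h

theorem sub_trans {x y z : V} (h : Sub x y) (h' : Sub y z) : Sub x z := fun w hw => h' w (h w hw)

/-- Separation. -/
noncomputable def sep (Q : V → Prop) [h : DP (fun v => Q (v 0))] (a : V) : V :=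
  (IsZF.sep Q h a).choose

theorem mem_sep {Q : V → Prop} [h : DP (fun v => Q (v 0))] {a z : V} :
    z ∈ sep Q a ↔ z ∈ a ∧ Q z := (IsZF.sep Q h a).choose_spec z

/-- Replacement. -/
theorem exists_repl (R : V → V → Prop) [h : DP (fun v => R (v 0) (v 1))] (a : V)
    (hR : ∀ x ∈ a, ∃! y, R x y) : ∃ b : V, ∀ y, y ∈ b ↔ ∃ x ∈ a, R x y :=
  IsZF.repl R h a hR

theorem DF.of_rel1 {F : V → V} {R : V → V → Prop} (h : DP (fun v => R (v 0) (v 1)))
    (hF : ∀ y x, y = F x ↔ R y x) {t : (ℕ → V) → V} (ht : DF t) : DF (fun v => F (t v)) := by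
  refine ⟨?_⟩
  have ht' : DF (fun v => t (shift v)) := ht.rename (fun n => n + 1)
  exact (DP.comp2 h (DF.var 0) ht').congr (fun v => (hF _ _).symm)

theorem DF.of_rel2 {F : V → V → V} {R : V → V → V → Prop}
    (h : DP (fun v => R (v 0) (v 1) (v 2)))
    (hF : ∀ y x x', y = F x x' ↔ R y x x') {t s : (ℕ → V) → V} (ht : DF t) (hs : DF s) :
    DF (fun v => F (t v) (s v)) := by
  refine ⟨?_⟩
  have ht' : DF (fun v => t (shift v)) := ht.rename (fun n => n + 1)
  have hs' : DF (fun v => s (shift v)) := hs.rename (fun n => n + 1)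
  exact (DP.comp3 h (DF.var 0) ht' hs').congr (fun v => (hF _ _ _).symm)

/-- The unordered pair. -/
noncomputable def upair (x y : V) : V := (IsZF.pair x y).choose

theorem mem_upair {x y z : V} : z ∈ upair x y ↔ z = x ∨ z = y :=
  (IsZF.pair x y).choose_spec z

theorem isUpair_iff {p x y : V} : IsUpair p x y ↔ p = upair x y := by
  constructor
  · intro h
    exact ext fun z => (h z).trans mem_upair.symm
  · rintro rfl z
    exact mem_upair

theorem isUpair_upair (x y : V) : IsUpair (upair x y) x y := isUpair_iff.2 rfl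

instance {t s : (ℕ → V) → V} [ht : DF t] [hs : DF s] : DF (fun v => upair (t v) (s v)) :=
  DF.of_rel2 (R := fun p x y => IsUpair p x y) inferInstance
    (fun _ _ _ => isUpair_iff.symm) ht hs

/-- The singleton. -/
noncomputable def sing (x : V) : V := upair x x

theorem mem_sing {x z : V} : z ∈ sing x ↔ z = x := by simp [sing, mem_upair]

instance {t : (ℕ → V) → V} [ht : DF t] : DF (fun v => sing (t v)) := by
  unfold sing; infer_instance

/-- The ordered pair. -/
noncomputable def opair (x y : V) : V := upair (sing x) (upair x y)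

theorem isOpair_iff {p x y : V} : IsOpair p x y ↔ p = opair x y := by
  simp [IsOpair, isUpair_iff, opair, sing]

instance {t s : (ℕ → V) → V} [ht : DF t] [hs : DF s] : DF (fun v => opair (t v) (s v)) := by
  unfold opair; infer_instance

theorem upair_inj {a b c d : V} (h : upair a b = upair c d) :
    (a = c ∧ b = d) ∨ (a = d ∧ b = c) := by
  have h1 : ∀ z, (z = a ∨ z = b) ↔ (z = c ∨ z = d) := fun z => by
    rw [← mem_upair, h, mem_upair]
  have ha := (h1 a).1 (Or.inl rfl)
  have hb := (h1 b).1 (Or.inr rfl)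
  have hc := (h1 c).2 (Or.inl rfl)
  have hd := (h1 d).2 (Or.inr rfl)
  rcases ha with rfl | rfl <;> rcases hb with rfl | rfl <;> simp_all

theorem sing_inj {a b : V} (h : sing a = sing b) : a = b := by
  have := mem_sing.1 (h ▸ (mem_sing.2 rfl : a ∈ sing a))
  exact this

theorem sing_eq_upair {a b c : V} (h : sing a = upair b c) : b = a ∧ c = a := by
  have hb : b ∈ sing a := by rw [h]; exact mem_upair.2 (Or.inl rfl)
  have hc : c ∈ sing a := by rw [h]; exact mem_upair.2 (Or.inr rfl)
  exact ⟨mem_sing.1 hb, mem_sing.1 hc⟩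

theorem opair_inj {a b c d : V} : opair a b = opair c d ↔ a = c ∧ b = d := by
  constructor
  · intro h
    rcases upair_inj h with ⟨h1, h2⟩ | ⟨h1, h2⟩
    · have hac := sing_inj h1
      subst hac
      rcases upair_inj h2 with ⟨_, h⟩ | ⟨h3, h4⟩
      · exact ⟨rfl, h⟩
      · exact ⟨rfl, h4.trans h3⟩
    · obtain ⟨h3, h4⟩ := sing_eq_upair h1
      obtain ⟨h5, h6⟩ := sing_eq_upair h2.symm
      subst h3
      exact ⟨rfl, by rw [h6, h4]⟩
  · rintro ⟨rfl, rfl⟩; rfl

theorem oMem_iff {x y f : V} : OMem x y f ↔ opair x y ∈ f := by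
  simp [OMem, isOpair_iff]

/-- The union. -/
noncomputable def sUn (x : V) : V := (IsZF.union x).choose

theorem mem_sUn {x z : V} : z ∈ sUn x ↔ ∃ y ∈ x, z ∈ y := (IsZF.union x).choose_spec z

instance {t : (ℕ → V) → V} [ht : DF t] : DF (fun v => sUn (t v)) :=
  DF.of_rel1 (R := fun u x => ∀ z, z ∈ u ↔ ∃ y ∈ x, z ∈ y) inferInstance
    (fun u x => ⟨fun h => by subst h; exact fun z => mem_sUn,
      fun h => ext fun z => (h z).trans mem_sUn.symm⟩) ht

/-- The binary union. -/
noncomputable def un (x y : V) : V := sUn (upair x y)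

theorem mem_un {x y z : V} : z ∈ un x y ↔ z ∈ x ∨ z ∈ y := by
  simp [un, mem_sUn, mem_upair]

instance {t s : (ℕ → V) → V} [ht : DF t] [hs : DF s] : DF (fun v => un (t v) (s v)) := by
  unfold un; infer_instance

/-- The power set. -/
noncomputable def pow (x : V) : V := (IsZF.power x).choose

theorem mem_pow {x z : V} : z ∈ pow x ↔ Sub z x := (IsZF.power x).choose_spec z

instance {t : (ℕ → V) → V} [ht : DF t] : DF (fun v => pow (t v)) :=
  DF.of_rel1 (R := fun u x => ∀ z, z ∈ u ↔ Sub z x) inferInstance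
    (fun u x => ⟨fun h => by subst h; exact fun z => mem_pow,
      fun h => ext fun z => (h z).trans mem_pow.symm⟩) ht

/-- The empty set. -/
noncomputable def emp : V := sep (fun _ => False) (IsZF.infinity (V := V)).choose

theorem not_mem_emp (z : V) : z ∉ (emp : V) := by
  unfold emp; rw [mem_sep]; exact fun h => h.2

theorem isEmp_iff {x : V} : IsEmp x ↔ x = emp := by
  constructor
  · intro h
    exact ext fun z => ⟨fun hz => absurd hz (h z), fun hz => absurd hz (not_mem_emp z)⟩
  · rintro rfl; exact not_mem_emp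

/-- The successor `x ∪ {x}`. -/
noncomputable def succ (x : V) : V := un x (sing x)

theorem mem_succ {x z : V} : z ∈ succ x ↔ z ∈ x ∨ z = x := by
  simp [succ, mem_un, mem_sing]

theorem isSucc_iff {y x : V} : IsSucc y x ↔ y = succ x := by
  constructor
  · intro h
    exact ext fun z => (h z).trans mem_succ.symm
  · rintro rfl z; exact mem_succ

instance {t : (ℕ → V) → V} [ht : DF t] : DF (fun v => succ (t v)) := by
  unfold succ; infer_instance

theorem isInductive_iff {I : V} : IsInductive I ↔ emp ∈ I ∧ ∀ x ∈ I, succ x ∈ I := by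
  simp [IsInductive, isEmp_iff, isSucc_iff]

/-! ### Foundation -/

theorem not_mem_self (x : V) : x ∉ x := by
  intro h
  obtain ⟨y, hy, hy'⟩ := IsZF.found (sing x) ⟨x, mem_sing.2 rfl⟩
  rw [mem_sing] at hy
  subst hy
  exact hy' y (mem_sing.2 rfl) h

theorem not_mem_mem {x y : V} (h : x ∈ y) (h' : y ∈ x) : False := by
  obtain ⟨z, hz, hz'⟩ := IsZF.found (upair x y) ⟨x, mem_upair.2 (Or.inl rfl)⟩
  rcases mem_upair.1 hz with rfl | rfl
  · exact hz' y (mem_upair.2 (Or.inr rfl)) h'
  · exact hz' x (mem_upair.2 (Or.inl rfl)) h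

theorem succ_inj {x y : V} (h : succ x = succ y) : x = y := by
  have h1 : x ∈ succ y := h ▸ mem_succ.2 (Or.inr rfl)
  have h2 : y ∈ succ x := h.symm ▸ mem_succ.2 (Or.inr rfl)
  rcases mem_succ.1 h1 with h1 | h1
  · rcases mem_succ.1 h2 with h2 | h2
    · exact (not_mem_mem h1 h2).elim
    · exact h2.symm
  · exact h1

theorem succ_ne_emp (x : V) : succ x ≠ emp := fun h =>
  not_mem_emp x (h ▸ mem_succ.2 (Or.inr rfl))

/-! ### Natural numbers -/

/-- The set of natural numbers. -/
noncomputable def omega : V := sep (fun n => IsNat n) (IsZF.infinity (V := V)).choose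

theorem mem_omega {n : V} : n ∈ (omega : V) ↔ IsNat n := by
  unfold omega
  rw [mem_sep]
  exact ⟨fun h => h.2, fun h => ⟨h _ (IsZF.infinity (V := V)).choose_spec, h⟩⟩

theorem emp_mem_omega : (emp : V) ∈ (omega : V) :=
  mem_omega.2 fun _ hI => (isInductive_iff.1 hI).1

theorem succ_mem_omega {n : V} (h : n ∈ (omega : V)) : succ n ∈ (omega : V) :=
  mem_omega.2 fun I hI => (isInductive_iff.1 hI).2 n (mem_omega.1 h I hI)

/-- Induction on natural numbers. -/
theorem nat_ind {Q : V → Prop} [DP (fun v => Q (v 0))] (h0 : Q emp)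
    (hs : ∀ n ∈ (omega : V), Q n → Q (succ n)) : ∀ n ∈ (omega : V), Q n := by
  intro n hn
  have hI : IsInductive (sep Q omega) := by
    rw [isInductive_iff]
    refine ⟨mem_sep.2 ⟨emp_mem_omega, h0⟩, fun x hx => ?_⟩
    rw [mem_sep] at hx ⊢
    exact ⟨succ_mem_omega hx.1, hs x hx.1 hx.2⟩
  exact (mem_sep.1 (mem_omega.1 hn _ hI)).2

theorem nat_cases {n : V} (h : n ∈ (omega : V)) : n = emp ∨ ∃ m ∈ (omega : V), n = succ m := by
  refine nat_ind (Q := fun n => n = emp ∨ ∃ m ∈ (omega : V), n = succ m) (Or.inl rfl) ?_ n h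
  intro n hn _
  exact Or.inr ⟨n, hn, rfl⟩

theorem nat_trans {n : V} (h : n ∈ (omega : V)) : ∀ m ∈ n, Sub m n := by
  refine nat_ind (Q := fun n => ∀ m ∈ n, Sub m n) ?_ ?_ n h
  · intro m hm; exact absurd hm (not_mem_emp m)
  · intro n _ ih m hm z hz
    rw [mem_succ] at hm ⊢
    rcases hm with hm | rfl
    · exact Or.inl (ih m hm z hz)
    · exact Or.inl hz

theorem omega_trans {n : V} (h : n ∈ (omega : V)) : ∀ m ∈ n, m ∈ (omega : V) := by
  refine nat_ind (Q := fun n => ∀ m ∈ n, m ∈ (omega : V)) ?_ ?_ n h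
  · intro m hm; exact absurd hm (not_mem_emp m)
  · intro n hn ih m hm
    rw [mem_succ] at hm
    rcases hm with hm | rfl
    · exact ih m hm
    · exact hn

end

end Pool.Agent.ZF1
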