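import Pool.Agent.Lib_helper1.ZF.Geo

/-!
Blocks of a degenerate pregeometry.
-/

set_option linter.unusedSectionVars false
set_option linter.unusedVariables false

universe u

namespace Pool.Agent.ZF1

open FirstOrder Language

section
variable {V : Type u} [Lset.Structure V] [IsZF V] {A g : V}

/-- composition of elementary maps in terms of pairs -/
theorem El.comp_of {p q r : V} (hp : El A g p) (hq : El A g q) (hr : IsRel r)
    (h : ∀ x z, opair x z ∈ r → ∃ y, opair x y ∈ p ∧ opair y z ∈ q) : El A g r := by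
  have h1 : Sub (rn (ZF1.res p (dm r))) (dm q) := by
    intro y hy
    obtain ⟨x, hx⟩ := mem_rn.1 hy
    obtain ⟨hxy, hxr⟩ := mem_res.1 hx
    obtain ⟨z, hz⟩ := mem_dm.1 hxr
    obtain ⟨y', h1, h2⟩ := h x z hz
    rw [hp.inje.1 _ _ _ hxy h1]
    exact mem_dm.2 ⟨z, h2⟩
  refine ((hq.res (rn (ZF1.res p (dm r)))).cmp (hp.res (dm r)) ?_).mono ?_
  · rw [dm_res_of_sub h1]
  · intro w hw
    obtain ⟨x, z, rfl⟩ := hr w hw
    obtain ⟨y, h2, h3⟩ := h x z hw
    have h4 : opair x y ∈ ZF1.res p (dm r) := mem_res.2 ⟨h2, mem_dm.2 ⟨z, hw⟩⟩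
    exact mem_cmp.2 ⟨y, h4, mem_res.2 ⟨h3, mem_rn.2 ⟨x, h4⟩⟩⟩

/-- finite closed sets -/
def Clsd (A g C : V) : Prop := Sub C A ∧ Kfin C ∧ clo A g C = C

instance {t s r : (ℕ → V) → V} [ht : DF t] [hs : DF s] [hr : DF r] :
    DP (fun v => Clsd (t v) (s v) (r v)) :=
  DP.comp3 (by unfold Clsd; infer_instance) ht hs hr

/-- the block of `a` -/
noncomputable def blk (A g a : V) : V := diff (clo A g (sing a)) (clo A g emp)

instance {t s r : (ℕ → V) → V} [ht : DF t] [hs : DF s] [hr : DF r] :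
    DF (fun v => blk (t v) (s v) (r v)) := by
  unfold blk; infer_instance

theorem mem_blk {a b : V} : b ∈ blk A g a ↔ b ∈ clo A g (sing a) ∧ b ∉ clo A g emp := mem_diff

theorem sing_sub {a X : V} (ha : a ∈ X) : Sub (sing a) X := fun z hz => by
  rw [mem_sing.1 hz]; exact ha

theorem ins_emp (a : V) : ins emp a = sing a := ext fun z => by
  rw [mem_ins, mem_sing]
  exact ⟨fun h => h.elim (fun h => absurd h (not_mem_emp z)) id, Or.inr⟩

theorem Clsd.emp_sub {C : V} (h : Clsd A g C) : Sub (clo A g emp) C := by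
  have := clo_mono (A := A) (g := g) (ZF1.emp_sub C)
  rw [h.2.2] at this
  exact this

theorem clsd_clo (hA : Amor A) {S : V} (hS : Sub S A) (hf : Kfin S) : Clsd A g (clo A g S) :=
  ⟨clo_sub S, clo_kfin hA hS hf, clo_clo hA hS hf⟩

theorem Clsd.sing {C a : V} (h : Clsd A g C) (ha : a ∈ C) : Sub (clo A g (sing a)) C := by
  have := clo_mono (A := A) (g := g) (sing_sub ha)
  rw [h.2.2] at this
  exact this

theorem self_mem_clo {a : V} (ha : a ∈ A) : a ∈ clo A g (sing a) :=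
  sub_clo (sing_sub ha) a (mem_sing.2 rfl)

theorem Clsd.not_emp {C a : V} (h : Clsd A g C) (ha : a ∉ C) : a ∉ clo A g emp :=
  fun h' => ha (h.emp_sub a h')

theorem self_mem_blk {a : V} (ha : a ∈ A) (ha' : a ∉ clo A g emp) : a ∈ blk A g a :=
  mem_blk.2 ⟨self_mem_clo ha, ha'⟩

theorem blk_sub (a : V) : Sub (blk A g a) A := fun z hz => clo_sub _ z (mem_blk.1 hz).1

theorem blk_kfin (hA : Amor A) {a : V} (ha : a ∈ A) : Kfin (blk A g a) :=
  kfin_sub (clo_kfin hA (sing_sub ha) (kfin_sing a)) _ fun z hz => (mem_blk.1 hz).1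

theorem blk_symm (hA : Amor A) {a b : V} (ha : a ∈ A) (ha' : a ∉ clo A g emp)
    (hb : b ∈ blk A g a) : a ∈ clo A g (sing b) := by
  obtain ⟨h1, h2⟩ := mem_blk.1 hb
  have := clo_exchange hA (ZF1.emp_sub A) kfin_emp (clo_sub _ b h1) ha h2 ha' (by
    rw [ins_emp]; exact h1)
  rwa [ins_emp] at this

theorem Clsd.blk_disj (hA : Amor A) {C a b : V} (h : Clsd A g C) (ha : a ∈ A) (ha' : a ∉ C)
    (hb : b ∈ blk A g a) : b ∉ C := fun hbC =>
  ha' (h.sing hbC a (blk_symm hA ha (h.not_emp ha') hb))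

theorem clo_sing_sub (hA : Amor A) {a b : V} (ha : a ∈ A) (hb : b ∈ clo A g (sing a)) :
    Sub (clo A g (sing b)) (clo A g (sing a)) :=
  (clsd_clo hA (sing_sub ha) (kfin_sing a)).sing hb

/-- degenerate closure operations -/
def Degen (A g : V) : Prop := ∀ S : V, Sub S A → Kfin S → (∃ s, s ∈ S) → ∀ z ∈ clo A g S,
  ∃ a ∈ S, z ∈ clo A g (sing a)

theorem clsd_of (hD : Degen A g) {W : V} (hW : Sub W A) (hf : Kfin W)
    (he : Sub (clo A g emp) W) (h : ∀ w ∈ W, Sub (clo A g (sing w)) W) : Clsd A g W := by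
  refine ⟨hW, hf, sub_antisymm (fun z hz => ?_) (sub_clo hW)⟩
  rcases eq_emp_or W with rfl | hne
  · exact he z hz
  · obtain ⟨a, ha, h1⟩ := hD W hW hf hne z hz
    exact h a ha z h1

theorem Clsd.un_blk (hA : Amor A) (hD : Degen A g) {C a : V} (h : Clsd A g C) (ha : a ∈ A) :
    Clsd A g (un C (blk A g a)) := by
  have he : Sub (clo A g emp) (un C (blk A g a)) := sub_trans h.emp_sub (sub_un_left _ _)
  refine clsd_of hD (fun z hz => ?_) (kfin_un h.2.1 (blk_kfin hA ha)) he (fun w hw => ?_)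
  · rcases mem_un.1 hz with hz | hz
    · exact h.1 z hz
    · exact blk_sub a z hz
  · rcases mem_un.1 hw with hw | hw
    · exact sub_trans (h.sing hw) (sub_un_left _ _)
    · intro z hz
      have h1 := clo_sing_sub hA ha (mem_blk.1 hw).1 z hz
      by_cases hz' : z ∈ clo A g emp
      · exact he z hz'
      · exact mem_un.2 (Or.inr (mem_blk.2 ⟨h1, hz'⟩))

theorem Clsd.diff_blk (hA : Amor A) (hD : Degen A g) {C a : V} (h : Clsd A g C) (ha : a ∈ A)
    (ha' : a ∉ clo A g emp) : Clsd A g (diff C (blk A g a)) := by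
  refine clsd_of hD (fun z hz => h.1 z (mem_diff.1 hz).1)
    (kfin_sub h.2.1 _ fun z hz => (mem_diff.1 hz).1) ?_ ?_
  · intro z hz
    exact mem_diff.2 ⟨h.emp_sub z hz, fun h' => (mem_blk.1 h').2 hz⟩
  · intro w hw x hx
    obtain ⟨hwC, hwb⟩ := mem_diff.1 hw
    refine mem_diff.2 ⟨h.sing hwC x hx, fun hxb => hwb ?_⟩
    have hwA := h.1 w hwC
    have hxe := (mem_blk.1 hxb).2
    have hwe : w ∉ clo A g emp := by
      intro hwe
      exact hxe ((clsd_clo hA (ZF1.emp_sub A) kfin_emp).sing hwe x hx)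
    have h1 : w ∈ clo A g (ZF1.sing x) := blk_symm hA hwA hwe (mem_blk.2 ⟨hx, hxe⟩)
    exact mem_blk.2 ⟨clo_sing_sub hA ha (mem_blk.1 hxb).1 w h1, hwe⟩

theorem img_diff {q X Y : V} (hq : Inje q) : img q (diff X Y) = diff (img q X) (img q Y) :=
  ext fun z => by
    rw [mem_img, mem_diff, mem_img, mem_img]
    constructor
    · rintro ⟨x, hx, hxz⟩
      rw [mem_diff] at hx
      refine ⟨⟨x, hx.1, hxz⟩, ?_⟩
      rintro ⟨y, hy, hyz⟩
      rw [hq.2 _ _ _ hyz hxz] at hy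
      exact hx.2 hy
    · rintro ⟨⟨x, hx, hxz⟩, h⟩
      exact ⟨x, mem_diff.2 ⟨hx, fun hy => h ⟨x, hy, hxz⟩⟩, hxz⟩

theorem img_sing {q a b : V} (hq : Inje q) (h : opair a b ∈ q) : img q (sing a) = sing b :=
  ext fun z => by
    rw [mem_img, mem_sing]
    constructor
    · rintro ⟨x, hx, hxz⟩
      rw [mem_sing.1 hx] at hxz
      exact hq.1 _ _ _ hxz h
    · rintro rfl
      exact ⟨a, mem_sing.2 rfl, h⟩

theorem img_emp (q : V) : img q emp = emp := ext fun z => by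
  rw [mem_img]
  exact ⟨fun ⟨x, hx, _⟩ => absurd hx (not_mem_emp x), fun h => absurd h (not_mem_emp z)⟩

theorem El.img_blk (hA : Amor A) {q a b : V} (hq : El A g q) (ha : a ∈ A)
    (hd : Sub (clo A g (sing a)) (dm q)) (hab : opair a b ∈ q) :
    img q (blk A g a) = blk A g b := by
  unfold blk
  rw [img_diff hq.inje, hq.img_clo hA (sing_sub ha) hd, img_sing hq.inje hab,
    hq.img_clo hA (ZF1.emp_sub A) (sub_trans (clo_mono (ZF1.emp_sub _)) hd), img_emp]

/-- extension of an elementary map between closed sets to a block -/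
theorem El.block_ext (hA : Amor A) {p : V} (hp : El A g p) (hd : Clsd A g (dm p))
    (hr : Clsd A g (rn p)) {a b : V} (ha : a ∈ A) (ha' : a ∉ dm p) (hb : b ∈ A) (hb' : b ∉ rn p) :
    ∃ c : V, IsRel c ∧ El A g (un p c) ∧ dm c = blk A g a ∧ rn c = blk A g b ∧ opair a b ∈ c := by
  obtain ⟨d, hdA, h⟩ := hp.fw hA ha
  have h3 : d ∉ clo A g (rn p) := by
    intro h4
    apply ha'
    rw [← hd.2.2, h.clo_iff hA (S := dm p) (dm_mono (sub_ins _ _)) (mem_ins_self _ _),
      img_ext (sub_ins _ _) h.inje (sub_refl _), img_dm]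
    exact h4
  have h5 := clo_gen hA hr.1 hr.2.1 hdA hb h3 (by rw [hr.2.2]; exact hb')
  have h6 := h.cmp_ins h5 (by rw [dm_idm])
  rw [cmp_idm_left hp.rel (sub_refl _)] at h6
  obtain ⟨q, hq, hsub, hdm⟩ := h6.extend hA (clo_sub (g := g) (sing a))
    (clo_kfin hA (sing_sub ha) (kfin_sing a))
  refine ⟨ZF1.res q (blk A g a), isRel_res _ _, hq.mono ?_, ?_, ?_, ?_⟩
  · intro z hz
    rcases mem_un.1 hz with hz | hz
    · exact hsub z (mem_ins.2 (Or.inl hz))
    · exact res_sub _ _ z hz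
  · exact dm_res_of_sub fun z hz => hdm z (mem_blk.1 hz).1
  · rw [rn_res, hq.img_blk hA ha hdm (hsub _ (mem_ins_self _ _))]
  · exact mem_res.2 ⟨hsub _ (mem_ins_self _ _), self_mem_blk ha (hd.not_emp ha')⟩

/-- elementary bijections between blocks over `C` -/
def BIso (A g C a b c : V) : Prop :=
  IsRel c ∧ El A g (un (idm C) c) ∧ dm c = blk A g a ∧ rn c = blk A g b

instance {t1 t2 t3 t4 t5 t6 : (ℕ → V) → V} [h1 : DF t1] [h2 : DF t2] [h3 : DF t3] [h4 : DF t4]
    [h5 : DF t5] [h6 : DF t6] :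
    DP (fun v => BIso (t1 v) (t2 v) (t3 v) (t4 v) (t5 v) (t6 v)) :=
  DP.comp6 (by unfold BIso; infer_instance) h1 h2 h3 h4 h5 h6

theorem exists_biso (hA : Amor A) {C a b : V} (hC : Clsd A g C) (ha : a ∈ A) (ha' : a ∉ C)
    (hb : b ∈ A) (hb' : b ∉ C) : ∃ c, BIso A g C a b c ∧ opair a b ∈ c := by
  obtain ⟨c, h1, h2, h3, h4, h5⟩ := (el_idm (g := g) hC.1 hC.2.1).block_ext hA
    (by rw [dm_idm]; exact hC) (by rw [rn_idm]; exact hC) ha (by rw [dm_idm]; exact ha') hb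
    (by rw [rn_idm]; exact hb')
  exact ⟨c, ⟨h1, h2, h3, h4⟩, h5⟩

theorem BIso.inje {C a b c : V} (h : BIso A g C a b c) : Inje c :=
  h.2.1.inje.mono (sub_un_right _ _)

theorem BIso.inv {C a b c : V} (h : BIso A g C a b c) : BIso A g C b a (inv c) := by
  refine ⟨isRel_inv _, ?_, by rw [dm_inv]; exact h.2.2.2, by rw [rn_inv]; exact h.2.2.1⟩
  have := h.2.1.inv
  rw [inv_un, inv_idm] at this
  exact this

theorem isRel_un {p q : V} (hp : IsRel p) (hq : IsRel q) : IsRel (un p q) := fun z hz =>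
  (mem_un.1 hz).elim (hp z) (hq z)

theorem BIso.cmp {C a b d c e : V} (h : BIso A g C a b c) (h' : BIso A g C b d e) :
    BIso A g C a d (cmp e c) := by
  refine ⟨isRel_cmp _ _, ?_, ?_, ?_⟩
  · refine h.2.1.comp_of h'.2.1 (isRel_un (isRel_idm _) (isRel_cmp _ _)) ?_
    intro x z hxz
    rcases mem_un.1 hxz with h1 | h1
    · exact ⟨x, mem_un.2 (Or.inl (mem_idm.2 ⟨(mem_idm.1 h1).1, rfl⟩)),
        mem_un.2 (Or.inl h1)⟩
    · obtain ⟨y, h2, h3⟩ := mem_cmp.1 h1
      exact ⟨y, mem_un.2 (Or.inr h2), mem_un.2 (Or.inr h3)⟩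
  · rw [dm_cmp]
    · exact h.2.2.1
    · rw [h.2.2.2, h'.2.2.1]; exact sub_refl _
  · rw [rn_cmp]
    · exact h'.2.2.2
    · rw [h.2.2.2, h'.2.2.1]; exact sub_refl _

theorem BIso.mono {C C' a b c : V} (h : BIso A g C a b c) (hC : Sub C' C) :
    BIso A g C' a b c :=
  ⟨h.1, h.2.1.mono fun z hz => by
    rcases mem_un.1 hz with hz | hz
    · exact mem_un.2 (Or.inl (idm_mono hC z hz))
    · exact mem_un.2 (Or.inr hz), h.2.2⟩

theorem biso_refl (hA : Amor A) {C a : V} (hC : Clsd A g C) (ha : a ∈ A) :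
    BIso A g C a a (idm (blk A g a)) := by
  refine ⟨isRel_idm _, ?_, dm_idm _, rn_idm _⟩
  refine (el_idm (g := g) (S := un C (blk A g a)) (fun z hz => ?_)
    (kfin_un hC.2.1 (blk_kfin hA ha))).mono fun z hz => ?_
  · rcases mem_un.1 hz with hz | hz
    · exact hC.1 z hz
    · exact blk_sub a z hz
  · rcases mem_un.1 hz with hz | hz
    · exact idm_mono (sub_un_left _ _) z hz
    · exact idm_mono (sub_un_right _ _) z hz

/-! ### The choice of the parameters -/

/-- the elementary permutations of the block of `a0` over `C0` remain elementary over all closed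
sets not containing `a0` -/
def Good (A g C0 a0 : V) : Prop := Clsd A g C0 ∧ a0 ∈ A ∧ a0 ∉ C0 ∧
  ∀ C c : V, Clsd A g C → Sub C0 C → a0 ∉ C → BIso A g C0 a0 a0 c → BIso A g C a0 a0 c

theorem exists_good (hA : Amor A) : ∃ C0 a0 : V, Good A g C0 a0 := by
  have he := clsd_clo (g := g) hA (emp_sub A) kfin_emp
  obtain ⟨a0, ha0, ha0'⟩ : ∃ a0 ∈ A, a0 ∉ clo A g emp := by
    by_contra hcon
    push Not at hcon
    exact hA.1 (kfin_sub he.2.1 _ hcon)
  have hD : Kfin (pow (prod (blk A g a0) (blk A g a0))) :=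
    kfin_pow (kfin_prod (blk_kfin hA ha0) (blk_kfin hA ha0))
  obtain ⟨y, hyD, ⟨C0, hC0, ha0C, hyC⟩, _, hmax⟩ := kfin_max hD
    (fun y => ∃ C : V, Clsd A g C ∧ a0 ∉ C ∧ ∀ c ∈ y, ¬ BIso A g C a0 a0 c) emp (emp_sub _)
    ⟨_, he, ha0', fun c hc => absurd hc (not_mem_emp c)⟩
  refine ⟨C0, a0, hC0, ha0, ha0C, fun C c hC hsub ha0C' hc => ?_⟩
  by_contra hcon
  have hcD : c ∈ pow (prod (blk A g a0) (blk A g a0)) := by
    rw [mem_pow]
    intro z hz
    obtain ⟨x, w, rfl⟩ := hc.1 z hz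
    exact opair_mem_prod.2 ⟨by rw [← hc.2.2.1]; exact mem_dm.2 ⟨w, hz⟩,
      by rw [← hc.2.2.2]; exact mem_rn.2 ⟨x, hz⟩⟩
  have h1 := hmax (ins y c) (fun z hz => by
    rcases mem_ins.1 hz with hz | rfl
    · exact hyD z hz
    · exact hcD) (sub_ins _ _) ⟨C, hC, ha0C', fun d hd => by
      rcases mem_ins.1 hd with hd | rfl
      · exact fun h' => hyC d hd (h'.mono hsub)
      · exact hcon⟩
  have h2 : c ∈ y := by rw [← h1]; exact mem_ins_self _ _
  exact hyC c h2 hc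

/-- elementary bijections between blocks over `C0` are elementary over all closed sets -/
theorem Good.iso (hA : Amor A) {C0 a0 : V} (hG : Good A g C0 a0) {C a b c : V}
    (hC : Clsd A g C) (hsub : Sub C0 C) (ha : a ∈ A) (ha' : a ∉ C) (hb : b ∈ A) (hb' : b ∉ C)
    (hc : BIso A g C0 a b c) : BIso A g C a b c := by
  obtain ⟨hC0, ha0, ha0', hgood⟩ := hG
  have haC0 : a ∉ C0 := fun h => ha' (hsub a h)
  have hbC0 : b ∉ C0 := fun h => hb' (hsub b h)
  -- an elementary map over `C0` moving `a` to `a0`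
  have h1 : El A g (ins (idm C0) (opair a a0)) :=
    clo_gen hA hC0.1 hC0.2.1 ha ha0 (by rw [hC0.2.2]; exact haC0) (by rw [hC0.2.2]; exact ha0')
  obtain ⟨q, hq, hqsub, hqdm⟩ := h1.extend hA (W := un C (blk A g a))
    (fun z hz => (mem_un.1 hz).elim (hC.1 z) (blk_sub a z)) (kfin_un hC.2.1 (blk_kfin hA ha))
  have hqC : Sub C (dm q) := sub_trans (sub_un_left _ _) hqdm
  have hid : ∀ x ∈ C0, opair x x ∈ q := fun x hx =>
    hqsub _ (mem_ins.2 (Or.inl (mem_idm.2 ⟨hx, rfl⟩)))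
  have haq : opair a a0 ∈ q := hqsub _ (mem_ins_self _ _)
  have hea : Sub (clo A g (sing a)) (dm q) := fun z hz => by
    by_cases hz' : z ∈ clo A g emp
    · exact hqC z (hC.emp_sub z hz')
    · exact hqdm z (mem_un.2 (Or.inr (mem_blk.2 ⟨hz, hz'⟩)))
  -- the image of `C`
  have hC' : Clsd A g (img q C) := by
    refine ⟨fun z hz => hq.pinj.rn_sub z (img_sub_rn _ _ z hz), kfin_img hq.pinj.2.1, ?_⟩
    rw [← hq.img_clo hA hC.1 (by rw [hC.2.2]; exact hqC), hC.2.2]
  have hC0' : Sub C0 (img q C) := fun x hx => mem_img.2 ⟨x, hsub x hx, hid x hx⟩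
  have ha0C' : a0 ∉ img q C := by
    intro h
    obtain ⟨x, hx, hxa⟩ := mem_img.1 h
    rw [hq.inje.2 _ _ _ hxa haq] at hx
    exact ha' hx
  -- the restriction of `q` to `C` and its extensions to the blocks of `a` and `b`
  have hp : El A g (res q C) := hq.res C
  have hpd : dm (res q C) = C := dm_res_of_sub hqC
  have hpr : rn (res q C) = img q C := rn_res _ _
  obtain ⟨ca, ka1, ka2, ka3, ka4, _⟩ := hp.block_ext hA (by rw [hpd]; exact hC)
    (by rw [hpr]; exact hC') ha (by rw [hpd]; exact ha') ha0 (by rw [hpr]; exact ha0C')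
  obtain ⟨cb, kb1, kb2, kb3, kb4, _⟩ := hp.block_ext hA (by rw [hpd]; exact hC)
    (by rw [hpr]; exact hC') hb (by rw [hpd]; exact hb') ha0 (by rw [hpr]; exact ha0C')
  have hidC : ∀ {c : V} {x y : V}, opair x y ∈ un (idm C0) c → opair x y ∈ un (res q C) c := by
    intro c x y h
    rcases mem_un.1 h with h | h
    · obtain ⟨hx, rfl⟩ := mem_idm.1 h
      exact mem_un.2 (Or.inl (mem_res.2 ⟨hid x hx, hsub x hx⟩))
    · exact mem_un.2 (Or.inr h)
  have hca : BIso A g C0 a a0 ca := by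
    refine ⟨ka1, ka2.mono fun z hz => ?_, ka3, ka4⟩
    obtain ⟨x, y, rfl⟩ := isRel_un (isRel_idm C0) ka1 z hz
    exact hidC hz
  have hcb : BIso A g C0 b a0 cb := by
    refine ⟨kb1, kb2.mono fun z hz => ?_, kb3, kb4⟩
    obtain ⟨x, y, rfl⟩ := isRel_un (isRel_idm C0) kb1 z hz
    exact hidC hz
  have h2 : BIso A g (img q C) a0 a0 (cmp cb (cmp c (inv ca))) :=
    hgood _ _ hC' hC0' ha0C' ((hca.inv.cmp hc).cmp hcb)
  refine ⟨hc.1, ?_, hc.2.2⟩
  -- conjugate back
  have h3 : El A g (un (res q C) (cmp cb c)) := by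
    refine ka2.comp_of h2.2.1 (isRel_un (isRel_res _ _) (isRel_cmp _ _)) ?_
    intro x z hxz
    rcases mem_un.1 hxz with h | h
    · exact ⟨z, mem_un.2 (Or.inl h), mem_un.2 (Or.inl (mem_idm.2
        ⟨mem_img.2 ⟨x, (mem_res.1 h).2, (mem_res.1 h).1⟩, rfl⟩))⟩
    · obtain ⟨y, h4, h5⟩ := mem_cmp.1 h
      have hx : x ∈ dm ca := by
        rw [ka3, ← hc.2.2.1]; exact mem_dm.2 ⟨y, h4⟩
      obtain ⟨w, hw⟩ := mem_dm.1 hx
      exact ⟨w, mem_un.2 (Or.inr hw), mem_un.2 (Or.inr (mem_cmp.2 ⟨y,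
        mem_cmp.2 ⟨x, mem_inv.2 hw, h4⟩, h5⟩))⟩
  refine h3.comp_of kb2.inv (isRel_un (isRel_idm _) hc.1) ?_
  intro x z hxz
  rcases mem_un.1 hxz with h | h
  · obtain ⟨hx, rfl⟩ := mem_idm.1 h
    obtain ⟨y, hy⟩ := mem_dm.1 (hqC x hx)
    have : opair x y ∈ res q C := mem_res.2 ⟨hy, hx⟩
    exact ⟨y, mem_un.2 (Or.inl this), mem_inv.2 (mem_un.2 (Or.inl this))⟩
  · have hz : z ∈ dm cb := by
      rw [kb3, ← hc.2.2.2]; exact mem_rn.2 ⟨x, h⟩
    obtain ⟨y, hy⟩ := mem_dm.1 hz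
    exact ⟨y, mem_un.2 (Or.inr (mem_cmp.2 ⟨z, h, hy⟩)), mem_inv.2 (mem_un.2 (Or.inr hy))⟩

/-- swapping two blocks -/
theorem Good.swap (hA : Amor A) (hD : Degen A g) {C0 a0 : V} (hG : Good A g C0 a0) {a b c : V}
    (ha : a ∈ A) (ha' : a ∉ C0) (hb : b ∈ A) (hb' : b ∉ C0) (hc : BIso A g C0 a b c) {K : V}
    (hK : Sub K A) (hKf : Kfin K) : ∃ p, El A g p ∧ Sub c p ∧ Sub K (dm p) ∧ Sub K (rn p) ∧
      ∀ x y, opair x y ∈ p → opair x y ∈ c ∨ opair y x ∈ c ∨ x = y := by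
  have hC0 := hG.1
  have hae := hC0.not_emp ha'
  have hbe := hC0.not_emp hb'
  -- the closed set `K1` containing everything
  have hK1A : Sub (ins (ins (un C0 K) a) b) A := ins_sub (ins_sub (fun z hz =>
    (mem_un.1 hz).elim (hC0.1 z) (hK z)) ha) hb
  have hK1f : Kfin (ins (ins (un C0 K) a) b) := kfin_ins (kfin_ins (kfin_un hC0.2.1 hKf) a) b
  have hK1 := clsd_clo (g := g) hA hK1A hK1f
  have hsubK1 := sub_clo (g := g) hK1A
  generalize hK1e : clo A g (ins (ins (un C0 K) a) b) = K1 at hK1 hsubK1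
  have hC0K : Sub C0 K1 := fun z hz => hsubK1 z (mem_ins.2 (Or.inl (mem_ins.2 (Or.inl
    (mem_un.2 (Or.inl hz))))))
  have hKK : Sub K K1 := fun z hz => hsubK1 z (mem_ins.2 (Or.inl (mem_ins.2 (Or.inl
    (mem_un.2 (Or.inr hz))))))
  have haK : a ∈ K1 := hsubK1 a (mem_ins.2 (Or.inl (mem_ins_self _ _)))
  have hbK : b ∈ K1 := hsubK1 b (mem_ins_self _ _)
  have hblkK : ∀ {a : V}, a ∈ K1 → Sub (blk A g a) K1 := fun ha z hz =>
    hK1.sing ha z (mem_blk.1 hz).1
  -- remove the blocks of `a` and `b`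
  have hW1 : Clsd A g (diff K1 (blk A g a)) := hK1.diff_blk hA hD ha hae
  have hW : Clsd A g (diff (diff K1 (blk A g a)) (blk A g b)) := hW1.diff_blk hA hD hb hbe
  have hC0W1 : Sub C0 (diff K1 (blk A g a)) := fun z hz =>
    mem_diff.2 ⟨hC0K z hz, fun h => hC0.blk_disj hA ha ha' h hz⟩
  have hC0W : Sub C0 (diff (diff K1 (blk A g a)) (blk A g b)) := fun z hz =>
    mem_diff.2 ⟨hC0W1 z hz, fun h => hC0.blk_disj hA hb hb' h hz⟩
  have haa := self_mem_blk (g := g) ha hae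
  have hbb := self_mem_blk (g := g) hb hbe
  by_cases hab : b ∈ blk A g a
  · -- the blocks of `a` and `b` coincide
    have hba : a ∈ clo A g (sing b) := blk_symm hA ha hae hab
    have heq : blk A g b = blk A g a := by
      refine ext fun z => ?_
      rw [mem_blk, mem_blk]
      refine and_congr_left fun _ => ⟨fun h => ?_, fun h => ?_⟩
      · exact clo_sing_sub hA ha (mem_blk.1 hab).1 z h
      · exact clo_sing_sub hA hb hba z h
    have h1 := hG.iso hA hW1 hC0W1 ha (fun h => (mem_diff.1 h).2 haa) hb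
      (fun h => (mem_diff.1 h).2 hab) hc
    refine ⟨_, h1.2.1, sub_un_right _ _, ?_, ?_, ?_⟩
    · intro z hz
      rw [dm_un, dm_idm, mem_un, mem_diff, hc.2.2.1]
      by_cases h : z ∈ blk A g a
      · exact Or.inr h
      · exact Or.inl ⟨hKK z hz, h⟩
    · intro z hz
      rw [rn_un, rn_idm, mem_un, mem_diff, hc.2.2.2, heq]
      by_cases h : z ∈ blk A g a
      · exact Or.inr h
      · exact Or.inl ⟨hKK z hz, h⟩
    · intro x y hxy
      rcases mem_un.1 hxy with h | h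
      · exact Or.inr (Or.inr (mem_idm.1 h).2)
      · exact Or.inl h
  · -- two different blocks
    have hba : a ∉ blk A g b := by
      intro h
      exact hab (mem_blk.2 ⟨blk_symm hA hb hbe h, hbe⟩)
    -- a third block
    obtain ⟨d, hd, hdK⟩ : ∃ d ∈ A, d ∉ K1 := by
      by_contra hcon
      push Not at hcon
      exact hA.1 (kfin_sub hK1.2.1 _ hcon)
    have hde := hK1.not_emp hdK
    have hd0 : d ∉ C0 := fun h => hdK (hC0K d h)
    have hdd := self_mem_blk (g := g) hd hde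
    have hdisj : ∀ z ∈ K1, z ∉ blk A g d := fun z hz h => hK1.blk_disj hA hd hdK h hz
    obtain ⟨e, he, _⟩ := exists_biso (g := g) hA hC0 ha ha' hd hd0
    generalize hWe : diff (diff K1 (blk A g a)) (blk A g b) = W at hW hC0W
    have hWK : ∀ z, z ∈ W ↔ (z ∈ K1 ∧ z ∉ blk A g a) ∧ z ∉ blk A g b := fun z => by
      rw [← hWe, mem_diff, mem_diff]
    -- three moves
    have m1 : BIso A g (un W (blk A g b)) a d e := by
      refine hG.iso hA (hW.un_blk hA hD hb) (sub_trans hC0W (sub_un_left _ _)) ha ?_ hd ?_ he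
      · rw [mem_un, hWK]
        rintro (h | h)
        · exact h.1.2 haa
        · exact hba h
      · rw [mem_un, hWK]
        rintro (h | h)
        · exact hdK h.1.1
        · exact hdK (hblkK hbK d h)
    have m2 : BIso A g (un W (blk A g d)) b a (inv c) := by
      refine hG.iso hA (hW.un_blk hA hD hd) (sub_trans hC0W (sub_un_left _ _)) hb ?_ ha ?_ hc.inv
      · rw [mem_un, hWK]
        rintro (h | h)
        · exact h.2 hbb
        · exact hdisj b hbK h
      · rw [mem_un, hWK]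
        rintro (h | h)
        · exact h.1.2 haa
        · exact hdisj a haK h
    have m3 : BIso A g (un W (blk A g a)) d b (cmp c (inv e)) := by
      refine hG.iso hA (hW.un_blk hA hD ha) (sub_trans hC0W (sub_un_left _ _)) hd ?_ hb ?_
        (he.inv.cmp hc)
      · rw [mem_un, hWK]
        rintro (h | h)
        · exact hdK h.1.1
        · exact hdK (hblkK haK d h)
      · rw [mem_un, hWK]
        rintro (h | h)
        · exact h.2 hbb
        · exact hab h
    have hr0 : IsRel (un (idm W) (un c (inv c))) :=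
      isRel_un (isRel_idm _) (isRel_un hc.1 (isRel_inv _))
    -- the composition of the first two
    have m12 : El A g (un (idm W) (un e (inv c))) := by
      refine m1.2.1.comp_of m2.2.1 (isRel_un (isRel_idm _) (isRel_un he.1 (isRel_inv _))) ?_
      intro x z hxz
      rcases mem_un.1 hxz with h | h
      · obtain ⟨hx, rfl⟩ := mem_idm.1 h
        exact ⟨x, mem_un.2 (Or.inl (mem_idm.2 ⟨mem_un.2 (Or.inl hx), rfl⟩)),
          mem_un.2 (Or.inl (mem_idm.2 ⟨mem_un.2 (Or.inl hx), rfl⟩))⟩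
      · rcases mem_un.1 h with h | h
        · refine ⟨z, mem_un.2 (Or.inr h), mem_un.2 (Or.inl (mem_idm.2 ⟨mem_un.2 (Or.inr ?_), rfl⟩))⟩
          rw [← he.2.2.2]; exact mem_rn.2 ⟨x, h⟩
        · refine ⟨x, mem_un.2 (Or.inl (mem_idm.2 ⟨mem_un.2 (Or.inr ?_), rfl⟩)),
            mem_un.2 (Or.inr h)⟩
          rw [← hc.2.2.2]; exact mem_rn.2 ⟨z, mem_inv.1 h⟩
    have m123 : El A g (un (idm W) (un c (inv c))) := by
      refine m12.comp_of m3.2.1 hr0 ?_
      intro x z hxz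
      rcases mem_un.1 hxz with h | h
      · obtain ⟨hx, rfl⟩ := mem_idm.1 h
        exact ⟨x, mem_un.2 (Or.inl (mem_idm.2 ⟨hx, rfl⟩)),
          mem_un.2 (Or.inl (mem_idm.2 ⟨mem_un.2 (Or.inl hx), rfl⟩))⟩
      · rcases mem_un.1 h with h | h
        · have hx : x ∈ dm e := by
            rw [he.2.2.1, ← hc.2.2.1]; exact mem_dm.2 ⟨z, h⟩
          obtain ⟨y, hy⟩ := mem_dm.1 hx
          exact ⟨y, mem_un.2 (Or.inr (mem_un.2 (Or.inl hy))),
            mem_un.2 (Or.inr (mem_cmp.2 ⟨x, mem_inv.2 hy, h⟩))⟩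
        · refine ⟨z, mem_un.2 (Or.inr (mem_un.2 (Or.inr h))),
            mem_un.2 (Or.inl (mem_idm.2 ⟨mem_un.2 (Or.inr ?_), rfl⟩))⟩
          rw [← hc.2.2.1]; exact mem_dm.2 ⟨x, mem_inv.1 h⟩
    refine ⟨_, m123, sub_trans (sub_un_left _ _) (sub_un_right _ _), ?_, ?_, ?_⟩
    · intro z hz
      rw [dm_un, dm_idm, dm_un, dm_inv, mem_un, mem_un, hWK, hc.2.2.1, hc.2.2.2]
      by_cases h : z ∈ blk A g a
      · exact Or.inr (Or.inl h)
      · by_cases h' : z ∈ blk A g b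
        · exact Or.inr (Or.inr h')
        · exact Or.inl ⟨⟨hKK z hz, h⟩, h'⟩
    · intro z hz
      rw [rn_un, rn_idm, rn_un, rn_inv, mem_un, mem_un, hWK, hc.2.2.1, hc.2.2.2]
      by_cases h : z ∈ blk A g a
      · exact Or.inr (Or.inr h)
      · by_cases h' : z ∈ blk A g b
        · exact Or.inr (Or.inl h')
        · exact Or.inl ⟨⟨hKK z hz, h⟩, h'⟩
    · intro x y hxy
      rcases mem_un.1 hxy with h | h
      · exact Or.inr (Or.inr (mem_idm.1 h).2)
      · rcases mem_un.1 h with h | h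
        · exact Or.inl h
        · exact Or.inr (Or.inl (mem_inv.1 h))

end

end Pool.Agent.ZF1
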