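import Pool.Agent.Lib_helper1.ZF.Block

/-!
In the degenerate case a surjection of the power set is injective.
-/

set_option linter.unusedSectionVars false
set_option linter.unusedVariables false

universe u

namespace Pool.Agent.ZF1

open FirstOrder Language

section
variable {V : Type u} [Lset.Structure V] [IsZF V]

/-- `c` respects the set `X` -/
def Resp (X c : V) : Prop := ∀ x y, opair x y ∈ c → (x ∈ X ↔ y ∈ X)

instance {t s : (ℕ → V) → V} [ht : DF t] [hs : DF s] : DP (fun v => Resp (t v) (s v)) :=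
  DP.comp2 (by unfold Resp; infer_instance) ht hs

/-- the blocks of `a` and `b` are similar with respect to `X` -/
def Sm (A g C X a b : V) : Prop := (a ∈ A ∧ a ∉ C) ∧ (b ∈ A ∧ b ∉ C) ∧
  ∃ c, BIso A g C a b c ∧ Resp X c

instance {t1 t2 t3 t4 t5 t6 : (ℕ → V) → V} [h1 : DF t1] [h2 : DF t2] [h3 : DF t3] [h4 : DF t4]
    [h5 : DF t5] [h6 : DF t6] :
    DP (fun v => Sm (t1 v) (t2 v) (t3 v) (t4 v) (t5 v) (t6 v)) :=
  DP.comp6 (by unfold Sm; infer_instance) h1 h2 h3 h4 h5 h6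

variable {A g C : V}

theorem Sm.symm {X a b : V} (h : Sm A g C X a b) : Sm A g C X b a := by
  obtain ⟨h1, h2, c, h3, h4⟩ := h
  exact ⟨h2, h1, _, h3.inv, fun x y hxy => (h4 y x (mem_inv.1 hxy)).symm⟩

theorem Sm.trans {X a b d : V} (h : Sm A g C X a b) (h' : Sm A g C X b d) :
    Sm A g C X a d := by
  obtain ⟨h1, h2, c, h3, h4⟩ := h
  obtain ⟨h1', h2', c', h3', h4'⟩ := h'
  refine ⟨h1, h2', _, h3.cmp h3', fun x y hxy => ?_⟩
  obtain ⟨z, hz, hz'⟩ := mem_cmp.1 hxy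
  exact (h4 _ _ hz).trans (h4' _ _ hz')

theorem sm_refl (hA : Amor A) (hC : Clsd A g C) {X a : V} (ha : a ∈ A) (ha' : a ∉ C) :
    Sm A g C X a a := by
  refine ⟨⟨ha, ha'⟩, ⟨ha, ha'⟩, _, biso_refl hA hC ha, fun x y hxy => ?_⟩
  rw [(mem_idm.1 hxy).2]

/-- every subset of `A` is a finite set or the complement of one -/
theorem exists_co (hA : Amor A) {X : V} (hX : Sub X A) :
    ∃ U i, Sub U A ∧ Kfin U ∧ X = co A U i := by
  rcases hA.2 X hX with h | h
  · exact ⟨X, true, hX, h, rfl⟩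
  · refine ⟨diff A X, false, fun z hz => (mem_diff.1 hz).1, h, ?_⟩
    refine ext fun z => ?_
    change z ∈ X ↔ z ∈ diff A (diff A X)
    rw [mem_diff, mem_diff]
    constructor
    · intro hz
      exact ⟨hX z hz, fun h => h.2 hz⟩
    · rintro ⟨h1, h2⟩
      by_contra hcon
      exact h2 ⟨h1, hcon⟩

theorem co_inj {U W : V} (hU : Sub U A) (hW : Sub W A) {i : Bool} (h : co A U i = co A W i) :
    U = W := by
  cases i
  · change diff A U = diff A W at h
    refine ext fun z => ⟨fun hz => ?_, fun hz => ?_⟩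
    · by_contra hcon
      have : z ∈ diff A U := by rw [h]; exact mem_diff.2 ⟨hU z hz, hcon⟩
      exact (mem_diff.1 this).2 hz
    · by_contra hcon
      have : z ∈ diff A W := by rw [← h]; exact mem_diff.2 ⟨hW z hz, hcon⟩
      exact (mem_diff.1 this).2 hz
  · exact h

theorem mem_co {U z : V} (hz : z ∈ A) {i : Bool} : z ∈ co A U i ↔ (z ∈ U ↔ i = true) := by
  cases i
  · change z ∈ diff A U ↔ _
    rw [mem_diff]; simp [hz]
  · change z ∈ U ↔ _
    simp

/-- `g` is a function on the power set of `A` -/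
def PFun (A g : V) : Prop := (∀ X, Sub X A → ∃ Y, Sub Y A ∧ opair X Y ∈ g) ∧
  ∀ X Y Y', opair X Y ∈ g → opair X Y' ∈ g → Y = Y'

/-- invariance of similarity under `g` -/
theorem Sm.map (hA : Amor A) (hD : Degen A g) {a0 : V} (hG : Good A g C a0)
    (hfun : ∀ X Y Y', opair X Y ∈ g → opair X Y' ∈ g → Y = Y') {X Y a b : V} (hX : Sub X A)
    (hY : Sub Y A) (hXY : opair X Y ∈ g) (h : Sm A g C X a b) : Sm A g C Y a b := by
  obtain ⟨⟨ha, ha'⟩, ⟨hb, hb'⟩, c, hc, hresp⟩ := h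
  refine ⟨⟨ha, ha'⟩, ⟨hb, hb'⟩, c, hc, ?_⟩
  obtain ⟨U, i, hU, hUf, rfl⟩ := exists_co hA hX
  obtain ⟨W, j, hW, hWf, rfl⟩ := exists_co hA hY
  obtain ⟨p, hp, hcp, hKd, hKr, hall⟩ := hG.swap hA hD ha ha' hb hb' hc (K := un U W)
    (fun z hz => (mem_un.1 hz).elim (hU z) (hW z)) (kfin_un hUf hWf)
  have hpA : ∀ {x y}, opair x y ∈ p → x ∈ A ∧ y ∈ A := fun h =>
    opair_mem_prod.1 (hp.pinj.1 _ h)
  -- `p` respects `U`
  have hpU : ∀ x y, opair x y ∈ p → (x ∈ U ↔ y ∈ U) := by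
    intro x y hxy
    obtain ⟨hx, hy⟩ := hpA hxy
    have key : ∀ x y, x ∈ A → y ∈ A → opair x y ∈ c → (x ∈ U ↔ y ∈ U) := by
      intro x y hx hy h
      have h1 := hresp x y h
      rw [mem_co hx, mem_co hy] at h1
      cases i
      · simp only [Bool.false_eq_true, iff_false] at h1
        exact not_iff_not.1 h1
      · simpa using h1
    rcases hall x y hxy with h | h | h
    · exact key x y hx hy h
    · exact (key y x hy hx h).symm
    · rw [h]
  have himU : img p U = U := by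
    refine ext fun y => ?_
    rw [mem_img]
    constructor
    · rintro ⟨x, hx, hxy⟩
      exact (hpU x y hxy).1 hx
    · intro hy
      obtain ⟨x, hx⟩ := mem_rn.1 (hKr y (mem_un.2 (Or.inl hy)))
      exact ⟨x, (hpU x y hx).2 hy, hx⟩
  have h1 := (hp.at.2 U W (sub_trans (sub_un_left _ _) hKd) (sub_trans (sub_un_right _ _) hKd)
    i j).1 hXY
  rw [himU] at h1
  have h2 : img p W = W := co_inj (fun z hz => hp.pinj.rn_sub z (img_sub_rn _ _ z hz)) hW
    (hfun _ _ _ h1 hXY)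
  intro x y hxy
  obtain ⟨hx, hy⟩ := hpA (hcp _ hxy)
  have h3 : x ∈ W ↔ y ∈ W := by
    constructor
    · intro h
      rw [← h2]
      exact mem_img.2 ⟨x, h, hcp _ hxy⟩
    · intro h
      rw [← h2] at h
      obtain ⟨x', hx', hxy'⟩ := mem_img.1 h
      rw [hp.inje.2 _ _ _ (hcp _ hxy) hxy']
      exact hx'
  rw [mem_co hx, mem_co hy, h3]

/-- the sets with the same similarity relation as `X` -/
noncomputable def Cls (A g C X : V) : V :=
  sep (fun X' => ∀ a b : V, Sm A g C X' a b ↔ Sm A g C X a b) (pow A)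

theorem mem_Cls {X X' : V} : X' ∈ Cls A g C X ↔ Sub X' A ∧
    ∀ a b : V, Sm A g C X' a b ↔ Sm A g C X a b := by
  unfold Cls
  rw [mem_sep, mem_pow]

theorem cls_kfin (hA : Amor A) (hC : Clsd A g C) {X : V} (hX : Sub X A) :
    Kfin (Cls A g C X) := by
  obtain ⟨U, i, hU, hUf, rfl⟩ := exists_co hA hX
  have hCU : Sub (un C U) A := fun z hz => (mem_un.1 hz).elim (hC.1 z) (hU z)
  have hCUf : Kfin (un C U) := kfin_un hC.2.1 hUf
  have hK := clsd_clo (g := g) hA hCU hCUf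
  have hsub := sub_clo (g := g) hCU
  generalize clo A g (un C U) = K at hK hsub
  -- all blocks outside `K` are similar
  have hsim : ∀ {U' i'}, Sub U' A → Kfin U' → ∀ {K' : V}, Clsd A g K' → Sub C K' → Sub U' K' →
      ∀ {a b}, a ∈ A → b ∈ A → a ∉ K' → b ∉ K' → Sm A g C (co A U' i') a b := by
    intro U' i' hU' hU'f K' hK' hCK' hUK' a b ha hb ha' hb'
    have haC : a ∉ C := fun h => ha' (hCK' a h)
    have hbC : b ∉ C := fun h => hb' (hCK' b h)
    obtain ⟨c, hc, _⟩ := exists_biso (g := g) hA hC ha haC hb hbC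
    refine ⟨⟨ha, haC⟩, ⟨hb, hbC⟩, c, hc, fun x y hxy => ?_⟩
    have hx : x ∈ blk A g a := by rw [← hc.2.2.1]; exact mem_dm.2 ⟨y, hxy⟩
    have hy : y ∈ blk A g b := by rw [← hc.2.2.2]; exact mem_rn.2 ⟨x, hxy⟩
    rw [mem_co (blk_sub a x hx), mem_co (blk_sub b y hy)]
    have h1 : x ∉ U' := fun h => hK'.blk_disj hA ha ha' hx (hUK' x h)
    have h2 : y ∉ U' := fun h => hK'.blk_disj hA hb hb' hy (hUK' y h)
    simp [h1, h2]
  have hmain : ∀ X' ∈ Cls A g C (co A U i), ∃ U' i', Sub U' K ∧ X' = co A U' i' := by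
    intro X' hX'
    obtain ⟨hX'A, hX'S⟩ := mem_Cls.1 hX'
    obtain ⟨U', i', hU', hU'f, rfl⟩ := exists_co hA hX'A
    refine ⟨U', i', fun u hu => ?_, rfl⟩
    by_contra huK
    have huA := hU' u hu
    have hCU' : Sub (un C U') A := fun z hz => (mem_un.1 hz).elim (hC.1 z) (hU' z)
    have hK' := clsd_clo (g := g) hA hCU' (kfin_un hC.2.1 hU'f)
    obtain ⟨b, hb, hb'⟩ : ∃ b ∈ A, b ∉ un K (clo A g (un C U')) := by
      by_contra hcon
      push Not at hcon
      exact hA.1 (kfin_sub (kfin_un hK.2.1 hK'.2.1) _ hcon)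
    rw [mem_un, not_or] at hb'
    have h1 : Sm A g C (co A U i) u b := hsim hU hUf hK (sub_trans (sub_un_left _ _) hsub)
      (sub_trans (sub_un_right _ _) hsub) huA hb huK hb'.1
    obtain ⟨_, ⟨_, hbC⟩, c, hc, hresp⟩ := (hX'S u b).2 h1
    have hu1 : u ∈ dm c := by
      rw [hc.2.2.1]
      exact self_mem_blk huA (hK.not_emp huK)
    obtain ⟨y, hy⟩ := mem_dm.1 hu1
    have hyb : y ∈ blk A g b := by rw [← hc.2.2.2]; exact mem_rn.2 ⟨u, hy⟩
    have h2 := hresp u y hy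
    rw [mem_co huA, mem_co (blk_sub b y hyb)] at h2
    have h3 : y ∉ U' := fun h => hK'.blk_disj hA hb hb'.2 hyb
      (sub_clo hCU' y (mem_un.2 (Or.inr h)))
    cases i' <;> simp [hu, h3] at h2
  -- two finite families
  have hfin : Kfin (sep (fun X' => ∃ U' ∈ pow K, X' = diff A U') (pow A)) := by
    refine kfin_image (kfin_pow hK.2.1) (fun U' X' => X' = diff A U')
      (fun _ _ z z' h h' => h.trans h'.symm) _ fun z hz => (mem_sep.1 hz).2
  refine kfin_sub (kfin_un (kfin_pow hK.2.1) hfin) _ fun X' hX' => ?_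
  obtain ⟨U', i', hU', e⟩ := hmain X' hX'
  rw [mem_un]
  cases i'
  · right
    exact mem_sep.2 ⟨mem_pow.2 (mem_Cls.1 hX').1, U', mem_pow.2 hU', e⟩
  · left
    rw [e, mem_pow]
    exact hU'

/-- independent sets -/
def Ind (A g C X W : V) : Prop := (∀ a ∈ W, a ∈ A ∧ a ∉ C) ∧
  ∀ a ∈ W, ∀ b ∈ W, Sm A g C X a b → a = b

instance {t1 t2 t3 t4 t5 : (ℕ → V) → V} [h1 : DF t1] [h2 : DF t2] [h3 : DF t3] [h4 : DF t4]
    [h5 : DF t5] :
    DP (fun v => Ind (t1 v) (t2 v) (t3 v) (t4 v) (t5 v)) :=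
  DP.comp5 (by unfold Ind; infer_instance) h1 h2 h3 h4 h5

theorem ind_emb (hA : Amor A) {a0 : V} (hC : Clsd A g C) (ha0 : a0 ∈ A) (ha0' : a0 ∉ C)
    {X W : V} (hW : Kfin W) (hI : Ind A g C X W) : Emb W (pow (blk A g a0)) := by
  refine emb_of_surj hW _ (fun t z => z ∈ W ∧ ∃ c : V, BIso A g C a0 z c ∧
    ∀ x y : V, opair x y ∈ c → (x ∈ t ↔ y ∈ X)) ?_ ?_
  · rintro t z z' ⟨hz, c, hc, h⟩ ⟨hz', c', hc', h'⟩
    refine hI.2 z hz z' hz' ⟨hI.1 z hz, hI.1 z' hz', _, hc.inv.cmp hc', ?_⟩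
    intro x y hxy
    obtain ⟨w, hw1, hw2⟩ := mem_cmp.1 hxy
    exact (h w x (mem_inv.1 hw1)).symm.trans (h' w y hw2)
  · intro z hz
    obtain ⟨hzA, hzC⟩ := hI.1 z hz
    obtain ⟨c, hc, _⟩ := exists_biso (g := g) hA hC ha0 ha0' hzA hzC
    refine ⟨sep (fun x => ∃ y ∈ X, opair x y ∈ c) (blk A g a0),
      mem_pow.2 fun w hw => (mem_sep.1 hw).1, hz, c, hc, fun x y hxy => ?_⟩
    rw [mem_sep]
    constructor
    · rintro ⟨_, y', hy', hxy'⟩
      rw [hc.inje.1 _ _ _ hxy hxy']; exact hy'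
    · intro hy
      exact ⟨by rw [← hc.2.2.1]; exact mem_dm.2 ⟨y, hxy⟩, y, hy, hxy⟩

/-- the image of a set is strictly less separated -/
def Bad (A g C X : V) : Prop := Sub X A ∧ ∃ Y : V, Sub Y A ∧ opair X Y ∈ g ∧ ∃ a b : V,
  Sm A g C Y a b ∧ ¬ Sm A g C X a b

instance {t1 t2 t3 t4 : (ℕ → V) → V} [h1 : DF t1] [h2 : DF t2] [h3 : DF t3] [h4 : DF t4] :
    DP (fun v => Bad (t1 v) (t2 v) (t3 v) (t4 v)) :=
  DP.comp4 (by unfold Bad; infer_instance) h1 h2 h3 h4

theorem not_bad (hA : Amor A) (hD : Degen A g) {a0 : V} (hG : Good A g C a0)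
    (hfun : ∀ X Y Y', opair X Y ∈ g → opair X Y' ∈ g → Y = Y')
    (hsurj : ∀ Y, Sub Y A → ∃ X, Sub X A ∧ opair X Y ∈ g) {X0 : V} : ¬ Bad A g C X0 := by
  intro hX0
  have hC := hG.1
  have hfinD : Kfin (pow (blk A g a0)) := kfin_pow (blk_kfin hA hG.2.1)
  obtain ⟨y, hyD, ⟨X, W, hbad, hI, hWf, hyW⟩, _, hmax⟩ := kfin_max hfinD
    (fun y => ∃ X W : V, Bad A g C X ∧ Ind A g C X W ∧ Kfin W ∧ Emb y W) emp (emp_sub _)
    ⟨X0, emp, hX0, ⟨fun a ha => absurd ha (not_mem_emp a), fun a ha => absurd ha (not_mem_emp a)⟩,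
      kfin_emp, Emb.of_sub (sub_refl _)⟩
  -- no bad set has an independent set which is larger
  have hno : ∀ X' W' e, Bad A g C X' → Kfin W' → e ∉ W' → Ind A g C X' (ins W' e) →
      ¬ Emb y W' := by
    intro X' W' e hb hW' he hI' hemb
    by_cases hy : y = pow (blk A g a0)
    · have h1 := ind_emb hA hC hG.2.1 hG.2.2.1 (kfin_ins hW' e) hI'
      rw [← hy] at h1
      exact not_emb_ins hW' e he (h1.trans hemb)
    · obtain ⟨t, ht, hty⟩ : ∃ t ∈ pow (blk A g a0), t ∉ y := by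
        by_contra hcon
        push Not at hcon
        exact hy (sub_antisymm hyD hcon)
      have h2 := hmax (ins y t) (fun z hz => by
        rcases mem_ins.1 hz with hz | rfl
        · exact hyD z hz
        · exact ht) (sub_ins _ _) ⟨X', ins W' e, hb, hI', kfin_ins hW' e, hemb.ins t hty he⟩
      exact hty (by rw [← h2]; exact mem_ins_self _ _)
  obtain ⟨hX, Y, hY, hXY, a1, b1, hab1, hab1'⟩ := hbad
  -- preimages of elements of the class of `X` are in this class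
  have hpre : ∀ X2 X1, Sub X2 A → opair X2 X1 ∈ g → X1 ∈ Cls A g C X → X2 ∈ Cls A g C X := by
    intro X2 X1 hX2 h21 hX1
    obtain ⟨hX1A, hX1S⟩ := mem_Cls.1 hX1
    refine mem_Cls.2 ⟨hX2, ?_⟩
    have hle : ∀ a b, Sm A g C X2 a b → Sm A g C X a b := fun a b h =>
      (hX1S a b).1 (h.map hA hD hG hfun hX2 hX1A h21)
    by_contra hcon
    obtain ⟨a, b, hab, hab'⟩ : ∃ a b, Sm A g C X a b ∧ ¬ Sm A g C X2 a b := by
      by_contra hcon'
      push Not at hcon'
      exact hcon fun a b => ⟨hle a b, hcon' a b⟩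
    have hbad2 : Bad A g C X2 := ⟨hX2, X1, hX1A, h21, a, b, (hX1S a b).2 hab, hab'⟩
    have key : ∀ a, (a ∈ A ∧ a ∉ C) → (∀ w ∈ W, ¬ Sm A g C X2 w a) → False := by
      intro a ha h
      have haW : a ∉ W := fun haW => h a haW (sm_refl hA hC ha.1 ha.2)
      refine hno X2 W a hbad2 hWf haW ⟨?_, ?_⟩ hyW
      · intro z hz
        rcases mem_ins.1 hz with hz | rfl
        · exact hI.1 z hz
        · exact ha
      · intro z hz w hw hzw
        rcases mem_ins.1 hz with hz1 | hz1 <;> rcases mem_ins.1 hw with hw1 | hw1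
        · exact hI.2 z hz1 w hw1 (hle _ _ hzw)
        · rw [hw1] at hzw
          exact absurd hzw (h z hz1)
        · rw [hz1] at hzw
          exact absurd hzw.symm (h w hw1)
        · rw [hz1, hw1]
    -- an element of `W` similar to `a` with respect to `X2`
    have h1 : ∃ w ∈ W, Sm A g C X2 w a := by
      by_contra hcon'
      push Not at hcon'
      exact key a hab.1 hcon'
    have h2 : ∃ w ∈ W, Sm A g C X2 w b := by
      by_contra hcon'
      push Not at hcon'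
      exact key b hab.2.1 hcon'
    obtain ⟨w, hw, hwa⟩ := h1
    obtain ⟨w', hw', hwb⟩ := h2
    have e : w = w' := hI.2 w hw w' hw' (((hle _ _ hwa).trans hab).trans (hle _ _ hwb).symm)
    subst e
    exact hab' (hwa.symm.trans hwb)
  -- the counting argument
  have hcf := cls_kfin (g := g) hA hC hX
  have hself : X ∈ Cls A g C X := mem_Cls.2 ⟨hX, fun a b => Iff.rfl⟩
  have hQ := eq_of_emb (Y := sep (fun X2 => ∃ X1 ∈ Cls A g C X, opair X2 X1 ∈ g)
    (Cls A g C X)) hcf (fun z hz => (mem_sep.1 hz).1) (by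
      refine emb_of_surj hcf _ (fun y z => opair y z ∈ g) (fun y z z' => hfun y z z') ?_
      intro z hz
      obtain ⟨x, hx, hxz⟩ := hsurj z (mem_Cls.1 hz).1
      exact ⟨x, mem_sep.2 ⟨hpre x z hx hxz hz, z, hz, hxz⟩, hxz⟩)
  rw [← hQ] at hself
  obtain ⟨_, X1, hX1, h⟩ := mem_sep.1 hself
  rw [hfun _ _ _ h hXY] at hX1
  exact hab1' ((mem_Cls.1 hX1).2 a1 b1 |>.1 hab1)

/-- in the degenerate case, a surjection of the power set is injective -/
theorem inj_of_degen (hA : Amor A) (hD : Degen A g)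
    (hfun : ∀ X Y Y', opair X Y ∈ g → opair X Y' ∈ g → Y = Y')
    (hdom : ∀ X, Sub X A → ∃ Y, Sub Y A ∧ opair X Y ∈ g)
    (hsurj : ∀ Y, Sub Y A → ∃ X, Sub X A ∧ opair X Y ∈ g) {X X' Y : V} (hX : Sub X A)
    (hX' : Sub X' A) (hY : Sub Y A) (h : opair X Y ∈ g) (h' : opair X' Y ∈ g) : X = X' := by
  by_contra hne
  obtain ⟨C, a0, hG⟩ := exists_good (g := g) hA
  have hC := hG.1
  have hsame : ∀ X1 X2, Sub X1 A → Sub X2 A → opair X1 X2 ∈ g →
      ∀ a b, Sm A g C X1 a b ↔ Sm A g C X2 a b := by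
    intro X1 X2 h1 h2 h12 a b
    refine ⟨fun h => h.map hA hD hG hfun h1 h2 h12, fun h => ?_⟩
    by_contra hcon
    exact not_bad hA hD hG hfun hsurj ⟨h1, X2, h2, h12, a, b, h, hcon⟩
  have hpre : ∀ X2 X1, Sub X2 A → opair X2 X1 ∈ g → X1 ∈ Cls A g C Y → X2 ∈ Cls A g C Y := by
    intro X2 X1 hX2 h21 hX1
    obtain ⟨hX1A, hX1S⟩ := mem_Cls.1 hX1
    exact mem_Cls.2 ⟨hX2, fun a b => (hsame X2 X1 hX2 hX1A h21 a b).trans (hX1S a b)⟩
  have hself : Y ∈ Cls A g C Y := mem_Cls.2 ⟨hY, fun a b => Iff.rfl⟩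
  have hcf := cls_kfin (g := g) hA hC hY
  have hXC := hpre X Y hX h hself
  have hX'C := hpre X' Y hX' h' hself
  have hQ := eq_of_emb (Y := diff (Cls A g C Y) (sing X')) hcf
    (fun z hz => (mem_diff.1 hz).1) (by
      refine emb_of_surj hcf _ (fun y z => opair y z ∈ g) (fun y z z' => hfun y z z') ?_
      intro z hz
      by_cases hzY : z = Y
      · refine ⟨X, mem_diff.2 ⟨hXC, fun hh => hne (mem_sing.1 hh)⟩, ?_⟩
        rw [hzY]; exact h
      · obtain ⟨x, hx, hxz⟩ := hsurj z (mem_Cls.1 hz).1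
        refine ⟨x, mem_diff.2 ⟨hpre x z hx hxz hz, fun hh => hzY ?_⟩, hxz⟩
        rw [mem_sing.1 hh] at hxz
        exact hfun _ _ _ hxz h')
  rw [← hQ] at hX'C
  exact (mem_diff.1 hX'C).2 (mem_sing.2 rfl)

end

end Pool.Agent.ZF1
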