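import Pool.Agent.Lib_helper1.ZF.Types

/-!
Elementary maps of a binary relation on the power set of an amorphous set, and the associated
closure operation.
-/

set_option linter.unusedSectionVars false
set_option linter.unusedVariables false

universe u

namespace Pool.Agent.ZF1

open FirstOrder Language

section
variable {V : Type u} [Lset.Structure V] [IsZF V]

instance {t s r : (ℕ → V) → V} [ht : DF t] [hs : DF s] [hr : DF r] :
    DP (fun v => El (t v) (s v) (r v)) :=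
  DP.comp3 (by unfold El; infer_instance) ht hs hr

variable {A g : V}

theorem El.at {p : V} (h : El A g p) : At A g p := st_zero.1 (h emp emp_mem_omega)

theorem El.pinj {p : V} (h : El A g p) : PInj A p := h.at.1

theorem El.inje {p : V} (h : El A g p) : Inje p := h.at.1.2.2

theorem El.rel {p : V} (h : El A g p) : IsRel p := h.pinj.rel

theorem el_idm {S : V} (hS : Sub S A) (hf : Kfin S) : El A g (idm S) :=
  fun k hk => st_idm hk S hS hf

theorem El.inv {p : V} (h : El A g p) : El A g (inv p) := fun k hk => st_inv hk p (h k hk)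

theorem El.cmp {p q : V} (hq : El A g q) (hp : El A g p) (h : rn p = dm q) :
    El A g (cmp q p) := fun k hk => st_cmp hk p q (hp k hk) (hq k hk) h

theorem El.mono {p q : V} (hq : El A g q) (h : Sub p q) : El A g p :=
  fun k hk => st_mono hk p q (hq k hk) h

theorem El.res {p : V} (hp : El A g p) (S : V) : El A g (res p S) := hp.mono (res_sub p S)

theorem El.fw (hA : Amor A) {p : V} (h : El A g p) {a : V} (ha : a ∈ A) :
    ∃ b ∈ A, El A g (ins p (opair a b)) := by
  obtain ⟨m, hm, hstab⟩ := amor_stab hA (fun k b => St A g k (ins p (opair a b)))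
    (fun k hk b hb h => st_down hk _ h)
  obtain ⟨b, hb, h1⟩ := ((st_succ hm).1 (h _ (succ_mem_omega hm))).2.1 a ha
  exact ⟨b, hb, hstab b hb h1⟩

theorem El.bw (hA : Amor A) {p : V} (h : El A g p) {b : V} (hb : b ∈ A) :
    ∃ a ∈ A, El A g (ins p (opair a b)) := by
  obtain ⟨a, ha, h1⟩ := h.inv.fw hA hb
  refine ⟨a, ha, ?_⟩
  have := h1.inv
  rw [inv_ins, inv_inv h.rel] at this
  exact this

theorem cmp_idm_left {p : V} (hp : IsRel p) {T : V} (h : Sub (rn p) T) : cmp (idm T) p = p :=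
  rel_ext (isRel_cmp _ _) hp fun x y => by
    rw [mem_cmp]
    constructor
    · rintro ⟨z, h1, h2⟩
      rw [← (mem_idm.1 h2).2]; exact h1
    · intro h1
      exact ⟨y, h1, mem_idm.2 ⟨h y (mem_rn.2 ⟨x, h1⟩), rfl⟩⟩

theorem cmp_idm_right {p : V} (hp : IsRel p) {T : V} (h : Sub (dm p) T) : cmp p (idm T) = p :=
  rel_ext (isRel_cmp _ _) hp fun x y => by
    rw [mem_cmp]
    constructor
    · rintro ⟨z, h1, h2⟩
      rw [(mem_idm.1 h1).2]; exact h2
    · intro h1
      exact ⟨x, mem_idm.2 ⟨h x (mem_dm.2 ⟨y, h1⟩), rfl⟩, h1⟩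

theorem cmp_inv_self {p : V} (hp : Inje p) : cmp (inv p) p = idm (dm p) :=
  rel_ext (isRel_cmp _ _) (isRel_idm _) fun x y => by
    rw [mem_cmp, mem_idm]
    constructor
    · rintro ⟨z, h1, h2⟩
      rw [mem_inv] at h2
      exact ⟨mem_dm.2 ⟨z, h1⟩, hp.2 _ _ _ h1 h2⟩
    · rintro ⟨h1, rfl⟩
      obtain ⟨z, hz⟩ := mem_dm.1 h1
      exact ⟨z, hz, mem_inv.2 hz⟩

/-- composition of one-point extensions -/
theorem El.cmp_ins {p q a b c : V} (hp : El A g (ins p (opair a b)))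
    (hq : El A g (ins q (opair b c))) (h : rn p = dm q) : El A g (ins (ZF1.cmp q p) (opair a c)) := by
  rw [← ZF1.cmp_ins hp.inje hq.inje]
  exact hq.cmp hp (by rw [rn_ins, dm_ins, h])

/-- genericity -/
theorem el_gen (hA : Amor A) {S : V} (hS : Sub S A) (hSf : Kfin S) :
    ∃ C : V, Kfin C ∧ ∀ a ∈ A, ∀ a' ∈ A, a ∉ C → a' ∉ C → El A g (ins (idm S) (opair a a')) := by
  -- generic points of stage `k`
  have hcomp : ∀ k ∈ (omega : V), ∀ b c d, St A g k (ins (idm S) (opair b c)) →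
      St A g k (ins (idm S) (opair c d)) → St A g k (ins (idm S) (opair b d)) := by
    intro k hk b c d h1 h2
    have := st_cmp hk _ _ h1 h2 (by rw [rn_ins, dm_ins, rn_idm, dm_idm])
    rw [cmp_ins (st_at h1).1.2.2 (st_at h2).1.2.2,
      cmp_idm_left (isRel_idm S) (by rw [rn_idm]; exact sub_refl _)] at this
    exact this
  have hsymm : ∀ k ∈ (omega : V), ∀ b c, St A g k (ins (idm S) (opair b c)) →
      St A g k (ins (idm S) (opair c b)) := by
    intro k hk b c h
    have := st_inv hk _ h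
    rw [inv_ins, inv_idm] at this
    exact this
  let G : V → V → Prop := fun k b =>
    ¬ Kfin (sep (fun b' => ∃ k' c : V, k' = k ∧ c = b ∧ St A g k' (ins (idm S) (opair c b'))) A)
  have hGiff : ∀ k b, G k b ↔ ∀ O : V, (∀ z, z ∈ O ↔ z ∈ A ∧ St A g k (ins (idm S) (opair b z))) →
      ¬ Kfin O := by
    intro k b
    have e : ∀ O : V, (∀ z, z ∈ O ↔ z ∈ A ∧ St A g k (ins (idm S) (opair b z))) →
        O = sep (fun b' => ∃ k' c : V, k' = k ∧ c = b ∧ St A g k' (ins (idm S) (opair c b'))) A := by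
      intro O hO
      refine ext fun z => ?_
      rw [hO z, mem_sep]
      refine and_congr_right fun _ => ⟨fun h => ⟨k, b, rfl, rfl, h⟩, ?_⟩
      rintro ⟨_, _, rfl, rfl, h⟩
      exact h
    constructor
    · intro h O hO
      rw [e O hO]; exact h
    · intro h
      refine h _ fun z => ?_
      rw [mem_sep]
      refine and_congr_right fun _ => ⟨?_, fun h => ⟨k, b, rfl, rfl, h⟩⟩
      rintro ⟨k', b', e1, e2, h'⟩
      rw [e1, e2] at h'
      exact h'
  have hGDP : DP (fun v => G (v 0) (v 1)) := by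
    have h1 : DP (fun v : ℕ → V => ∀ O : V, (∀ z, z ∈ O ↔ z ∈ A ∧
        St A g (v 0) (ins (idm S) (opair (v 1) z))) → ¬ Kfin O) := inferInstance
    exact h1.congr fun v => (hGiff _ _).symm
  clear_value G
  have hO : ∀ k b : V, ∃ O : V, ∀ z, z ∈ O ↔ z ∈ A ∧ St A g k (ins (idm S) (opair b z)) :=
    fun k b => ⟨sep (fun z => St A g k (ins (idm S) (opair b z))) A, fun z => mem_sep⟩
  -- any two generic points are related
  have hrel : ∀ k ∈ (omega : V), ∀ b ∈ A, ∀ b' ∈ A, G k b → G k b' →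
      St A g k (ins (idm S) (opair b b')) := by
    intro k hk b hb b' hb' h h'
    obtain ⟨O, hO1⟩ := hO k b
    obtain ⟨O', hO2⟩ := hO k b'
    have i1 := (hGiff k b).1 h O hO1
    have i2 := (hGiff k b').1 h' O' hO2
    have hc : ∃ c, c ∈ O ∧ c ∈ O' := by
      by_contra hcon
      rcases hA.2 O (fun z hz => ((hO1 z).1 hz).1) with h | h
      · exact i1 h
      · refine i2 (kfin_sub h _ fun z hz => mem_diff.2 ⟨((hO2 z).1 hz).1, fun hz' =>
          hcon ⟨z, hz', hz⟩⟩)
    obtain ⟨c, hc1, hc2⟩ := hc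
    exact hcomp k hk b c b' ((hO1 c).1 hc1).2 (hsymm k hk _ _ ((hO2 c).1 hc2).2)
  obtain ⟨m, hm, hstab⟩ := amor_stab hA G (by
    intro k hk b hb h
    rw [hGiff] at h ⊢
    intro O hO1 hf
    obtain ⟨O', hO2⟩ := hO (succ k) b
    exact h O' hO2 (kfin_sub hf _ fun z hz => (hO1 z).2 ⟨((hO2 z).1 hz).1,
      st_down hk _ ((hO2 z).1 hz).2⟩))
  -- cofinitely many points are generic
  have hGm : DP (fun v => G m (v 0)) := DP.comp2 (R := G) hGDP (DF.const m) (DF.var 0)
  have hcof : Kfin (diff A (sep (fun b => G m b) A)) := by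
    rcases hA.2 (sep (fun b => G m b) A) (fun z hz => (mem_sep.1 hz).1) with h | h
    · exfalso
      obtain ⟨b, hb, hbig⟩ := exists_big (g := g) hA.1 hm hS hSf
      apply hbig
      refine kfin_sub h _ fun c hc => ?_
      obtain ⟨hcA, hbc⟩ := mem_sep.1 hc
      refine mem_sep.2 ⟨hcA, (hGiff m c).2 fun O hO1 hf => hbig ?_⟩
      refine kfin_sub hf _ fun d hd => ?_
      obtain ⟨hdA, hbd⟩ := mem_sep.1 hd
      exact (hO1 d).2 ⟨hdA, hcomp m hm _ _ _ (hsymm m hm _ _ hbc) hbd⟩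
    · exact h
  refine ⟨_, hcof, fun a ha a' ha' h h' k hk => ?_⟩
  have hk1 : ∀ b ∈ A, b ∉ diff A (sep (fun b => G m b) A) → G m b := by
    intro b hb hb'
    by_contra hcon
    exact hb' (mem_diff.2 ⟨hb, fun h => hcon (mem_sep.1 h).2⟩)
  exact hrel k hk a ha a' ha' (hstab a ha (hk1 a ha h) k hk) (hstab a' ha' (hk1 a' ha' h') k hk)

/-! ### Orbits and closure -/

/-- the orbit of `a` over `S` -/
noncomputable def orb (A g S a : V) : V := sep (fun b => El A g (ins (idm S) (opair a b))) A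

theorem mem_orb {S a b : V} : b ∈ orb A g S a ↔ b ∈ A ∧ El A g (ins (idm S) (opair a b)) := mem_sep

/-- the closure of `S` -/
noncomputable def clo (A g S : V) : V :=
  sep (fun a => ∀ O : V, (∀ z, z ∈ O ↔ z ∈ A ∧ El A g (ins (idm S) (opair a z))) → Kfin O) A

theorem mem_clo {S a : V} : a ∈ clo A g S ↔ a ∈ A ∧ Kfin (orb A g S a) := by
  unfold clo
  rw [mem_sep]
  refine and_congr_right fun _ => ⟨fun h => h _ fun z => mem_orb, fun h O hO => ?_⟩
  have : O = orb A g S a := ext fun z => (hO z).trans mem_orb.symm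
  rw [this]; exact h

theorem mem_clo' {A g S a : V} : a ∈ clo A g S ↔ a ∈ A ∧
    ∀ O : V, (∀ z, z ∈ O ↔ z ∈ A ∧ El A g (ins (idm S) (opair a z))) → Kfin O := mem_sep

instance {t s r : (ℕ → V) → V} [ht : DF t] [hs : DF s] [hr : DF r] :
    DF (fun v => clo (t v) (s v) (r v)) :=
  DF.mem3 (F := clo) (φ := fun z A g S => z ∈ A ∧
    ∀ O : V, (∀ w, w ∈ O ↔ w ∈ A ∧ El A g (ins (idm S) (opair z w))) → Kfin O)
    (fun _ _ _ _ => mem_clo') inferInstance ht hs hr

theorem clo_sub (S : V) : Sub (clo A g S) A := fun z hz => (mem_clo.1 hz).1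

theorem el_idm_trans {S a b c : V} (h1 : El A g (ins (idm S) (opair a b)))
    (h2 : El A g (ins (idm S) (opair b c))) : El A g (ins (idm S) (opair a c)) := by
  have := h1.cmp_ins h2 (by rw [rn_idm, dm_idm])
  rw [cmp_idm_left (isRel_idm S) (by rw [rn_idm]; exact sub_refl _)] at this
  exact this

theorem el_idm_symm {S a b : V} (h1 : El A g (ins (idm S) (opair a b))) :
    El A g (ins (idm S) (opair b a)) := by
  have := h1.inv
  rw [inv_ins, inv_idm] at this
  exact this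

theorem el_idm_left_mem {S a b : V} (h1 : El A g (ins (idm S) (opair a b))) : a ∈ A :=
  (opair_mem_prod.1 (h1.pinj.1 _ (mem_ins_self _ _))).1

theorem el_idm_right_mem {S a b : V} (h1 : El A g (ins (idm S) (opair a b))) : b ∈ A :=
  (opair_mem_prod.1 (h1.pinj.1 _ (mem_ins_self _ _))).2

/-- the closure of a finite set is finite -/
theorem clo_kfin (hA : Amor A) {S : V} (hS : Sub S A) (hSf : Kfin S) : Kfin (clo A g S) := by
  obtain ⟨C, hC, h⟩ := el_gen (g := g) hA hS hSf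
  refine kfin_sub hC _ fun a ha => ?_
  obtain ⟨haA, hf⟩ := mem_clo.1 ha
  by_contra haC
  refine hA.1 (kfin_sub (kfin_un hf hC) _ fun b hb => mem_un.2 ?_)
  by_cases hbC : b ∈ C
  · exact Or.inr hbC
  · exact Or.inl (mem_orb.2 ⟨hb, h a haA b hb haC hbC⟩)

/-- any two points outside the closure are conjugate -/
theorem clo_gen (hA : Amor A) {S : V} (hS : Sub S A) (hSf : Kfin S) {a b : V} (ha : a ∈ A)
    (hb : b ∈ A) (ha' : a ∉ clo A g S) (hb' : b ∉ clo A g S) :
    El A g (ins (idm S) (opair a b)) := by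
  obtain ⟨C, hC, h⟩ := el_gen (g := g) hA hS hSf
  have key : ∀ a ∈ A, a ∉ clo A g S → ∃ c ∈ A, c ∉ C ∧ El A g (ins (idm S) (opair a c)) := by
    intro a ha ha'
    by_contra hcon
    push Not at hcon
    refine ha' (mem_clo.2 ⟨ha, kfin_sub hC _ fun c hc => ?_⟩)
    by_contra hcC
    exact hcon c (mem_orb.1 hc).1 hcC (mem_orb.1 hc).2
  obtain ⟨c, hc, hcC, h1⟩ := key a ha ha'
  obtain ⟨d, hd, hdC, h2⟩ := key b hb hb'
  exact el_idm_trans (el_idm_trans h1 (h c hc d hd hcC hdC)) (el_idm_symm h2)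

theorem sub_clo {S : V} (hS : Sub S A) : Sub S (clo A g S) := fun a ha => by
  refine mem_clo.2 ⟨hS a ha, kfin_sub (kfin_sing a) _ fun b hb => mem_sing.2 ?_⟩
  exact (mem_orb.1 hb).2.inje.1 a b a (mem_ins_self _ _) (mem_ins.2 (Or.inl (mem_idm.2 ⟨ha, rfl⟩)))

theorem idm_mono {S T : V} (h : Sub S T) : Sub (idm S) (idm T) := fun z hz => by
  obtain ⟨x, hx, rfl⟩ := mem_idm'.1 hz
  exact mem_idm.2 ⟨h x hx, rfl⟩

theorem clo_mono {S T : V} (h : Sub S T) : Sub (clo A g S) (clo A g T) := fun a ha => by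
  obtain ⟨haA, hf⟩ := mem_clo.1 ha
  refine mem_clo.2 ⟨haA, kfin_sub hf _ fun b hb => ?_⟩
  obtain ⟨hbA, hb'⟩ := mem_orb.1 hb
  exact mem_orb.2 ⟨hbA, hb'.mono (ins_mono (idm_mono h))⟩

/-- extension of elementary maps to finite sets -/
theorem El.extend (hA : Amor A) {p : V} (hp : El A g p) {W : V} (hW : Sub W A) (hWf : Kfin W) :
    ∃ q, El A g q ∧ Sub p q ∧ Sub W (dm q) := by
  refine kfin_ind (Q := fun W => ∃ q, El A g q ∧ Sub p q ∧ Sub W (dm q)) hWf ?_ ?_
  · exact ⟨p, hp, sub_refl p, emp_sub _⟩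
  · rintro Y a _ ⟨q, hq, hpq, hY⟩ _ haW _
    obtain ⟨b, hb, h⟩ := hq.fw hA (hW a haW)
    refine ⟨_, h, sub_trans hpq (sub_ins _ _), fun z hz => ?_⟩
    rw [dm_ins]
    rcases mem_ins.1 hz with hz | rfl
    · exact mem_ins.2 (Or.inl (hY z hz))
    · exact mem_ins_self _ _

theorem El.extend_rn (hA : Amor A) {p : V} (hp : El A g p) {W : V} (hW : Sub W A)
    (hWf : Kfin W) : ∃ q, El A g q ∧ Sub p q ∧ Sub W (rn q) := by
  obtain ⟨q, hq, hpq, hWq⟩ := hp.inv.extend hA hW hWf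
  refine ⟨_, hq.inv, fun z hz => ?_, ?_⟩
  · obtain ⟨x, y, rfl⟩ := hp.rel z hz
    exact mem_inv.2 (hpq _ (mem_inv.2 hz))
  · rw [rn_inv]; exact hWq

/-- transport of the closure, one direction -/
theorem El.clo_transport (hA : Amor A) {q : V} (hq : El A g q) {S : V} (hS : Sub S (dm q))
    {a b : V} (hab : opair a b ∈ q) (ha : a ∈ clo A g S) : b ∈ clo A g (img q S) := by
  have haA := hq.pinj.dm_sub a (mem_dm.2 ⟨b, hab⟩)
  have hbA := hq.pinj.rn_sub b (mem_rn.2 ⟨a, hab⟩)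
  refine mem_clo.2 ⟨hbA, ?_⟩
  by_contra hinf
  obtain ⟨W, hW, hWsub, hemb⟩ := exists_not_emb hinf (mem_clo.1 ha).2
  apply hemb
  have hWA : Sub W A := fun z hz => (mem_orb.1 (hWsub z hz)).1
  have hr0 : El A g (ZF1.inv (ZF1.res q S)) := (hq.res S).inv
  obtain ⟨r, hr, hsub, hWr⟩ := hr0.extend hA hWA hW
  refine ⟨ZF1.res r W, (hr.res W).inje, dm_res_of_sub hWr, fun z hz => ?_⟩
  obtain ⟨w, hw⟩ := mem_rn.1 hz
  obtain ⟨hwr, hwW⟩ := mem_res.1 hw
  obtain ⟨hwA, hw'⟩ := mem_orb.1 (hWsub w hwW)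
  have hzA : z ∈ A := hr.pinj.rn_sub z (mem_rn.2 ⟨w, hwr⟩)
  refine mem_orb.2 ⟨hzA, ?_⟩
  -- compose the three maps
  have h1 : El A g (ins (ZF1.res q S) (opair a b)) := hq.mono fun z hz => by
    rcases mem_ins.1 hz with hz | rfl
    · exact res_sub q S z hz
    · exact hab
  have h2 := h1.cmp_ins hw' (by rw [rn_res, dm_idm])
  rw [cmp_idm_left (isRel_res _ _) (by rw [rn_res]; exact sub_refl _)] at h2
  have h3 : El A g (ins (ZF1.inv (ZF1.res q S)) (opair w z)) := hr.mono fun u hu => by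
    rcases mem_ins.1 hu with hu | rfl
    · exact hsub u hu
    · exact hwr
  have h4 := h2.cmp_ins h3 (by rw [dm_inv])
  rw [cmp_inv_self (hq.res S).inje, dm_res_of_sub hS] at h4
  exact h4

theorem El.clo_iff (hA : Amor A) {q : V} (hq : El A g q) {S : V} (hS : Sub S (dm q))
    {a b : V} (hab : opair a b ∈ q) : a ∈ clo A g S ↔ b ∈ clo A g (img q S) := by
  refine ⟨hq.clo_transport hA hS hab, fun h => ?_⟩
  have := hq.inv.clo_transport hA (S := img q S) (by rw [dm_inv]; exact img_sub_rn _ _)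
    (mem_inv.2 hab) h
  rw [img_inv_img hq.inje hS] at this
  exact this

/-- the image of the closure -/
theorem El.img_clo (hA : Amor A) {q : V} (hq : El A g q) {S : V} (hS : Sub S A)
    (hc : Sub (clo A g S) (dm q)) : img q (clo A g S) = clo A g (img q S) := by
  have hS' : Sub S (dm q) := sub_trans (sub_clo hS) hc
  refine ext fun b => ⟨fun hb => ?_, fun hb => ?_⟩
  · obtain ⟨a, ha, hab⟩ := mem_img.1 hb
    exact hq.clo_transport hA hS' hab ha
  · obtain ⟨a, ha, h⟩ := hq.bw hA (clo_sub _ b hb)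
    have hS'' : Sub S (dm (ins q (opair a b))) := sub_trans hS' (dm_mono (sub_ins _ _))
    have e : img (ins q (opair a b)) S = img q S := img_ext (sub_ins _ _) h.inje hS'
    have ha' : a ∈ clo A g S := by
      rw [h.clo_iff hA hS'' (mem_ins_self _ _), e]
      exact hb
    obtain ⟨b', hb'⟩ := mem_dm.1 (hc a ha')
    have := h.inje.1 a b b' (mem_ins_self _ _) (mem_ins.2 (Or.inl hb'))
    subst this
    exact mem_img.2 ⟨a, ha', hb'⟩

end

end Pool.Agent.ZF1
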