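import Pool.Agent.Lib_helper1.ZF.Basic

/-!
Finite sets inside a model of ZF.
-/

set_option linter.unusedSectionVars false
set_option linter.unusedVariables false

universe u

namespace Pool.Agent.ZF1

open FirstOrder Language

section
variable {V : Type u} [Lset.Structure V] [IsZF V]

/-! ### Definability of functions given by their elements -/

theorem DF.mem1 {F : V → V} {φ : V → V → Prop} (h : ∀ x z, z ∈ F x ↔ φ z x)
    (hφ : DP (fun v => φ (v 0) (v 1))) {t : (ℕ → V) → V} (ht : DF t) : DF (fun v => F (t v)) := by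
  have hφ' : ∀ (t s : (ℕ → V) → V) [DF t] [DF s], DP (fun v => φ (t v) (s v)) :=
    fun t s _ _ => DP.comp2 hφ inferInstance inferInstance
  exact DF.of_rel1 (R := fun u x => ∀ z, z ∈ u ↔ φ z x) inferInstance
    (fun u x => ⟨fun e => by subst e; exact h x, fun e => ext fun z => (e z).trans (h x z).symm⟩) ht

theorem DF.mem2 {F : V → V → V} {φ : V → V → V → Prop} (h : ∀ x y z, z ∈ F x y ↔ φ z x y)
    (hφ : DP (fun v => φ (v 0) (v 1) (v 2))) {t s : (ℕ → V) → V} (ht : DF t) (hs : DF s) :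
    DF (fun v => F (t v) (s v)) := by
  have hφ' : ∀ (t s r : (ℕ → V) → V) [DF t] [DF s] [DF r], DP (fun v => φ (t v) (s v) (r v)) :=
    fun t s r _ _ _ => DP.comp3 hφ inferInstance inferInstance inferInstance
  exact DF.of_rel2 (R := fun u x y => ∀ z, z ∈ u ↔ φ z x y) inferInstance
    (fun u x y => ⟨fun e => by subst e; exact h x y,
      fun e => ext fun z => (e z).trans (h x y z).symm⟩) ht hs

theorem DF.of_rel3 {F : V → V → V → V} {R : V → V → V → V → Prop}
    (h : DP (fun v => R (v 0) (v 1) (v 2) (v 3)))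
    (hF : ∀ y x x' x'', y = F x x' x'' ↔ R y x x' x'') {t s r : (ℕ → V) → V} (ht : DF t)
    (hs : DF s) (hr : DF r) : DF (fun v => F (t v) (s v) (r v)) := by
  refine ⟨?_⟩
  have ht' : DF (fun v => t (shift v)) := ht.rename (fun n => n + 1)
  have hs' : DF (fun v => s (shift v)) := hs.rename (fun n => n + 1)
  have hr' : DF (fun v => r (shift v)) := hr.rename (fun n => n + 1)
  exact (DP.comp4 h (DF.var 0) ht' hs' hr').congr (fun v => (hF _ _ _ _).symm)

theorem DF.mem3 {F : V → V → V → V} {φ : V → V → V → V → Prop}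
    (h : ∀ x y w z, z ∈ F x y w ↔ φ z x y w)
    (hφ : DP (fun v => φ (v 0) (v 1) (v 2) (v 3))) {t s r : (ℕ → V) → V} (ht : DF t) (hs : DF s)
    (hr : DF r) :
    DF (fun v => F (t v) (s v) (r v)) := by
  have hφ' : ∀ (t s r q : (ℕ → V) → V) [DF t] [DF s] [DF r] [DF q],
      DP (fun v => φ (t v) (s v) (r v) (q v)) :=
    fun t s r q _ _ _ _ => DP.comp4 hφ inferInstance inferInstance inferInstance inferInstance
  exact DF.of_rel3 (R := fun u x y w => ∀ z, z ∈ u ↔ φ z x y w) inferInstance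
    (fun u x y w => ⟨fun e => by subst e; exact h x y w,
      fun e => ext fun z => (e z).trans (h x y w z).symm⟩) ht hs hr

instance DP.allBool {P : Bool → (ℕ → V) → Prop} [h : ∀ i, DP (P i)] :
    DP (fun v => ∀ i, P i v) := by
  have h1 : DP (fun v => P true v ∧ P false v) := by
    have := h true
    have := h false
    infer_instance
  exact h1.congr fun v => by
    constructor
    · rintro ⟨h1, h2⟩ (_ | _)
      · exact h2
      · exact h1
    · intro h
      exact ⟨h true, h false⟩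

/-! ### More operations -/

/-- difference -/
noncomputable def diff (x y : V) : V := sep (fun z => z ∉ y) x

theorem mem_diff {x y z : V} : z ∈ diff x y ↔ z ∈ x ∧ z ∉ y := mem_sep

instance {t s : (ℕ → V) → V} [ht : DF t] [hs : DF s] : DF (fun v => diff (t v) (s v)) :=
  DF.mem2 (F := diff) (φ := fun z x y => z ∈ x ∧ z ∉ y) (fun _ _ _ => mem_diff) inferInstance ht hs

/-- intersection -/
noncomputable def inter (x y : V) : V := sep (fun z => z ∈ y) x

theorem mem_inter {x y z : V} : z ∈ inter x y ↔ z ∈ x ∧ z ∈ y := mem_sep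

instance {t s : (ℕ → V) → V} [ht : DF t] [hs : DF s] : DF (fun v => inter (t v) (s v)) :=
  DF.mem2 (F := inter) (φ := fun z x y => z ∈ x ∧ z ∈ y) (fun _ _ _ => mem_inter) inferInstance
    ht hs

/-- insertion of an element -/
noncomputable def ins (y a : V) : V := un y (sing a)

theorem mem_ins {y a z : V} : z ∈ ins y a ↔ z ∈ y ∨ z = a := by
  unfold ins; rw [mem_un, mem_sing]

instance {t s : (ℕ → V) → V} [ht : DF t] [hs : DF s] : DF (fun v => ins (t v) (s v)) := by
  unfold ins; infer_instance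

theorem ins_of_mem {y a : V} (h : a ∈ y) : ins y a = y :=
  ext fun z => by
    rw [mem_ins]
    exact ⟨fun h' => h'.elim id (fun e => e ▸ h), Or.inl⟩

theorem un_comm (x y : V) : un x y = un y x := ext fun z => by rw [mem_un, mem_un, or_comm]

theorem un_emp (x : V) : un x emp = x := ext fun z => by
  rw [mem_un]
  exact ⟨fun h => h.elim id (fun h => absurd h (not_mem_emp z)), Or.inl⟩

theorem un_ins (x y a : V) : un x (ins y a) = ins (un x y) a := ext fun z => by
  simp only [mem_un, mem_ins]; tauto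

theorem sub_un_left (x y : V) : Sub x (un x y) := fun z hz => mem_un.2 (Or.inl hz)
theorem sub_un_right (x y : V) : Sub y (un x y) := fun z hz => mem_un.2 (Or.inr hz)
theorem sub_ins (y a : V) : Sub y (ins y a) := fun z hz => mem_ins.2 (Or.inl hz)
theorem mem_ins_self (y a : V) : a ∈ ins y a := mem_ins.2 (Or.inr rfl)

theorem sub_emp {x : V} (h : Sub x emp) : x = emp :=
  ext fun z => ⟨h z, fun hz => absurd hz (not_mem_emp z)⟩

theorem emp_sub (x : V) : Sub emp x := fun z hz => absurd hz (not_mem_emp z)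

theorem eq_emp_or (x : V) : x = emp ∨ ∃ z, z ∈ x := by
  by_cases h : ∃ z, z ∈ x
  · exact Or.inr h
  · left
    exact ext fun z => ⟨fun hz => absurd ⟨z, hz⟩ h, fun hz => absurd hz (not_mem_emp z)⟩

/-! ### Finite sets -/

/-- Kuratowski finiteness -/
def Kfin (x : V) : Prop := ∀ F : V, emp ∈ F → (∀ y ∈ F, ∀ a ∈ x, ins y a ∈ F) → x ∈ F

instance {t : (ℕ → V) → V} [ht : DF t] : DP (fun v => Kfin (t v)) :=
  DP.comp1 (by unfold Kfin; infer_instance) ht

theorem kfin_ind0 {Q : V → Prop} [h : DP (fun v => Q (v 0))] {x : V} (hx : Kfin x) (h0 : Q emp)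
    (hs : ∀ y, Sub y x → Q y → ∀ a ∈ x, Q (ins y a)) : Q x := by
  have h1 := hx (sep (fun y => Q y) (pow x))
    (mem_sep.2 ⟨mem_pow.2 (emp_sub x), h0⟩) (by
      intro y hy a ha
      rw [mem_sep, mem_pow] at hy ⊢
      refine ⟨?_, hs y hy.1 hy.2 a ha⟩
      intro z hz
      rcases mem_ins.1 hz with hz | rfl
      · exact hy.1 z hz
      · exact ha)
  exact (mem_sep.1 h1).2

theorem kfin_emp : Kfin (emp : V) := fun F h _ => h

theorem kfin_ins {y : V} (hy : Kfin y) (a : V) : Kfin (ins y a) := by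
  intro F h0 hs
  exact hs y (hy F h0 fun z hz b hb => hs z hz b (mem_ins.2 (Or.inl hb))) a (mem_ins_self y a)

/-- induction for finite sets -/
theorem kfin_ind {Q : V → Prop} [h : DP (fun v => Q (v 0))] {x : V} (hx : Kfin x) (h0 : Q emp)
    (hs : ∀ y a, Kfin y → Q y → a ∉ y → a ∈ x → Sub y x → Q (ins y a)) : Q x := by
  refine (kfin_ind0 (Q := fun y => Kfin y ∧ Q y) hx ⟨kfin_emp, h0⟩ ?_).2
  rintro y hyx ⟨hy, hQ⟩ a ha
  by_cases hay : a ∈ y
  · rw [ins_of_mem hay]; exact ⟨hy, hQ⟩
  · exact ⟨kfin_ins hy a, hs y a hy hQ hay ha hyx⟩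

theorem kfin_un {x y : V} (hx : Kfin x) (hy : Kfin y) : Kfin (un x y) := by
  refine kfin_ind (Q := fun y => Kfin (un x y)) hy (by rw [un_emp]; exact hx) ?_
  intro y a _ ih _ _ _
  rw [un_ins]
  exact kfin_ins ih a

theorem kfin_sing (a : V) : Kfin (sing a) := by
  have : sing a = ins emp a := ext fun z => by
    rw [mem_sing, mem_ins]
    exact ⟨Or.inr, fun h => h.elim (fun h => absurd h (not_mem_emp z)) id⟩
  rw [this]
  exact kfin_ins kfin_emp a

theorem kfin_sub {x : V} (hx : Kfin x) : ∀ y, Sub y x → Kfin y := by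
  refine kfin_ind (Q := fun x => ∀ y, Sub y x → Kfin y) hx ?_ ?_
  · intro y hy
    rw [sub_emp hy]; exact kfin_emp
  · intro x a _ ih _ _ _ y hy
    by_cases hay : a ∈ y
    · have : y = ins (diff y (sing a)) a := ext fun z => by
        rw [mem_ins, mem_diff, mem_sing]
        constructor
        · intro hz
          by_cases hza : z = a
          · exact Or.inr hza
          · exact Or.inl ⟨hz, hza⟩
        · rintro (⟨h, _⟩ | rfl)
          · exact h
          · exact hay
      rw [this]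
      apply kfin_ins
      apply ih
      intro z hz
      rw [mem_diff, mem_sing] at hz
      rcases mem_ins.1 (hy z hz.1) with h | h
      · exact h
      · exact absurd h hz.2
    · apply ih
      intro z hz
      rcases mem_ins.1 (hy z hz) with h | rfl
      · exact h
      · exact absurd hz hay

/-- the union of a finite family of finite sets, in relational form -/
theorem kfin_bUn {x : V} (hx : Kfin x) (P : V → V → Prop) [hP : DP (fun v => P (v 0) (v 1))]
    (B : V) (h : ∀ a ∈ x, Kfin (sep (fun z => ∃ a', a' = a ∧ P a' z) B)) :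
    Kfin (sep (fun z => ∃ a ∈ x, P a z) B) := by
  have hP' : ∀ (t s : (ℕ → V) → V) [DF t] [DF s], DP (fun v => P (t v) (s v)) :=
    fun t s _ _ => DP.comp2 hP inferInstance inferInstance
  have key : ∀ w : V, (∀ z, z ∈ w ↔ z ∈ B ∧ ∃ a ∈ x, P a z) → Kfin w := by
    have h' : ∀ a ∈ x, ∀ w : V, (∀ z, z ∈ w ↔ z ∈ B ∧ P a z) → Kfin w := by
      intro a ha w hw
      have e : w = sep (fun z => ∃ a', a' = a ∧ P a' z) B := ext fun z => by
        rw [hw z, mem_sep]; simp
      rw [e]; exact h a ha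
    refine kfin_ind (Q := fun x => ∀ w : V, (∀ z, z ∈ w ↔ z ∈ B ∧ ∃ a ∈ x, P a z) → Kfin w)
      hx ?_ ?_
    · intro w hw
      have : w = emp := ext fun z => by
        rw [hw z]
        exact ⟨fun ⟨_, a, ha, _⟩ => absurd ha (not_mem_emp a), fun h => absurd h (not_mem_emp z)⟩
      rw [this]; exact kfin_emp
    · intro y a _ ih _ hax _ w hw
      have e : w = un (sep (fun z => ∃ a ∈ y, P a z) B) (sep (fun z => ∃ a', a' = a ∧ P a' z) B) :=
        ext fun z => by
          rw [hw z, mem_un, mem_sep, mem_sep]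
          constructor
          · rintro ⟨hz, b, hb, hbz⟩
            rcases mem_ins.1 hb with hb | rfl
            · exact Or.inl ⟨hz, b, hb, hbz⟩
            · exact Or.inr ⟨hz, b, rfl, hbz⟩
          · rintro (⟨hz, b, hb, hbz⟩ | ⟨hz, b, rfl, hbz⟩)
            · exact ⟨hz, b, mem_ins.2 (Or.inl hb), hbz⟩
            · exact ⟨hz, b, mem_ins_self y b, hbz⟩
      rw [e]
      apply kfin_un
      · exact ih _ fun z => mem_sep
      · exact h' a hax _ fun z => by rw [mem_sep]; simp
  exact key _ fun z => mem_sep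

/-- the image of a finite set under a functional relation -/
theorem kfin_image {x : V} (hx : Kfin x) (P : V → V → Prop) [hP : DP (fun v => P (v 0) (v 1))]
    (hfun : ∀ a ∈ x, ∀ z z', P a z → P a z' → z = z') (w : V)
    (hw : ∀ z ∈ w, ∃ a ∈ x, P a z) : Kfin w := by
  have h1 : Kfin (sep (fun z => ∃ a ∈ x, P a z) w) := by
    apply kfin_bUn hx P w
    intro a ha
    by_cases h : ∃ z, P a z
    · obtain ⟨z, hz⟩ := h
      refine kfin_sub (kfin_sing z) _ ?_
      intro z' hz'
      obtain ⟨_, a', rfl, hz''⟩ := mem_sep.1 hz'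
      rw [mem_sing]
      exact hfun _ ha _ _ hz'' hz
    · refine kfin_sub kfin_emp _ ?_
      intro z' hz'
      obtain ⟨_, a', rfl, hz''⟩ := mem_sep.1 hz'
      exact absurd ⟨z', hz''⟩ h
  refine kfin_sub h1 _ fun z hz => mem_sep.2 ⟨hz, hw z hz⟩

theorem kfin_pow {x : V} (hx : Kfin x) : Kfin (pow x) := by
  refine kfin_ind (Q := fun x => Kfin (pow x)) hx ?_ ?_
  · refine kfin_sub (kfin_sing emp) _ fun z hz => ?_
    rw [mem_pow] at hz
    rw [mem_sing]; exact sub_emp hz
  · intro y a hy ih hay _ _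
    have h1 : Kfin (sep (fun z => ∃ w ∈ pow y, z = ins w a) (pow (ins y a))) :=
      kfin_image ih (fun w z => z = ins w a) (fun _ _ z z' h h' => h.trans h'.symm) _
        fun z hz => (mem_sep.1 hz).2
    refine kfin_sub (kfin_un ih h1) _ fun z hz => ?_
    rw [mem_un]
    by_cases haz : a ∈ z
    · right
      refine mem_sep.2 ⟨hz, diff z (sing a), ?_, ?_⟩
      · rw [mem_pow] at hz ⊢
        intro w hw
        rw [mem_diff, mem_sing] at hw
        rcases mem_ins.1 (hz w hw.1) with h | h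
        · exact h
        · exact absurd h hw.2
      · refine ext fun w => ?_
        rw [mem_ins, mem_diff, mem_sing]
        constructor
        · intro hw
          by_cases hwa : w = a
          · exact Or.inr hwa
          · exact Or.inl ⟨hw, hwa⟩
        · rintro (⟨h, _⟩ | rfl)
          · exact h
          · exact haz
    · left
      rw [mem_pow] at hz ⊢
      intro w hw
      rcases mem_ins.1 (hz w hw) with h | rfl
      · exact h
      · exact absurd hw haz

/-- cartesian product -/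
noncomputable def prod (x y : V) : V :=
  sep (fun p => ∃ a ∈ x, ∃ b ∈ y, p = opair a b) (pow (pow (un x y)))

theorem mem_prod {x y p : V} : p ∈ prod x y ↔ ∃ a ∈ x, ∃ b ∈ y, p = opair a b := by
  unfold prod
  rw [mem_sep]
  refine ⟨fun h => h.2, fun h => ⟨?_, h⟩⟩
  obtain ⟨a, ha, b, hb, rfl⟩ := h
  rw [mem_pow]
  intro z hz
  rw [mem_pow]
  intro w hw
  rw [mem_un]
  unfold opair at hz
  rcases mem_upair.1 hz with rfl | rfl
  · rw [mem_sing] at hw; subst hw; exact Or.inl ha
  · rcases mem_upair.1 hw with rfl | rfl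
    · exact Or.inl ha
    · exact Or.inr hb

theorem opair_mem_prod {x y a b : V} : opair a b ∈ prod x y ↔ a ∈ x ∧ b ∈ y := by
  rw [mem_prod]
  constructor
  · rintro ⟨a', ha, b', hb, e⟩
    obtain ⟨rfl, rfl⟩ := opair_inj.1 e
    exact ⟨ha, hb⟩
  · rintro ⟨ha, hb⟩
    exact ⟨a, ha, b, hb, rfl⟩

instance {t s : (ℕ → V) → V} [ht : DF t] [hs : DF s] : DF (fun v => prod (t v) (s v)) :=
  DF.mem2 (F := prod) (φ := fun z x y => ∃ a ∈ x, ∃ b ∈ y, z = opair a b) (fun _ _ _ => mem_prod)
    inferInstance ht hs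

theorem kfin_prod {x y : V} (hx : Kfin x) (hy : Kfin y) : Kfin (prod x y) :=
  kfin_sub (kfin_pow (kfin_pow (kfin_un hx hy))) _ fun z hz => (mem_sep.1 hz).1

/-- finite families of representatives -/
theorem kfin_reps {D : V} (hD : Kfin D) (X : V) (P : V → V → Prop)
    [hP : DP (fun v => P (v 0) (v 1))] :
    ∃ F, Kfin F ∧ Sub F X ∧ ∀ d ∈ D, ∀ x ∈ X, P x d → ∃ y ∈ F, P y d := by
  have hP' : ∀ (t s : (ℕ → V) → V) [DF t] [DF s], DP (fun v => P (t v) (s v)) :=
    fun t s _ _ => DP.comp2 hP inferInstance inferInstance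
  refine kfin_ind (Q := fun D => ∃ F, Kfin F ∧ Sub F X ∧
    ∀ d ∈ D, ∀ x ∈ X, P x d → ∃ y ∈ F, P y d) hD ?_ ?_
  · exact ⟨emp, kfin_emp, emp_sub X, fun d hd => absurd hd (not_mem_emp d)⟩
  · rintro y a _ ⟨F, hF, hFX, h⟩ _ _ _
    by_cases hx : ∃ x ∈ X, P x a
    · obtain ⟨x, hx, hxa⟩ := hx
      refine ⟨ins F x, kfin_ins hF x, ?_, ?_⟩
      · intro z hz
        rcases mem_ins.1 hz with hz | rfl
        · exact hFX z hz
        · exact hx
      · intro d hd x' hx' hP
        rcases mem_ins.1 hd with hd | rfl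
        · obtain ⟨y', hy', h'⟩ := h d hd x' hx' hP
          exact ⟨y', mem_ins.2 (Or.inl hy'), h'⟩
        · exact ⟨x, mem_ins_self F x, hxa⟩
    · refine ⟨F, hF, hFX, ?_⟩
      intro d hd x' hx' hP
      rcases mem_ins.1 hd with hd | rfl
      · exact h d hd x' hx' hP
      · exact absurd ⟨x', hx', hP⟩ hx

/-- finitely many classes for an equivalence relation given by finitely many properties -/
theorem kfin_classes {D : V} (hD : Kfin D) (X : V) (P : V → V → Prop)
    [hP : DP (fun v => P (v 0) (v 1))] :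
    ∃ F, Kfin F ∧ Sub F X ∧ ∀ x ∈ X, ∃ y ∈ F, ∀ d ∈ D, (P x d ↔ P y d) := by
  have hP' : ∀ (t s : (ℕ → V) → V) [DF t] [DF s], DP (fun v => P (t v) (s v)) :=
    fun t s _ _ => DP.comp2 hP inferInstance inferInstance
  obtain ⟨F, hF, hFX, h⟩ := kfin_reps (kfin_pow hD) X (fun x e => ∀ d ∈ D, (P x d ↔ d ∈ e))
  refine ⟨F, hF, hFX, fun x hx => ?_⟩
  have hPx : DP (fun v => P x (v 0)) := hP' (fun _ => x) (fun v => v 0)
  obtain ⟨y, hy, hy'⟩ := h (sep (fun d => P x d) D) (mem_pow.2 fun z hz => (mem_sep.1 hz).1) x hx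
    (fun d hd => ⟨fun h => mem_sep.2 ⟨hd, h⟩, fun h => (mem_sep.1 h).2⟩)
  refine ⟨y, hy, fun d hd => ?_⟩
  rw [hy' d hd, mem_sep]
  exact ⟨fun h => ⟨hd, h⟩, fun h => h.2⟩

/-- maximal elements of finite families -/
theorem kfin_max0 {X : V} (hX : Kfin X) : ∀ y0 ∈ X, ∃ y ∈ X, Sub y0 y ∧
    ∀ z ∈ X, Sub y z → z = y := by
  refine kfin_ind (Q := fun X => ∀ y0 ∈ X, ∃ y ∈ X, Sub y0 y ∧ ∀ z ∈ X, Sub y z → z = y) hX ?_ ?_
  · intro y0 h; exact absurd h (not_mem_emp y0)
  · intro X w _ ih hw _ _ y0 hy0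
    by_cases h : ∃ z ∈ X, Sub y0 z
    · obtain ⟨z, hz, hyz⟩ := h
      obtain ⟨y, hy, hzy, hmax⟩ := ih z hz
      by_cases hyw : Sub y w
      · refine ⟨w, mem_ins_self X w, sub_trans hyz (sub_trans hzy hyw), ?_⟩
        intro u hu hwu
        rcases mem_ins.1 hu with hu | rfl
        · have := hmax u hu (sub_trans hyw hwu)
          subst this
          exact sub_antisymm hyw hwu
        · rfl
      · refine ⟨y, mem_ins.2 (Or.inl hy), sub_trans hyz hzy, ?_⟩
        intro u hu hyu
        rcases mem_ins.1 hu with hu | rfl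
        · exact hmax u hu hyu
        · exact absurd hyu hyw
    · have hyw : y0 = w := by
        rcases mem_ins.1 hy0 with h' | h'
        · exact absurd ⟨y0, h', sub_refl y0⟩ h
        · exact h'
      refine ⟨y0, hy0, sub_refl y0, ?_⟩
      intro u hu hyu
      rcases mem_ins.1 hu with hu | hu
      · exact absurd ⟨u, hu, hyu⟩ h
      · rw [hu, hyw]

/-- maximal elements -/
theorem kfin_max {x : V} (hx : Kfin x) (P : V → Prop) [hP : DP (fun v => P (v 0))] (y0 : V)
    (hy0 : Sub y0 x) (h0 : P y0) : ∃ y, Sub y x ∧ P y ∧ Sub y0 y ∧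
      ∀ z, Sub z x → Sub y z → P z → z = y := by
  obtain ⟨y, hy, h1, h2⟩ := kfin_max0 (kfin_sub (kfin_pow hx) (sep (fun y => P y) (pow x))
    fun z hz => (mem_sep.1 hz).1) y0 (mem_sep.2 ⟨mem_pow.2 hy0, h0⟩)
  rw [mem_sep, mem_pow] at hy
  exact ⟨y, hy.1, hy.2, h1, fun z hz hyz hP => h2 z (mem_sep.2 ⟨mem_pow.2 hz, hP⟩) hyz⟩

end

end Pool.Agent.ZF1
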