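import Pool.Agent.Lib_helper1.ZF.El

/-!
The closure operation is a pregeometry.
-/

set_option linter.unusedSectionVars false
set_option linter.unusedVariables false

universe u

namespace Pool.Agent.ZF1

open FirstOrder Language

section
variable {V : Type u} [Lset.Structure V] [IsZF V] {A g : V}

theorem img_self_idm {q S : V} (hq : Inje q) (h : Sub (idm S) q) : img q S = S := ext fun x => by
  rw [mem_img]
  constructor
  · rintro ⟨y, hy, hyx⟩
    rw [hq.1 _ _ _ hyx (h _ (mem_idm.2 ⟨hy, rfl⟩))]; exact hy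
  · intro hx
    exact ⟨x, hx, h _ (mem_idm.2 ⟨hx, rfl⟩)⟩

/-- idempotence -/
theorem clo_clo (hA : Amor A) {S : V} (hS : Sub S A) (hSf : Kfin S) :
    clo A g (clo A g S) = clo A g S := by
  refine sub_antisymm ?_ (sub_clo (clo_sub S))
  intro a ha
  by_contra ha'
  have haA := clo_sub _ a ha
  have hcf := clo_kfin (g := g) hA hS hSf
  refine hA.1 (kfin_sub (kfin_un hcf (clo_kfin (g := g) hA (clo_sub S) hcf)) _ fun c hc => ?_)
  rw [mem_un]
  by_cases hcS : c ∈ clo A g S
  · exact Or.inl hcS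
  · right
    obtain ⟨q, hq, hsub, hdm⟩ := (clo_gen hA hS hSf haA hc ha' hcS).extend hA (clo_sub (g := g) S)
      hcf
    have hid : Sub (idm S) q := sub_trans (sub_ins _ _) hsub
    have e : img q (clo A g S) = clo A g S := by
      rw [hq.img_clo hA hS hdm, img_self_idm hq.inje hid]
    have := hq.clo_transport hA hdm (hsub _ (mem_ins_self _ _)) ha
    rw [e] at this
    exact this

/-- exchange -/
theorem clo_exchange (hA : Amor A) {S : V} (hS : Sub S A) (hSf : Kfin S) {a b : V} (ha : a ∈ A)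
    (hb : b ∈ A) (ha' : a ∉ clo A g S) (hb' : b ∉ clo A g S)
    (hab : a ∈ clo A g (ins S b)) : b ∈ clo A g (ins S a) := by
  by_contra hba
  have hcf := clo_kfin (g := g) hA hS hSf
  have hSb := clo_kfin (g := g) hA (ins_sub hS hb) (kfin_ins hSf b)
  -- infinitely many conjugates of `a`
  have hinf : ¬ Kfin (diff A (clo A g S)) := fun h => hA.1 (kfin_sub (kfin_un hcf h) _ fun c hc => by
    rw [mem_un, mem_diff]
    by_cases hcS : c ∈ clo A g S
    · exact Or.inl hcS
    · exact Or.inr ⟨hc, hcS⟩)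
  obtain ⟨W, hW, hWsub, hemb⟩ := exists_not_emb hinf hSb
  have hWA : Sub W A := fun z hz => (mem_diff.1 (hWsub z hz)).1
  -- a point outside the closures of all `S ∪ {c}`, `c ∈ W`
  have hU : Kfin (sep (fun z => ∃ c ∈ W, z ∈ clo A g (ins S c)) A) := by
    refine kfin_bUn hW (fun c z => z ∈ clo A g (ins S c)) A fun c hc => ?_
    refine kfin_sub (clo_kfin (g := g) hA (ins_sub hS (hWA c hc)) (kfin_ins hSf c)) _ ?_
    intro z hz
    obtain ⟨_, c', rfl, h⟩ := mem_sep.1 hz
    exact h
  have hb1 : ∃ b1 ∈ A, b1 ∉ clo A g S ∧ ∀ c ∈ W, b1 ∉ clo A g (ins S c) := by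
    by_contra hcon
    push Not at hcon
    refine hA.1 (kfin_sub (kfin_un hcf hU) _ fun z hz => ?_)
    rw [mem_un, mem_sep]
    by_cases hzS : z ∈ clo A g S
    · exact Or.inl hzS
    · exact Or.inr ⟨hz, hcon z hz hzS⟩
  obtain ⟨b1, hb1A, hb1S, hb1W⟩ := hb1
  -- every `c ∈ W` lies in the closure of `S ∪ {b1}`
  have hWb1 : Sub W (clo A g (ins S b1)) := by
    intro c hc
    have hcA := hWA c hc
    have hcS : c ∉ clo A g S := (mem_diff.1 (hWsub c hc)).2
    obtain ⟨d, hd, h1⟩ := (clo_gen hA hS hSf ha hcA ha' hcS).fw hA hb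
    have hid : Sub (idm S) (ins (ins (idm S) (opair a c)) (opair b d)) :=
      sub_trans (sub_ins _ _) (sub_ins _ _)
    have hac : opair a c ∈ ins (ins (idm S) (opair a c)) (opair b d) :=
      mem_ins.2 (Or.inl (mem_ins_self _ _))
    have hbd : opair b d ∈ ins (ins (idm S) (opair a c)) (opair b d) := mem_ins_self _ _
    have hdmS : Sub S (dm (ins (ins (idm S) (opair a c)) (opair b d))) := by
      intro z hz
      exact mem_dm.2 ⟨z, hid _ (mem_idm.2 ⟨hz, rfl⟩)⟩
    have himg : ∀ x y, opair x y ∈ ins (ins (idm S) (opair a c)) (opair b d) →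
        img (ins (ins (idm S) (opair a c)) (opair b d)) (ins S x) = ins S y := by
      intro x y hxy
      refine ext fun z => ?_
      rw [mem_img, mem_ins]
      constructor
      · rintro ⟨w, hw, hwz⟩
        rcases mem_ins.1 hw with hw | rfl
        · left
          rw [h1.inje.1 _ _ _ hwz (hid _ (mem_idm.2 ⟨hw, rfl⟩))]; exact hw
        · right
          exact h1.inje.1 _ _ _ hwz hxy
      · rintro (hz | rfl)
        · exact ⟨z, mem_ins.2 (Or.inl hz), hid _ (mem_idm.2 ⟨hz, rfl⟩)⟩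
        · exact ⟨x, mem_ins_self _ _, hxy⟩
    have hdS : ∀ x y, opair x y ∈ ins (ins (idm S) (opair a c)) (opair b d) →
        Sub (ins S x) (dm (ins (ins (idm S) (opair a c)) (opair b d))) := by
      intro x y hxy z hz
      rcases mem_ins.1 hz with hz | rfl
      · exact hdmS z hz
      · exact mem_dm.2 ⟨y, hxy⟩
    -- `d` is not in the closure of `S ∪ {c}`, but `c` is in the closure of `S ∪ {d}`
    have hdc : d ∉ clo A g (ins S c) := by
      rw [← himg a c hac, ← h1.clo_iff hA (hdS a c hac) hbd]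
      exact hba
    have hcd : c ∈ clo A g (ins S d) := by
      rw [← himg b d hbd, ← h1.clo_iff hA (hdS b d hbd) hac]
      exact hab
    -- move `d` to `b1` over `S ∪ {c}`
    have h2 := clo_gen hA (ins_sub hS hcA) (kfin_ins hSf c) hd hb1A hdc (hb1W c hc)
    have hc2 : opair c c ∈ ins (idm (ins S c)) (opair d b1) :=
      mem_ins.2 (Or.inl (mem_idm.2 ⟨mem_ins_self _ _, rfl⟩))
    have hd2 : opair d b1 ∈ ins (idm (ins S c)) (opair d b1) := mem_ins_self _ _
    have hdm2 : Sub (ins S d) (dm (ins (idm (ins S c)) (opair d b1))) := by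
      rw [dm_ins, dm_idm]
      intro z hz
      rcases mem_ins.1 hz with hz | rfl
      · exact mem_ins.2 (Or.inl (mem_ins.2 (Or.inl hz)))
      · exact mem_ins_self _ _
    have himg2 : img (ins (idm (ins S c)) (opair d b1)) (ins S d) = ins S b1 := by
      have hid2 : ∀ z ∈ S, opair z z ∈ ins (idm (ins S c)) (opair d b1) := fun z hz =>
        mem_ins.2 (Or.inl (mem_idm.2 ⟨mem_ins.2 (Or.inl hz), rfl⟩))
      refine ext fun z => ?_
      rw [mem_img, mem_ins]
      constructor
      · rintro ⟨w, hw, hwz⟩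
        rcases mem_ins.1 hw with hw | rfl
        · left
          rw [h2.inje.1 _ _ _ hwz (hid2 w hw)]; exact hw
        · right
          exact h2.inje.1 _ _ _ hwz hd2
      · rintro (hz | rfl)
        · exact ⟨z, mem_ins.2 (Or.inl hz), hid2 z hz⟩
        · exact ⟨d, mem_ins_self _ _, hd2⟩
    rw [← himg2, ← h2.clo_iff hA hdm2 hc2]
    exact hcd
  -- but the closures of `S ∪ {b}` and `S ∪ {b1}` are in bijection
  apply hemb
  refine (Emb.of_sub hWb1).trans ?_
  have h3 := clo_gen hA hS hSf hb1A hb hb1S hb'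
  obtain ⟨q, hq, hsub, hdm⟩ := h3.extend hA (clo_sub (g := g) (ins S b1))
    (clo_kfin hA (ins_sub hS hb1A) (kfin_ins hSf b1))
  refine ⟨res q (clo A g (ins S b1)), (hq.res _).inje, dm_res_of_sub hdm, ?_⟩
  rw [rn_res, hq.img_clo hA (ins_sub hS hb1A) hdm]
  have : img q (ins S b1) = ins S b := by
    refine ext fun z => ?_
    rw [mem_img, mem_ins]
    constructor
    · rintro ⟨w, hw, hwz⟩
      rcases mem_ins.1 hw with hw | rfl
      · left
        rw [hq.inje.1 _ _ _ hwz (hsub _ (mem_ins.2 (Or.inl (mem_idm.2 ⟨hw, rfl⟩))))]; exact hw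
      · right
        exact hq.inje.1 _ _ _ hwz (hsub _ (mem_ins_self _ _))
    · rintro (hz | rfl)
      · exact ⟨z, mem_ins.2 (Or.inl hz), hsub _ (mem_ins.2 (Or.inl (mem_idm.2 ⟨hz, rfl⟩)))⟩
      · exact ⟨b1, mem_ins_self _ _, hsub _ (mem_ins_self _ _)⟩
  rw [this]
  exact sub_refl _

theorem emb_of_inje {q : V} (hq : Inje q) : Emb (dm q) (rn q) := ⟨q, hq, rfl, sub_refl _⟩

/-- elementary maps between subsets of a closed set extend to permutations of this set -/
theorem El.perm (hA : Amor A) {U : V} (hU : Sub U A) (hUf : Kfin U) (hUc : clo A g U = U)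
    {p : V} (hp : El A g p) (hd : Sub (dm p) U) (hr : Sub (rn p) U) :
    ∃ q, El A g q ∧ Sub p q ∧ dm q = U ∧ rn q = U := by
  have hpU : Sub p (prod U U) := fun z hz => by
    obtain ⟨x, y, rfl⟩ := hp.rel z hz
    exact opair_mem_prod.2 ⟨hd x (mem_dm.2 ⟨y, hz⟩), hr y (mem_rn.2 ⟨x, hz⟩)⟩
  obtain ⟨q, hqU, hq, hpq, hmax⟩ := kfin_max (kfin_prod hUf hUf) (fun q => El A g q) p hpU hp
  have hdq : Sub (dm q) U := fun x hx => by
    obtain ⟨y, hy⟩ := mem_dm.1 hx
    exact (opair_mem_prod.1 (hqU _ hy)).1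
  have hrq : Sub (rn q) U := fun x hx => by
    obtain ⟨y, hy⟩ := mem_rn.1 hx
    exact (opair_mem_prod.1 (hqU _ hy)).2
  have hmax' : ∀ c ∈ U, ∀ d ∈ U, El A g (ins q (opair c d)) → opair c d ∈ q := by
    intro c hc d hd h
    have := hmax (ins q (opair c d)) (fun z hz => by
      rcases mem_ins.1 hz with hz | rfl
      · exact hqU z hz
      · exact opair_mem_prod.2 ⟨hc, hd⟩) (sub_ins _ _) h
    rw [← this]; exact mem_ins_self _ _
  have hdc : Sub (clo A g (dm q)) (dm q) := by
    intro c hc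
    obtain ⟨d, hd, h⟩ := hq.fw hA (clo_sub _ c hc)
    have h1 := h.clo_transport hA (S := dm q) (dm_mono (sub_ins _ _)) (mem_ins_self _ _) hc
    rw [img_ext (sub_ins _ _) h.inje (sub_refl _), img_dm] at h1
    have hcU : c ∈ U := by rw [← hUc]; exact clo_mono hdq c hc
    have hdU : d ∈ U := by rw [← hUc]; exact clo_mono hrq d h1
    exact mem_dm.2 ⟨d, hmax' c hcU d hdU h⟩
  have hrc : Sub (clo A g (rn q)) (rn q) := by
    intro d hd
    obtain ⟨c, hc, h⟩ := hq.bw hA (clo_sub _ d hd)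
    have h1 : c ∈ clo A g (dm q) := by
      rw [h.clo_iff hA (S := dm q) (dm_mono (sub_ins _ _)) (mem_ins_self _ _),
        img_ext (sub_ins _ _) h.inje (sub_refl _), img_dm]
      exact hd
    have hcU : c ∈ U := by rw [← hUc]; exact clo_mono hdq c h1
    have hdU : d ∈ U := by rw [← hUc]; exact clo_mono hrq d hd
    exact mem_rn.2 ⟨c, hmax' c hcU d hdU h⟩
  have hor : dm q = U ∨ rn q = U := by
    by_contra hcon
    push Not at hcon
    have h1 : ∃ c ∈ U, c ∉ dm q := by
      by_contra hcon1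
      push Not at hcon1
      exact hcon.1 (sub_antisymm hdq hcon1)
    have h2 : ∃ d ∈ U, d ∉ rn q := by
      by_contra hcon1
      push Not at hcon1
      exact hcon.2 (sub_antisymm hrq hcon1)
    obtain ⟨c, hc, hc'⟩ := h1
    obtain ⟨d, hd, hd'⟩ := h2
    obtain ⟨d1, hd1, h⟩ := hq.fw hA (hU c hc)
    have h3 : d1 ∉ clo A g (rn q) := by
      intro h4
      apply hc'
      apply hdc
      rw [h.clo_iff hA (S := dm q) (dm_mono (sub_ins _ _)) (mem_ins_self _ _),
        img_ext (sub_ins _ _) h.inje (sub_refl _), img_dm]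
      exact h4
    have h5 := clo_gen hA hq.pinj.rn_sub (kfin_rn hq.pinj.2.1) hd1 (hU d hd) h3
      (fun h => hd' (hrc d h))
    have h6 := h.cmp_ins h5 (by rw [dm_idm])
    rw [cmp_idm_left hq.rel (sub_refl _)] at h6
    exact hc' (mem_dm.2 ⟨d, hmax' c hc d hd h6⟩)
  refine ⟨q, hq, hpq, ?_⟩
  rcases hor with h | h
  · refine ⟨h, eq_of_emb hUf hrq ?_⟩
    have := emb_of_inje hq.inje
    rw [h] at this
    exact this
  · refine ⟨eq_of_emb hUf hdq ?_, h⟩
    have := emb_of_inje hq.inv.inje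
    rw [dm_inv, rn_inv, h] at this
    exact this

end

end Pool.Agent.ZF1
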