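import Pool.Agent.Lib_helper1.ZF.Fin

/-!
Relations and partial maps inside a model of ZF.
-/

set_option linter.unusedSectionVars false
set_option linter.unusedVariables false

universe u

namespace Pool.Agent.ZF1

open FirstOrder Language

section
variable {V : Type u} [Lset.Structure V] [IsZF V]

/-! ### Operations on relations -/

theorem fst_mem_sUn {p x y : V} (h : opair x y ∈ p) : x ∈ sUn (sUn p) :=
  mem_sUn.2 ⟨sing x, mem_sUn.2 ⟨_, h, mem_upair.2 (Or.inl rfl)⟩, mem_sing.2 rfl⟩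

theorem snd_mem_sUn {p x y : V} (h : opair x y ∈ p) : y ∈ sUn (sUn p) :=
  mem_sUn.2 ⟨upair x y, mem_sUn.2 ⟨_, h, mem_upair.2 (Or.inr rfl)⟩, mem_upair.2 (Or.inr rfl)⟩

/-- image of a set under a relation -/
noncomputable def img (p X : V) : V := sep (fun y => ∃ x ∈ X, opair x y ∈ p) (sUn (sUn p))

theorem mem_img {p X y : V} : y ∈ img p X ↔ ∃ x ∈ X, opair x y ∈ p := by
  unfold img
  rw [mem_sep]
  exact ⟨fun h => h.2, fun h => ⟨by obtain ⟨x, _, h⟩ := h; exact snd_mem_sUn h, h⟩⟩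

instance {t s : (ℕ → V) → V} [ht : DF t] [hs : DF s] : DF (fun v => img (t v) (s v)) :=
  DF.mem2 (F := img) (φ := fun z p X => ∃ x ∈ X, opair x z ∈ p) (fun _ _ _ => mem_img)
    inferInstance ht hs

/-- domain -/
noncomputable def dm (p : V) : V := sep (fun x => ∃ y, opair x y ∈ p) (sUn (sUn p))

theorem mem_dm {p x : V} : x ∈ dm p ↔ ∃ y, opair x y ∈ p := by
  unfold dm
  rw [mem_sep]
  exact ⟨fun h => h.2, fun h => ⟨by obtain ⟨y, h⟩ := h; exact fst_mem_sUn h, h⟩⟩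

instance {t : (ℕ → V) → V} [ht : DF t] : DF (fun v => dm (t v)) :=
  DF.mem1 (F := dm) (φ := fun z p => ∃ y, opair z y ∈ p) (fun _ _ => mem_dm) inferInstance ht

/-- range -/
noncomputable def rn (p : V) : V := sep (fun y => ∃ x, opair x y ∈ p) (sUn (sUn p))

theorem mem_rn {p y : V} : y ∈ rn p ↔ ∃ x, opair x y ∈ p := by
  unfold rn
  rw [mem_sep]
  exact ⟨fun h => h.2, fun h => ⟨by obtain ⟨x, h⟩ := h; exact snd_mem_sUn h, h⟩⟩

instance {t : (ℕ → V) → V} [ht : DF t] : DF (fun v => rn (t v)) :=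
  DF.mem1 (F := rn) (φ := fun z p => ∃ y, opair y z ∈ p) (fun _ _ => mem_rn) inferInstance ht

/-- a set of pairs -/
def IsRel (p : V) : Prop := ∀ z ∈ p, ∃ x y, z = opair x y

instance {t : (ℕ → V) → V} [ht : DF t] : DP (fun v => IsRel (t v)) :=
  DP.comp1 (by unfold IsRel; infer_instance) ht

theorem rel_ext {p q : V} (hp : IsRel p) (hq : IsRel q)
    (h : ∀ x y, opair x y ∈ p ↔ opair x y ∈ q) : p = q := by
  refine ext fun z => ⟨fun hz => ?_, fun hz => ?_⟩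
  · obtain ⟨x, y, rfl⟩ := hp z hz
    exact (h x y).1 hz
  · obtain ⟨x, y, rfl⟩ := hq z hz
    exact (h x y).2 hz

/-- inverse -/
noncomputable def inv (p : V) : V := sep (fun z => ∃ x y : V, opair x y ∈ p ∧ z = opair y x)
  (prod (rn p) (dm p))

theorem inv_sub (p : V) : Sub (inv p) (prod (rn p) (dm p)) := fun _ hz => (mem_sep.1 hz).1

theorem mem_inv' {p z : V} : z ∈ inv p ↔ ∃ x y, opair x y ∈ p ∧ z = opair y x := by
  unfold inv
  rw [mem_sep]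
  refine ⟨fun h => h.2, fun h => ⟨?_, h⟩⟩
  obtain ⟨x, y, h, rfl⟩ := h
  exact opair_mem_prod.2 ⟨mem_rn.2 ⟨x, h⟩, mem_dm.2 ⟨y, h⟩⟩

theorem mem_inv {p x y : V} : opair y x ∈ inv p ↔ opair x y ∈ p := by
  rw [mem_inv']
  constructor
  · rintro ⟨x', y', h, e⟩
    obtain ⟨rfl, rfl⟩ := opair_inj.1 e
    exact h
  · intro h
    exact ⟨x, y, h, rfl⟩

theorem isRel_inv (p : V) : IsRel (inv p) := fun z hz => by
  obtain ⟨x, y, _, rfl⟩ := mem_inv'.1 hz
  exact ⟨y, x, rfl⟩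

instance {t : (ℕ → V) → V} [ht : DF t] : DF (fun v => inv (t v)) :=
  DF.mem1 (F := inv) (φ := fun z p => ∃ x y, opair x y ∈ p ∧ z = opair y x) (fun _ _ => mem_inv')
    inferInstance ht

/-- composition: first `p`, then `q` -/
noncomputable def cmp (q p : V) : V :=
  sep (fun z => ∃ x y w : V, opair x y ∈ p ∧ opair y w ∈ q ∧ z = opair x w) (prod (dm p) (rn q))

theorem cmp_sub (q p : V) : Sub (cmp q p) (prod (dm p) (rn q)) := fun _ hz => (mem_sep.1 hz).1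

theorem mem_cmp' {q p z : V} :
    z ∈ cmp q p ↔ ∃ x y w, opair x y ∈ p ∧ opair y w ∈ q ∧ z = opair x w := by
  unfold cmp
  rw [mem_sep]
  refine ⟨fun h => h.2, fun h => ⟨?_, h⟩⟩
  obtain ⟨x, y, w, h1, h2, rfl⟩ := h
  exact opair_mem_prod.2 ⟨mem_dm.2 ⟨y, h1⟩, mem_rn.2 ⟨y, h2⟩⟩

theorem mem_cmp {q p x w : V} : opair x w ∈ cmp q p ↔ ∃ y, opair x y ∈ p ∧ opair y w ∈ q := by
  rw [mem_cmp']
  constructor
  · rintro ⟨x', y, w', h1, h2, e⟩
    obtain ⟨rfl, rfl⟩ := opair_inj.1 e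
    exact ⟨y, h1, h2⟩
  · rintro ⟨y, h1, h2⟩
    exact ⟨x, y, w, h1, h2, rfl⟩

theorem isRel_cmp (q p : V) : IsRel (cmp q p) := fun z hz => by
  obtain ⟨x, y, w, _, _, rfl⟩ := mem_cmp'.1 hz
  exact ⟨x, w, rfl⟩

instance {t s : (ℕ → V) → V} [ht : DF t] [hs : DF s] : DF (fun v => cmp (t v) (s v)) :=
  DF.mem2 (F := cmp) (φ := fun z q p => ∃ x y w, opair x y ∈ p ∧ opair y w ∈ q ∧ z = opair x w)
    (fun _ _ _ => mem_cmp') inferInstance ht hs

/-- identity relation on a set -/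
noncomputable def idm (S : V) : V := sep (fun z => ∃ x ∈ S, z = opair x x) (prod S S)

theorem mem_idm' {S z : V} : z ∈ idm S ↔ ∃ x ∈ S, z = opair x x := by
  unfold idm
  rw [mem_sep]
  refine ⟨fun h => h.2, fun h => ⟨?_, h⟩⟩
  obtain ⟨x, h, rfl⟩ := h
  exact opair_mem_prod.2 ⟨h, h⟩

theorem mem_idm {S x y : V} : opair x y ∈ idm S ↔ x ∈ S ∧ x = y := by
  rw [mem_idm']
  constructor
  · rintro ⟨x', h, e⟩
    obtain ⟨rfl, rfl⟩ := opair_inj.1 e
    exact ⟨h, rfl⟩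
  · rintro ⟨h, rfl⟩
    exact ⟨x, h, rfl⟩

theorem isRel_idm (S : V) : IsRel (idm S) := fun z hz => by
  obtain ⟨x, _, rfl⟩ := mem_idm'.1 hz
  exact ⟨x, x, rfl⟩

instance {t : (ℕ → V) → V} [ht : DF t] : DF (fun v => idm (t v)) :=
  DF.mem1 (F := idm) (φ := fun z S => ∃ x ∈ S, z = opair x x) (fun _ _ => mem_idm')
    inferInstance ht

/-- restriction to a set -/
noncomputable def res (p S : V) : V := sep (fun z => ∃ x ∈ S, ∃ y, z = opair x y) p

theorem mem_res' {p S z : V} : z ∈ res p S ↔ z ∈ p ∧ ∃ x ∈ S, ∃ y, z = opair x y := mem_sep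

theorem mem_res {p S x y : V} : opair x y ∈ res p S ↔ opair x y ∈ p ∧ x ∈ S := by
  rw [mem_res']
  refine and_congr_right fun _ => ⟨?_, fun h => ⟨x, h, y, rfl⟩⟩
  rintro ⟨x', h, y', e⟩
  rw [(opair_inj.1 e).1]; exact h

theorem isRel_res (p S : V) : IsRel (res p S) := fun z hz => by
  obtain ⟨_, x, _, y, rfl⟩ := mem_res'.1 hz
  exact ⟨x, y, rfl⟩

theorem res_sub (p S : V) : Sub (res p S) p := fun z hz => (mem_res'.1 hz).1

instance {t s : (ℕ → V) → V} [ht : DF t] [hs : DF s] : DF (fun v => res (t v) (s v)) :=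
  DF.mem2 (F := res) (φ := fun z p S => z ∈ p ∧ ∃ x ∈ S, ∃ y, z = opair x y)
    (fun _ _ _ => mem_res') inferInstance ht hs

/-! ### Partial injections -/

/-- `p` is functional and injective -/
def Inje (p : V) : Prop :=
  (∀ x y y', opair x y ∈ p → opair x y' ∈ p → y = y') ∧
  (∀ x x' y, opair x y ∈ p → opair x' y ∈ p → x = x')

instance {t : (ℕ → V) → V} [ht : DF t] : DP (fun v => Inje (t v)) :=
  DP.comp1 (by unfold Inje; infer_instance) ht

theorem Inje.inv {p : V} (h : Inje p) : Inje (inv p) :=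
  ⟨fun x y y' h1 h2 => h.2 _ _ _ (mem_inv.1 h1) (mem_inv.1 h2),
    fun x x' y h1 h2 => h.1 _ _ _ (mem_inv.1 h1) (mem_inv.1 h2)⟩

theorem Inje.cmp {p q : V} (hq : Inje q) (hp : Inje p) : Inje (cmp q p) := by
  constructor
  · intro x y y' h1 h2
    obtain ⟨u, hu1, hu2⟩ := mem_cmp.1 h1
    obtain ⟨v, hv1, hv2⟩ := mem_cmp.1 h2
    have := hp.1 _ _ _ hu1 hv1
    subst this
    exact hq.1 _ _ _ hu2 hv2
  · intro x x' y h1 h2
    obtain ⟨u, hu1, hu2⟩ := mem_cmp.1 h1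
    obtain ⟨v, hv1, hv2⟩ := mem_cmp.1 h2
    have := hq.2 _ _ _ hu2 hv2
    subst this
    exact hp.2 _ _ _ hu1 hv1

theorem Inje.mono {p q : V} (hq : Inje q) (h : Sub p q) : Inje p :=
  ⟨fun x y y' h1 h2 => hq.1 _ _ _ (h _ h1) (h _ h2),
    fun x x' y h1 h2 => hq.2 _ _ _ (h _ h1) (h _ h2)⟩

theorem inje_idm (S : V) : Inje (idm S) := by
  constructor
  · intro x y y' h1 h2
    rw [← (mem_idm.1 h1).2, (mem_idm.1 h2).2]
  · intro x x' y h1 h2
    rw [(mem_idm.1 h1).2, (mem_idm.1 h2).2]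

theorem Inje.ins {p a b : V} (h : Inje p) (ha : a ∉ dm p) (hb : b ∉ rn p) :
    Inje (ins p (opair a b)) := by
  constructor
  · intro x y y' h1 h2
    rcases mem_ins.1 h1 with k1 | k1 <;> rcases mem_ins.1 h2 with k2 | k2
    · exact h.1 _ _ _ k1 k2
    · rw [opair_inj] at k2
      exact absurd (mem_dm.2 ⟨_, k1⟩) (by rw [k2.1]; exact ha)
    · rw [opair_inj] at k1
      exact absurd (mem_dm.2 ⟨_, k2⟩) (by rw [k1.1]; exact ha)
    · rw [(opair_inj.1 k1).2, (opair_inj.1 k2).2]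
  · intro x x' y h1 h2
    rcases mem_ins.1 h1 with k1 | k1 <;> rcases mem_ins.1 h2 with k2 | k2
    · exact h.2 _ _ _ k1 k2
    · rw [opair_inj] at k2
      exact absurd (mem_rn.2 ⟨_, k1⟩) (by rw [k2.2]; exact hb)
    · rw [opair_inj] at k1
      exact absurd (mem_rn.2 ⟨_, k2⟩) (by rw [k1.2]; exact hb)
    · rw [(opair_inj.1 k1).1, (opair_inj.1 k2).1]

/-- finite partial injection of `A` -/
def PInj (A p : V) : Prop := Sub p (prod A A) ∧ Kfin p ∧ Inje p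

instance {t s : (ℕ → V) → V} [ht : DF t] [hs : DF s] : DP (fun v => PInj (t v) (s v)) :=
  DP.comp2 (by unfold PInj; infer_instance) ht hs

theorem isRel_of_sub_prod {A B p : V} (h : Sub p (prod A B)) : IsRel p := fun z hz => by
  obtain ⟨x, _, y, _, e⟩ := mem_prod.1 (h z hz)
  exact ⟨x, y, e⟩

theorem PInj.rel {A p : V} (h : PInj A p) : IsRel p := isRel_of_sub_prod h.1

theorem PInj.dm_sub {A p : V} (h : PInj A p) : Sub (dm p) A := fun x hx => by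
  obtain ⟨y, hy⟩ := mem_dm.1 hx
  exact (opair_mem_prod.1 (h.1 _ hy)).1

theorem PInj.rn_sub {A p : V} (h : PInj A p) : Sub (rn p) A := fun x hx => by
  obtain ⟨y, hy⟩ := mem_rn.1 hx
  exact (opair_mem_prod.1 (h.1 _ hy)).2

theorem kfin_dm {p : V} (h : Kfin p) : Kfin (dm p) := by
  refine kfin_image h (fun z x => ∃ y, z = opair x y) ?_ _ ?_
  · rintro z _ x x' ⟨y, e⟩ ⟨y', e'⟩
    exact (opair_inj.1 (e.symm.trans e')).1
  · intro x hx
    obtain ⟨y, hy⟩ := mem_dm.1 hx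
    exact ⟨_, hy, y, rfl⟩

theorem kfin_rn {p : V} (h : Kfin p) : Kfin (rn p) := by
  refine kfin_image h (fun z x => ∃ y, z = opair y x) ?_ _ ?_
  · rintro z _ x x' ⟨y, e⟩ ⟨y', e'⟩
    exact (opair_inj.1 (e.symm.trans e')).2
  · intro x hx
    obtain ⟨y, hy⟩ := mem_rn.1 hx
    exact ⟨_, hy, y, rfl⟩

theorem PInj.inv {A p : V} (h : PInj A p) : PInj A (inv p) := by
  refine ⟨?_, ?_, h.2.2.inv⟩
  · intro z hz
    obtain ⟨x, y, hxy, rfl⟩ := mem_inv'.1 hz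
    have := opair_mem_prod.1 (h.1 _ hxy)
    exact opair_mem_prod.2 ⟨this.2, this.1⟩
  · exact kfin_sub (kfin_prod (kfin_rn h.2.1) (kfin_dm h.2.1)) _ (inv_sub p)

theorem PInj.cmp {A p q : V} (hq : PInj A q) (hp : PInj A p) : PInj A (cmp q p) := by
  refine ⟨?_, ?_, hq.2.2.cmp hp.2.2⟩
  · intro z hz
    obtain ⟨x, y, w, h1, h2, rfl⟩ := mem_cmp'.1 hz
    exact opair_mem_prod.2 ⟨(opair_mem_prod.1 (hp.1 _ h1)).1, (opair_mem_prod.1 (hq.1 _ h2)).2⟩
  · exact kfin_sub (kfin_prod (kfin_dm hp.2.1) (kfin_rn hq.2.1)) _ (cmp_sub q p)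

theorem PInj.mono {A p q : V} (hq : PInj A q) (h : Sub p q) : PInj A p :=
  ⟨sub_trans h hq.1, kfin_sub hq.2.1 _ h, hq.2.2.mono h⟩

theorem PInj.res {A p : V} (h : PInj A p) (S : V) : PInj A (res p S) := h.mono (res_sub p S)

theorem pinj_idm {A S : V} (hS : Sub S A) (hf : Kfin S) : PInj A (idm S) := by
  refine ⟨?_, ?_, inje_idm S⟩
  · intro z hz
    obtain ⟨x, hx, rfl⟩ := mem_idm'.1 hz
    exact opair_mem_prod.2 ⟨hS x hx, hS x hx⟩
  · exact kfin_sub (kfin_prod hf hf) _ fun z hz => (mem_sep.1 hz).1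

theorem inv_inv {p : V} (h : IsRel p) : inv (inv p) = p :=
  rel_ext (isRel_inv _) h fun x y => by rw [mem_inv, mem_inv]

theorem dm_inv (p : V) : dm (inv p) = rn p := ext fun x => by
  rw [mem_dm, mem_rn]
  exact exists_congr fun y => mem_inv

theorem rn_inv (p : V) : rn (inv p) = dm p := ext fun x => by
  rw [mem_dm, mem_rn]
  exact exists_congr fun y => mem_inv

theorem dm_idm (S : V) : dm (idm S) = S := ext fun x => by
  rw [mem_dm]
  exact ⟨fun ⟨y, h⟩ => (mem_idm.1 h).1, fun h => ⟨x, mem_idm.2 ⟨h, rfl⟩⟩⟩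

theorem rn_idm (S : V) : rn (idm S) = S := ext fun x => by
  rw [mem_rn]
  exact ⟨fun ⟨y, h⟩ => (mem_idm.1 h).2 ▸ (mem_idm.1 h).1, fun h => ⟨x, mem_idm.2 ⟨h, rfl⟩⟩⟩

theorem dm_ins (p a b : V) : dm (ins p (opair a b)) = ins (dm p) a := ext fun x => by
  rw [mem_dm, mem_ins, mem_dm]
  constructor
  · rintro ⟨y, h⟩
    rcases mem_ins.1 h with h | h
    · exact Or.inl ⟨y, h⟩
    · exact Or.inr (opair_inj.1 h).1
  · rintro (⟨y, h⟩ | rfl)
    · exact ⟨y, mem_ins.2 (Or.inl h)⟩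
    · exact ⟨b, mem_ins_self _ _⟩

theorem rn_ins (p a b : V) : rn (ins p (opair a b)) = ins (rn p) b := ext fun x => by
  rw [mem_rn, mem_ins, mem_rn]
  constructor
  · rintro ⟨y, h⟩
    rcases mem_ins.1 h with h | h
    · exact Or.inl ⟨y, h⟩
    · exact Or.inr (opair_inj.1 h).2
  · rintro (⟨y, h⟩ | rfl)
    · exact ⟨y, mem_ins.2 (Or.inl h)⟩
    · exact ⟨a, mem_ins_self _ _⟩

theorem dm_cmp {p q : V} (h : Sub (rn p) (dm q)) : dm (cmp q p) = dm p := ext fun x => by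
  rw [mem_dm, mem_dm]
  constructor
  · rintro ⟨w, hw⟩
    obtain ⟨y, hy, _⟩ := mem_cmp.1 hw
    exact ⟨y, hy⟩
  · rintro ⟨y, hy⟩
    obtain ⟨w, hw⟩ := mem_dm.1 (h y (mem_rn.2 ⟨x, hy⟩))
    exact ⟨w, mem_cmp.2 ⟨y, hy, hw⟩⟩

theorem rn_cmp {p q : V} (h : Sub (dm q) (rn p)) : rn (cmp q p) = rn q := ext fun w => by
  rw [mem_rn, mem_rn]
  constructor
  · rintro ⟨x, hx⟩
    obtain ⟨y, _, hy⟩ := mem_cmp.1 hx
    exact ⟨y, hy⟩
  · rintro ⟨y, hy⟩
    obtain ⟨x, hx⟩ := mem_rn.1 (h y (mem_dm.2 ⟨w, hy⟩))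
    exact ⟨x, mem_cmp.2 ⟨y, hx, hy⟩⟩

theorem inv_idm (S : V) : inv (idm S) = idm S :=
  rel_ext (isRel_inv _) (isRel_idm _) fun x y => by
    rw [mem_inv, mem_idm, mem_idm]
    constructor <;> (rintro ⟨h, rfl⟩; exact ⟨h, rfl⟩)

theorem inv_ins (p a b : V) : inv (ins p (opair a b)) = ins (inv p) (opair b a) := by
  refine ext fun z => ?_
  rw [mem_inv', mem_ins, mem_inv']
  constructor
  · rintro ⟨x, y, h, rfl⟩
    rcases mem_ins.1 h with h | h
    · exact Or.inl ⟨x, y, h, rfl⟩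
    · obtain ⟨rfl, rfl⟩ := opair_inj.1 h
      exact Or.inr rfl
  · rintro (⟨x, y, h, rfl⟩ | rfl)
    · exact ⟨x, y, mem_ins.2 (Or.inl h), rfl⟩
    · exact ⟨a, b, mem_ins_self _ _, rfl⟩

theorem inv_un (p q : V) : inv (un p q) = un (inv p) (inv q) := by
  refine ext fun z => ?_
  simp only [mem_inv', mem_un]
  constructor
  · rintro ⟨x, y, h | h, rfl⟩
    · exact Or.inl ⟨x, y, h, rfl⟩
    · exact Or.inr ⟨x, y, h, rfl⟩
  · rintro (⟨x, y, h, rfl⟩ | ⟨x, y, h, rfl⟩)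
    · exact ⟨x, y, Or.inl h, rfl⟩
    · exact ⟨x, y, Or.inr h, rfl⟩

theorem img_mono {p X Y : V} (h : Sub X Y) : Sub (img p X) (img p Y) := fun y hy => by
  obtain ⟨x, hx, hxy⟩ := mem_img.1 hy
  exact mem_img.2 ⟨x, h x hx, hxy⟩

theorem img_sub_rn (p X : V) : Sub (img p X) (rn p) := fun y hy => by
  obtain ⟨x, hx, hxy⟩ := mem_img.1 hy
  exact mem_rn.2 ⟨x, hxy⟩

theorem img_cmp (q p X : V) : img (cmp q p) X = img q (img p X) := ext fun w => by
  rw [mem_img, mem_img]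
  constructor
  · rintro ⟨x, hx, h⟩
    obtain ⟨y, h1, h2⟩ := mem_cmp.1 h
    exact ⟨y, mem_img.2 ⟨x, hx, h1⟩, h2⟩
  · rintro ⟨y, hy, h⟩
    obtain ⟨x, hx, h1⟩ := mem_img.1 hy
    exact ⟨x, hx, mem_cmp.2 ⟨y, h1, h⟩⟩

theorem img_idm {S X : V} (h : Sub X S) : img (idm S) X = X := ext fun w => by
  rw [mem_img]
  constructor
  · rintro ⟨x, hx, h⟩
    rw [← (mem_idm.1 h).2]; exact hx
  · intro hw
    exact ⟨w, hw, mem_idm.2 ⟨h w hw, rfl⟩⟩

theorem img_inv_img {p X : V} (hp : Inje p) (h : Sub X (dm p)) : img (inv p) (img p X) = X :=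
  ext fun w => by
    rw [mem_img]
    constructor
    · rintro ⟨y, hy, h1⟩
      obtain ⟨x, hx, h2⟩ := mem_img.1 hy
      rw [mem_inv] at h1
      rw [hp.2 _ _ _ h1 h2]; exact hx
    · intro hw
      obtain ⟨y, hy⟩ := mem_dm.1 (h w hw)
      exact ⟨y, mem_img.2 ⟨w, hw, hy⟩, mem_inv.2 hy⟩

theorem img_res {p S X : V} (h : Sub X S) : img (res p S) X = img p X := ext fun w => by
  rw [mem_img, mem_img]
  constructor
  · rintro ⟨x, hx, h1⟩
    exact ⟨x, hx, (mem_res.1 h1).1⟩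
  · rintro ⟨x, hx, h1⟩
    exact ⟨x, hx, mem_res.2 ⟨h1, h x hx⟩⟩

/-- a larger injection with the same domain part -/
theorem img_ext {p q X : V} (hpq : Sub p q) (hq : Inje q) (h : Sub X (dm p)) :
    img q X = img p X := ext fun w => by
  rw [mem_img, mem_img]
  constructor
  · rintro ⟨x, hx, h1⟩
    obtain ⟨y, hy⟩ := mem_dm.1 (h x hx)
    have := hq.1 _ _ _ h1 (hpq _ hy)
    subst this
    exact ⟨x, hx, hy⟩
  · rintro ⟨x, hx, h1⟩
    exact ⟨x, hx, hpq _ h1⟩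

theorem kfin_img {p X : V} (hp : Kfin p) : Kfin (img p X) := kfin_sub (kfin_rn hp) _ (img_sub_rn p X)

theorem dm_mono {p q : V} (h : Sub p q) : Sub (dm p) (dm q) := fun x hx => by
  obtain ⟨y, hy⟩ := mem_dm.1 hx
  exact mem_dm.2 ⟨y, h _ hy⟩

theorem rn_mono {p q : V} (h : Sub p q) : Sub (rn p) (rn q) := fun x hx => by
  obtain ⟨y, hy⟩ := mem_rn.1 hx
  exact mem_rn.2 ⟨y, h _ hy⟩

theorem dm_un (p q : V) : dm (un p q) = un (dm p) (dm q) := ext fun x => by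
  simp only [mem_dm, mem_un]
  constructor
  · rintro ⟨y, h | h⟩
    · exact Or.inl ⟨y, h⟩
    · exact Or.inr ⟨y, h⟩
  · rintro (⟨y, h⟩ | ⟨y, h⟩)
    · exact ⟨y, Or.inl h⟩
    · exact ⟨y, Or.inr h⟩

theorem rn_un (p q : V) : rn (un p q) = un (rn p) (rn q) := ext fun x => by
  simp only [mem_rn, mem_un]
  constructor
  · rintro ⟨y, h | h⟩
    · exact Or.inl ⟨y, h⟩
    · exact Or.inr ⟨y, h⟩
  · rintro (⟨y, h⟩ | ⟨y, h⟩)
    · exact ⟨y, Or.inl h⟩
    · exact ⟨y, Or.inr h⟩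

theorem dm_res (p S : V) : dm (res p S) = inter (dm p) S := ext fun x => by
  rw [mem_dm, mem_inter, mem_dm]
  constructor
  · rintro ⟨y, h⟩
    exact ⟨⟨y, (mem_res.1 h).1⟩, (mem_res.1 h).2⟩
  · rintro ⟨⟨y, h⟩, hS⟩
    exact ⟨y, mem_res.2 ⟨h, hS⟩⟩

theorem dm_res_of_sub {p S : V} (h : Sub S (dm p)) : dm (res p S) = S := ext fun x => by
  rw [dm_res, mem_inter]
  exact ⟨fun h => h.2, fun hx => ⟨h x hx, hx⟩⟩

theorem rn_res (p S : V) : rn (res p S) = img p S := ext fun y => by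
  rw [mem_rn, mem_img]
  constructor
  · rintro ⟨x, h⟩
    exact ⟨x, (mem_res.1 h).2, (mem_res.1 h).1⟩
  · rintro ⟨x, hx, h⟩
    exact ⟨x, mem_res.2 ⟨h, hx⟩⟩

theorem img_dm (p : V) : img p (dm p) = rn p := ext fun y => by
  rw [mem_rn, mem_img]
  constructor
  · rintro ⟨x, _, h⟩; exact ⟨x, h⟩
  · rintro ⟨x, h⟩; exact ⟨x, mem_dm.2 ⟨y, h⟩, h⟩

theorem img_un (p X Y : V) : img p (un X Y) = un (img p X) (img p Y) := ext fun y => by
  simp only [mem_img, mem_un]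
  constructor
  · rintro ⟨x, h | h, h'⟩
    · exact Or.inl ⟨x, h, h'⟩
    · exact Or.inr ⟨x, h, h'⟩
  · rintro (⟨x, h, h'⟩ | ⟨x, h, h'⟩)
    · exact ⟨x, Or.inl h, h'⟩
    · exact ⟨x, Or.inr h, h'⟩

/-! ### Embeddings -/

/-- there is an injection of `X` into `Y` -/
def Emb (X Y : V) : Prop := ∃ f : V, Inje f ∧ dm f = X ∧ Sub (rn f) Y

instance {t s : (ℕ → V) → V} [ht : DF t] [hs : DF s] : DP (fun v => Emb (t v) (s v)) :=
  DP.comp2 (by unfold Emb; infer_instance) ht hs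

theorem Emb.of_sub {X Y : V} (h : Sub X Y) : Emb X Y :=
  ⟨idm X, inje_idm X, dm_idm X, by rw [rn_idm]; exact h⟩

theorem Emb.trans {X Y Z : V} (h1 : Emb X Y) (h2 : Emb Y Z) : Emb X Z := by
  obtain ⟨f, hf, hfd, hfr⟩ := h1
  obtain ⟨g, hg, hgd, hgr⟩ := h2
  refine ⟨cmp g f, hg.cmp hf, ?_, ?_⟩
  · rw [dm_cmp, hfd]; rw [hgd]; exact hfr
  · intro z hz
    obtain ⟨x, hx⟩ := mem_rn.1 hz
    obtain ⟨y, _, hy⟩ := mem_cmp.1 hx
    exact hgr z (mem_rn.2 ⟨y, hy⟩)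

theorem Emb.ins {X Y : V} (h : Emb X Y) {b : V} (a : V) (ha : a ∉ X) (hb : b ∉ Y) :
    Emb (ins X a) (ins Y b) := by
  obtain ⟨f, hf, hfd, hfr⟩ := h
  refine ⟨ZF1.ins f (opair a b), hf.ins (by rw [hfd]; exact ha) (fun h => hb (hfr b h)), ?_, ?_⟩
  · rw [dm_ins, hfd]
  · rw [rn_ins]
    intro z hz
    rcases mem_ins.1 hz with hz | rfl
    · exact mem_ins.2 (Or.inl (hfr z hz))
    · exact mem_ins_self _ _

theorem Emb.of_ins {X Y a b : V} (ha : a ∉ X) (h : Emb (ZF1.ins X a) (ZF1.ins Y b)) : Emb X Y := by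
  obtain ⟨f, hf, hfd, hfr⟩ := h
  -- values different from `b` are kept, the point with value `b` gets the value of `a`
  obtain ⟨c, hc⟩ := mem_dm.1 (by rw [hfd]; exact mem_ins_self X a : a ∈ dm f)
  let P : V → V → Prop := fun x y => (opair x y ∈ f ∧ y ≠ b) ∨ (opair x b ∈ f ∧ y = c)
  let g : V := sep (fun z => ∃ x y, z = opair x y ∧ ((opair x y ∈ f ∧ y ≠ b) ∨
    (opair x b ∈ f ∧ y = c))) (prod X (rn f))
  have hg : ∀ x y, opair x y ∈ g ↔ x ∈ X ∧ P x y := by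
    intro x y
    simp only [g, mem_sep, opair_mem_prod, P]
    constructor
    · rintro ⟨⟨hx, _⟩, x', y', e, h⟩
      obtain ⟨rfl, rfl⟩ := opair_inj.1 e
      exact ⟨hx, h⟩
    · rintro ⟨hx, h⟩
      refine ⟨⟨hx, ?_⟩, x, y, rfl, h⟩
      rcases h with ⟨h, _⟩ | ⟨_, rfl⟩
      · exact mem_rn.2 ⟨x, h⟩
      · exact mem_rn.2 ⟨a, hc⟩
  refine ⟨g, ⟨?_, ?_⟩, ?_, ?_⟩
  · intro x y y' g1 g2
    obtain ⟨hx, k1⟩ := (hg x y).1 g1
    obtain ⟨_, k2⟩ := (hg x y').1 g2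
    rcases k1 with ⟨k1, k1'⟩ | ⟨k1, k1'⟩ <;> rcases k2 with ⟨k2, k2'⟩ | ⟨k2, k2'⟩
    · exact hf.1 _ _ _ k1 k2
    · exact absurd (hf.1 _ _ _ k1 k2) k1'
    · exact absurd (hf.1 _ _ _ k2 k1) k2'
    · rw [k1', k2']
  · intro x x' y g1 g2
    obtain ⟨hx, k1⟩ := (hg x y).1 g1
    obtain ⟨hx', k2⟩ := (hg x' y).1 g2
    rcases k1 with ⟨k1, k1'⟩ | ⟨k1, k1'⟩ <;> rcases k2 with ⟨k2, k2'⟩ | ⟨k2, k2'⟩
    · exact hf.2 _ _ _ k1 k2
    · rw [k2'] at k1
      rw [hf.2 _ _ _ k1 hc] at hx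
      exact absurd hx ha
    · rw [k1'] at k2
      rw [hf.2 _ _ _ k2 hc] at hx'
      exact absurd hx' ha
    · exact hf.2 _ _ _ k1 k2
  · refine ext fun x => ?_
    rw [mem_dm]
    constructor
    · rintro ⟨y, h⟩; exact ((hg x y).1 h).1
    · intro hx
      obtain ⟨y, hy⟩ := mem_dm.1 (by rw [hfd]; exact mem_ins.2 (Or.inl hx) : x ∈ dm f)
      by_cases hyb : y = b
      · rw [hyb] at hy
        exact ⟨c, (hg x c).2 ⟨hx, Or.inr ⟨hy, rfl⟩⟩⟩
      · exact ⟨y, (hg x y).2 ⟨hx, Or.inl ⟨hy, hyb⟩⟩⟩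
  · intro y hy
    obtain ⟨x, g1⟩ := mem_rn.1 hy
    obtain ⟨hx, k⟩ := (hg x y).1 g1
    rcases k with ⟨k, k'⟩ | ⟨k, k'⟩
    · rcases mem_ins.1 (hfr y (mem_rn.2 ⟨x, k⟩)) with h1 | h1
      · exact h1
      · exact absurd h1 k'
    · rw [k']
      rcases mem_ins.1 (hfr c (mem_rn.2 ⟨a, hc⟩)) with h1 | h1
      · exact h1
      · rw [← h1] at k
        rw [hf.2 _ _ _ k hc] at hx
        exact absurd hx ha

theorem not_emb_emp {x y : V} (h : x ∈ y) : ¬ Emb y emp := by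
  rintro ⟨f, _, hd, hr⟩
  obtain ⟨z, hz⟩ := mem_dm.1 (by rw [hd]; exact h : x ∈ dm f)
  exact not_mem_emp z (hr z (mem_rn.2 ⟨x, hz⟩))

/-- finite sets are Dedekind finite -/
theorem not_emb_ins {X : V} (hX : Kfin X) : ∀ a, a ∉ X → ¬ Emb (ins X a) X := by
  refine kfin_ind (Q := fun X => ∀ a, a ∉ X → ¬ Emb (ins X a) X) hX ?_ ?_
  · intro a _ h
    exact not_emb_emp (mem_ins_self emp a) h
  · intro X b _ ih hb _ _ a ha h
    have hab : a ≠ b := fun e => ha (e ▸ mem_ins_self X b)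
    have e : ins (ins X b) a = ins (ins X a) b := ext fun z => by simp only [mem_ins]; tauto
    rw [e] at h
    have hb' : b ∉ ins X a := fun h' => (mem_ins.1 h').elim hb (fun h => hab h.symm)
    exact ih a (fun h' => ha (mem_ins.2 (Or.inl h'))) (Emb.of_ins hb' h)

theorem eq_of_emb {X Y : V} (hX : Kfin X) (hYX : Sub Y X) (h : Emb X Y) : Y = X := by
  refine sub_antisymm hYX fun a ha => ?_
  by_contra haY
  have e : X = ins (diff X (sing a)) a := ext fun z => by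
    rw [mem_ins, mem_diff, mem_sing]
    constructor
    · intro hz
      by_cases hza : z = a
      · exact Or.inr hza
      · exact Or.inl ⟨hz, hza⟩
    · rintro (⟨h, _⟩ | rfl)
      · exact h
      · exact ha
  have h1 : Emb (ins (diff X (sing a)) a) (diff X (sing a)) := by
    rw [← e]
    refine h.trans (Emb.of_sub fun z hz => ?_)
    rw [mem_diff, mem_sing]
    exact ⟨hYX z hz, fun h => haY (h ▸ hz)⟩
  exact not_emb_ins (kfin_sub hX _ fun z hz => (mem_diff.1 hz).1) a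
    (fun h => (mem_diff.1 h).2 (mem_sing.2 rfl)) h1

/-- an infinite set has finite subsets which do not embed in a given finite set -/
theorem exists_not_emb {X : V} (hX : ¬ Kfin X) {C : V} (hC : Kfin C) :
    ∃ W, Kfin W ∧ Sub W X ∧ ¬ Emb W C := by
  have hex : ∀ W, Kfin W → Sub W X → ∃ x ∈ X, x ∉ W := by
    intro W hW hWX
    by_contra hcon
    push Not at hcon
    exact hX (kfin_sub hW X hcon)
  refine kfin_ind (Q := fun C => ∃ W, Kfin W ∧ Sub W X ∧ ¬ Emb W C) hC ?_ ?_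
  · obtain ⟨x, hx, _⟩ := hex emp kfin_emp (emp_sub X)
    exact ⟨ins emp x, kfin_ins kfin_emp x, fun z hz => by
      rcases mem_ins.1 hz with hz | rfl
      · exact absurd hz (not_mem_emp z)
      · exact hx, not_emb_emp (mem_ins_self emp x)⟩
  · rintro C c _ ⟨W, hW, hWX, h⟩ hc _ _
    obtain ⟨x, hx, hxW⟩ := hex W hW hWX
    exact ⟨ins W x, kfin_ins hW x, fun z hz => by
      rcases mem_ins.1 hz with hz | rfl
      · exact hWX z hz
      · exact hx, fun h' => h (Emb.of_ins hxW h')⟩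

/-- a relation choosing preimages gives an embedding -/
theorem emb_of_surj {Z : V} (hZ : Kfin Z) (Y : V) (P : V → V → Prop)
    [hP : DP (fun v => P (v 0) (v 1))] (hfun : ∀ y z z', P y z → P y z' → z = z')
    (hs : ∀ z ∈ Z, ∃ y ∈ Y, P y z) : Emb Z Y := by
  have hP' : ∀ (t s : (ℕ → V) → V) [DF t] [DF s], DP (fun v => P (t v) (s v)) :=
    fun t s _ _ => DP.comp2 hP inferInstance inferInstance
  have key : (∃ f : V, Inje f ∧ dm f = Z ∧ Sub (rn f) Y ∧ ∀ z y, opair z y ∈ f → P y z) := by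
    refine kfin_ind (Q := fun Z => ∃ f : V, Inje f ∧ dm f = Z ∧ Sub (rn f) Y ∧
      ∀ z y, opair z y ∈ f → P y z) hZ ?_ ?_
    · refine ⟨emp, ⟨fun x y y' h => absurd h (not_mem_emp _),
        fun x x' y h => absurd h (not_mem_emp _)⟩, ?_, ?_, fun z y h => absurd h (not_mem_emp _)⟩
      · refine ext fun x => ⟨fun h => ?_, fun h => absurd h (not_mem_emp x)⟩
        obtain ⟨y, hy⟩ := mem_dm.1 h
        exact absurd hy (not_mem_emp _)
      · intro y hy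
        obtain ⟨x, hx⟩ := mem_rn.1 hy
        exact absurd hx (not_mem_emp _)
    · rintro W a _ ⟨f, hf, hfd, hfr, hfP⟩ haW haZ _
      obtain ⟨y, hy, hya⟩ := hs a haZ
      refine ⟨ins f (opair a y), hf.ins (by rw [hfd]; exact haW) ?_, by rw [dm_ins, hfd], ?_, ?_⟩
      · intro h
        obtain ⟨x, hx⟩ := mem_rn.1 h
        have := hfun _ _ _ (hfP x y hx) hya
        subst this
        exact haW (by rw [← hfd]; exact mem_dm.2 ⟨y, hx⟩)
      · rw [rn_ins]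
        intro z hz
        rcases mem_ins.1 hz with hz | rfl
        · exact hfr z hz
        · exact hy
      · intro z w h
        rcases mem_ins.1 h with h | h
        · exact hfP z w h
        · obtain ⟨rfl, rfl⟩ := opair_inj.1 h
          exact hya
  obtain ⟨f, h1, h2, h3, _⟩ := key
  exact ⟨f, h1, h2, h3⟩

end

end Pool.Agent.ZF1
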