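import Pool.Agent.Lib_helper1.ZF.Basic

/-!
Models of ZF satisfy the semantic form of the axioms (adapted from the development of helper12).
-/

set_option linter.unusedSectionVars false
set_option linter.unusedVariables false

universe u

namespace Pool.Agent.ZF1

open FirstOrder Language

section
variable {V : Type u} [Lset.Structure V]

theorem exists_param_nat {α : Type u} (φ : Lset.Formula α) (m : ℕ)
    (h : α → Fin m ⊕ V) (c0 : V) :
    ∃ (v : ℕ → V) (ψ : Lset.Formula ℕ), ∀ xs : Fin m → V,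
      ψ.Realize (fun k => if hk : k < m then xs ⟨k, hk⟩ else v k) ↔
      φ.Realize (fun a => Sum.elim xs id (h a)) := by
  classical
  let s := φ.freeVarFinset
  let e : s ≃ Fin s.card := s.equivFin
  let f : φ.freeVarFinset → ℕ := fun a =>
    Sum.elim (fun j : Fin m => (j : ℕ)) (fun _ => m + (e a : ℕ)) (h a.1)
  let v : ℕ → V := fun k =>
    if hk : k - m < s.card then
      Sum.elim (fun _ => c0) id (h (e.symm ⟨k - m, hk⟩).1) else c0
  refine ⟨v, BoundedFormula.restrictFreeVar φ f, fun xs => ?_⟩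
  unfold Formula.Realize
  rw [BoundedFormula.realize_restrictFreeVar (fun a => Sum.elim xs id (h a))]
  rintro ⟨a, ha⟩
  rcases hh : h a with j | c
  · have hf : f ⟨a, ha⟩ = (j : ℕ) := by simp [f, hh]
    rw [hf]
    simp
  · have hf : f ⟨a, ha⟩ = m + (e ⟨a, ha⟩ : ℕ) := by simp [f, hh]
    rw [hf]
    have h1 : m + (e ⟨a, ha⟩ : ℕ) - m = (e ⟨a, ha⟩ : ℕ) := by omega
    have h2 : m + (e ⟨a, ha⟩ : ℕ) - m < s.card := by rw [h1]; exact (e ⟨a, ha⟩).2
    have h3 : (⟨m + (e ⟨a, ha⟩ : ℕ) - m, h2⟩ : Fin s.card) = e ⟨a, ha⟩ := Fin.ext h1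
    change (if hk : m + (e ⟨a, ha⟩ : ℕ) < m then xs ⟨_, hk⟩ else v (m + (e ⟨a, ha⟩ : ℕ))) = c
    rw [dif_neg (by omega)]
    dsimp only [v]
    rw [dif_pos h2, h3, Equiv.symm_apply_apply, hh]
    rfl

theorem isZF_of_modelsZF (h : ModelsZF V) : IsZF V := by
  obtain ⟨h1, h2, h3, h4, h5, h6, h7, h8⟩ := h
  have c0 : V := h6.choose
  refine ⟨h1, h2, h3, h4, h5, h6, fun Q hQ a => ?_, fun R hR a ha => ?_⟩
  · obtain ⟨φ, hφ⟩ := hQ.out
    obtain ⟨v, ψ, hψ⟩ := exists_param_nat φ 1 (Sum.map (fun _ => 0) id) c0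
    obtain ⟨b, hb⟩ := h7 ψ v a
    refine ⟨b, fun z => ?_⟩
    rw [hb z]
    refine and_congr_right fun _ => ?_
    have e1 : (fun k => if hk : k < 1 then (fun _ : Fin 1 => z) ⟨k, hk⟩ else v k) =
        Function.update v 0 z := by
      funext k
      rcases k with _ | k
      · simp
      · simp
    have h1 := hψ (fun _ => z)
    rw [e1] at h1
    rw [h1]
    have e2 : (fun a : ℕ ⊕ V => Sum.elim (fun _ : Fin 1 => z) id
        (Sum.map (fun _ : ℕ => (0 : Fin 1)) id a)) = Sum.elim (fun _ => z) id := by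
      funext a
      rcases a with a | a <;> rfl
    rw [e2]
    exact hφ (fun _ => z)
  · obtain ⟨φ, hφ⟩ := hR.out
    obtain ⟨v, ψ, hψ⟩ := exists_param_nat φ 2 (Sum.map (fun i => if i = 0 then 0 else 1) id) c0
    have key : ∀ x y : V, ψ.Realize (Function.update (Function.update v 0 x) 1 y) ↔ R x y := by
      intro x y
      have e1 : (fun k => if hk : k < 2 then ![x, y] ⟨k, hk⟩ else v k) =
          Function.update (Function.update v 0 x) 1 y := by
        funext k
        rcases k with _ | _ | k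
        · simp
        · simp
        · simp
      have h1 := hψ ![x, y]
      rw [e1] at h1
      rw [h1]
      have h2 := hφ (fun i => if i = 0 then x else y)
      have e2 : (fun a : ℕ ⊕ V => Sum.elim ![x, y] id
          (Sum.map (fun i : ℕ => if i = 0 then (0 : Fin 2) else 1) id a)) =
          Sum.elim (fun i => if i = 0 then x else y) id := by
        funext a
        rcases a with a | a
        · by_cases ha : a = 0 <;> simp [ha]
        · rfl
      rw [e2]
      simpa using h2
    obtain ⟨b, hb⟩ := h8 ψ v a (by simpa only [key] using ha)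
    exact ⟨b, by simpa only [key] using hb⟩

end

end Pool.Agent.ZF1
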