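import Mathlib

/-!
# The language of set theory and elementary notions in an arbitrary structure

(Adapted from the development of helper12.)
-/

universe u

namespace Pool.Agent.ZF1

open FirstOrder Language

/-- The only symbol of the language of set theory. -/
inductive MemRel : ℕ → Type
  | mem : MemRel 2

/-- The first-order language of set theory, with one binary relation symbol. -/
def Lset : FirstOrder.Language.{0, 0} := ⟨fun _ => Empty, MemRel⟩

/-- In a structure for the language of set theory, `x ∈ y` is the interpretation of the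
relation symbol. -/
instance memInst {V : Type u} [Lset.Structure V] : Membership V V :=
  ⟨fun y x => Structure.RelMap (L := Lset) MemRel.mem ![x, y]⟩

section notions
variable {V : Type u} [Lset.Structure V]

/-- `x ⊆ y`. -/
def Sub (x y : V) : Prop := ∀ z ∈ x, z ∈ y

/-- `x = ∅`. -/
def IsEmp (x : V) : Prop := ∀ z, z ∉ x

/-- `p = {x, y}`. -/
def IsUpair (p x y : V) : Prop := ∀ z, z ∈ p ↔ z = x ∨ z = y

/-- `p` is the (Kuratowski) ordered pair of `x` and `y`. -/
def IsOpair (p x y : V) : Prop := ∃ a b, IsUpair a x x ∧ IsUpair b x y ∧ IsUpair p a b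

/-- `y = x ∪ {x}`. -/
def IsSucc (y x : V) : Prop := ∀ z, z ∈ y ↔ z ∈ x ∨ z = x

/-- `I` contains `∅` and is closed under `x ↦ x ∪ {x}`. -/
def IsInductive (I : V) : Prop := (∃ e ∈ I, IsEmp e) ∧ ∀ x ∈ I, ∃ y ∈ I, IsSucc y x

/-- `n` is a natural number: it lies in every inductive set. -/
def IsNat (n : V) : Prop := ∀ I : V, IsInductive I → n ∈ I

/-- `⟨x, y⟩ ∈ f`. -/
def OMem (x y f : V) : Prop := ∃ p ∈ f, IsOpair p x y

/-- `f` is a function from `d` to `X`. -/
def IsFun (f d X : V) : Prop :=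
  (∀ p ∈ f, ∃ x ∈ d, ∃ y ∈ X, IsOpair p x y) ∧ ∀ x ∈ d, ∃! y, OMem x y f

/-- `f` is a bijection from `B` onto `C`. -/
def IsBij (f B C : V) : Prop := IsFun f B C ∧ ∀ y ∈ C, ∃! x, OMem x y f

end notions

/-- The structure `V` for the language of set theory is a model of ZF. The axioms are
Extensionality, Foundation, Pairing, Union, Power set, Infinity and, for every first-order formula
`φ` in the variables `x_0, x_1, …` and all values `v` of its variables, Separation for `φ(x_0)` and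
Replacement for `φ(x_0, x_1)`. -/
def ModelsZF (V : Type u) [Lset.Structure V] : Prop :=
  (∀ x y : V, (∀ z, z ∈ x ↔ z ∈ y) → x = y) ∧
  (∀ x : V, (∃ y, y ∈ x) → ∃ y ∈ x, ∀ z ∈ x, z ∉ y) ∧
  (∀ x y : V, ∃ p : V, ∀ z, z ∈ p ↔ z = x ∨ z = y) ∧
  (∀ x : V, ∃ u : V, ∀ z, z ∈ u ↔ ∃ y ∈ x, z ∈ y) ∧
  (∀ x : V, ∃ p : V, ∀ z, z ∈ p ↔ Sub z x) ∧
  (∃ x : V, IsInductive x) ∧
  (∀ (φ : Lset.Formula ℕ) (v : ℕ → V) (a : V), ∃ b : V, ∀ z,
    z ∈ b ↔ z ∈ a ∧ φ.Realize (Function.update v 0 z)) ∧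
  (∀ (φ : Lset.Formula ℕ) (v : ℕ → V) (a : V),
    (∀ x ∈ a, ∃! y, φ.Realize (Function.update (Function.update v 0 x) 1 y)) →
    ∃ b : V, ∀ y, y ∈ b ↔ ∃ x ∈ a, φ.Realize (Function.update (Function.update v 0 x) 1 y))

end Pool.Agent.ZF1
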