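import Pool.Agent.Lib_helper1.ZF.Maps

/-!
Natural numbers and amorphous sets inside a model of ZF.
-/

set_option linter.unusedSectionVars false
set_option linter.unusedVariables false

universe u

namespace Pool.Agent.ZF1

open FirstOrder Language

section
variable {V : Type u} [Lset.Structure V] [IsZF V]

theorem nat_emp_or {m : V} (hm : m ∈ (omega : V)) : m = emp ∨ emp ∈ m := by
  refine nat_ind (Q := fun m => m = emp ∨ emp ∈ m) (Or.inl rfl) ?_ m hm
  rintro n _ (rfl | h)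
  · exact Or.inr (mem_succ.2 (Or.inr rfl))
  · exact Or.inr (mem_succ.2 (Or.inl h))

theorem nat_succ_le {m : V} (hm : m ∈ (omega : V)) : ∀ n ∈ m, succ n ∈ m ∨ succ n = m := by
  refine nat_ind (Q := fun m => ∀ n ∈ m, succ n ∈ m ∨ succ n = m) ?_ ?_ m hm
  · intro n h; exact absurd h (not_mem_emp n)
  · intro m _ ih n hn
    rcases mem_succ.1 hn with hn | rfl
    · rcases ih n hn with h | h
      · exact Or.inl (mem_succ.2 (Or.inl h))
      · exact Or.inl (mem_succ.2 (Or.inr h))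
    · exact Or.inr rfl

theorem nat_tri {n : V} (hn : n ∈ (omega : V)) : ∀ m ∈ (omega : V), m ∈ n ∨ m = n ∨ n ∈ m := by
  refine nat_ind (Q := fun n => ∀ m ∈ (omega : V), m ∈ n ∨ m = n ∨ n ∈ m) ?_ ?_ n hn
  · intro m hm
    exact Or.inr (nat_emp_or hm)
  · intro n hn ih m hm
    rcases ih m hm with h | rfl | h
    · exact Or.inl (mem_succ.2 (Or.inl h))
    · exact Or.inl (mem_succ.2 (Or.inr rfl))
    · rcases nat_succ_le hm n h with h | h
      · exact Or.inr (Or.inr h)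
      · exact Or.inr (Or.inl h.symm)

theorem nat_lt_trans {a b c : V} (hc : c ∈ (omega : V)) (h1 : a ∈ b) (h2 : b ∈ c) : a ∈ c :=
  nat_trans hc b h2 a h1

/-- least elements -/
theorem exists_min (P : V → Prop) [hP : DP (fun v => P (v 0))] (h : ∃ n ∈ (omega : V), P n) :
    ∃ n ∈ (omega : V), P n ∧ ∀ m ∈ (omega : V), P m → n = m ∨ n ∈ m := by
  obtain ⟨n0, hn0, h0⟩ := h
  obtain ⟨n, hn, hmin⟩ := IsZF.found (sep (fun n => P n) (omega : V)) ⟨n0, mem_sep.2 ⟨hn0, h0⟩⟩
  rw [mem_sep] at hn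
  refine ⟨n, hn.1, hn.2, fun m hm hPm => ?_⟩
  rcases nat_tri hm n hn.1 with h | h | h
  · exact Or.inr h
  · exact Or.inl h
  · exact absurd h (hmin m (mem_sep.2 ⟨hm, hPm⟩))

/-- finite sets of natural numbers are bounded -/
theorem kfin_bdd {E : V} (hE : Kfin E) (hsub : Sub E omega) :
    ∃ m ∈ (omega : V), ∀ n ∈ E, n ∈ m := by
  refine kfin_ind (Q := fun E => ∃ m ∈ (omega : V), ∀ n ∈ E, n ∈ m) hE ?_ ?_
  · exact ⟨emp, emp_mem_omega, fun n h => absurd h (not_mem_emp n)⟩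
  · rintro E a _ ⟨m, hm, h⟩ _ haE _
    have ha := hsub a haE
    rcases nat_tri hm a ha with h1 | rfl | h1
    · exact ⟨m, hm, fun n hn => (mem_ins.1 hn).elim (h n) (fun e => e ▸ h1)⟩
    · refine ⟨succ a, succ_mem_omega ha, fun n hn => mem_succ.2 ?_⟩
      exact (mem_ins.1 hn).elim (fun h' => Or.inl (h n h')) Or.inr
    · refine ⟨succ a, succ_mem_omega ha, fun n hn => mem_succ.2 ?_⟩
      exact (mem_ins.1 hn).elim (fun h' => Or.inl (nat_lt_trans ha (h n h') h1)) Or.inr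

/-! ### Splitting unbounded sets -/

/-- unbounded sets of natural numbers -/
def Unb (R : V) : Prop := ∀ m ∈ (omega : V), ∃ n ∈ R, m ∈ n

/-- the next element of `R` -/
def Nx (R r s : V) : Prop := s ∈ R ∧ r ∈ s ∧ ∀ u ∈ R, r ∈ u → s = u ∨ s ∈ u

instance {t s r : (ℕ → V) → V} [ht : DF t] [hs : DF s] [hr : DF r] :
    DP (fun v => Nx (t v) (s v) (r v)) :=
  DP.comp3 (by unfold Nx; infer_instance) ht hs hr

/-- closed under the double next element -/
def ClNx (R r0 C : V) : Prop := r0 ∈ C ∧ ∀ c ∈ C, ∀ d e : V, Nx R c d → Nx R d e → e ∈ C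

instance {t s r : (ℕ → V) → V} [ht : DF t] [hs : DF s] [hr : DF r] :
    DP (fun v => ClNx (t v) (s v) (r v)) :=
  DP.comp3 (by unfold ClNx; infer_instance) ht hs hr

section split
variable {R : V} (hR : Sub R omega) (hU : Unb R)
include hR hU

theorem exists_nx {r : V} (hr : r ∈ (omega : V)) : ∃ s, Nx R r s := by
  obtain ⟨s, hs, h1, h2⟩ := exists_min (fun s => s ∈ R ∧ r ∈ s) (by
    obtain ⟨n, hn, h⟩ := hU r hr
    exact ⟨n, hR n hn, hn, h⟩)
  exact ⟨s, h1.1, h1.2, fun u hu hru => h2 u (hR u hu) ⟨hu, hru⟩⟩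

theorem nx_unique {r s s' : V} (h : Nx R r s) (h' : Nx R r s') : s = s' := by
  rcases h.2.2 s' h'.1 h'.2.1 with e | e
  · exact e
  · rcases h'.2.2 s h.1 h.2.1 with e' | e'
    · exact e'.symm
    · exact (not_mem_mem e e').elim

theorem nx_inj {r r' s : V} (hr : r ∈ R) (hr' : r' ∈ R) (h : Nx R r s) (h' : Nx R r' s) :
    r = r' := by
  rcases nat_tri (hR r' hr') r (hR r hr) with h1 | h1 | h1
  · rcases h.2.2 r' hr' h1 with e | e
    · exact absurd (e ▸ h'.2.1 : r' ∈ r') (not_mem_self _)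
    · exact (not_mem_mem e h'.2.1).elim
  · exact h1
  · rcases h'.2.2 r hr h1 with e | e
    · exact absurd (e ▸ h.2.1 : r ∈ r) (not_mem_self _)
    · exact (not_mem_mem e h.2.1).elim

/-- closed under the double successor -/
theorem unb_of_closed {E : V} (hE : Sub E R) {e0 : V} (he0 : e0 ∈ E)
    (hcl : ∀ c ∈ E, ∀ d e, Nx R c d → Nx R d e → e ∈ E) : Unb E := by
  have hbig : ∀ c ∈ E, ∃ e ∈ E, c ∈ e := by
    intro c hc
    obtain ⟨d, hd⟩ := exists_nx hR hU (hR c (hE c hc))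
    obtain ⟨e, he⟩ := exists_nx hR hU (hR d hd.1)
    exact ⟨e, hcl c hc d e hd he, nat_lt_trans (hR e he.1) hd.2.1 he.2.1⟩
  intro m hm
  refine nat_ind (Q := fun m => ∃ n ∈ E, m ∈ n) ?_ ?_ m hm
  · obtain ⟨e, he, h⟩ := hbig e0 he0
    rcases nat_emp_or (hR e (hE e he)) with rfl | h'
    · exact absurd h (not_mem_emp _)
    · exact ⟨e, he, h'⟩
  · rintro m _ ⟨n, hn, hmn⟩
    obtain ⟨e, he, h⟩ := hbig n hn
    refine ⟨e, he, ?_⟩
    rcases nat_succ_le (hR n (hE n hn)) m hmn with h1 | h1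
    · exact nat_lt_trans (hR e (hE e he)) h1 h
    · rw [h1]; exact h

theorem exists_split : ∃ E, Sub E R ∧ Unb E ∧ Unb (diff R E) := by
  obtain ⟨r0, hr0, h0, hmin⟩ := exists_min (fun s => s ∈ R) (by
    obtain ⟨n, hn, _⟩ := hU emp emp_mem_omega
    exact ⟨n, hR n hn, hn⟩)
  let E := sep (fun n => ∀ C : V, Sub C R → ClNx R r0 C → n ∈ C) R
  have hE : ∀ n, n ∈ E ↔ n ∈ R ∧ ∀ C : V, Sub C R → ClNx R r0 C → n ∈ C := fun n => mem_sep
  have hER : Sub E R := fun n hn => ((hE n).1 hn).1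
  have hr0E : r0 ∈ E := (hE r0).2 ⟨h0, fun C _ hC => hC.1⟩
  have hEcl : ∀ c ∈ E, ∀ d e, Nx R c d → Nx R d e → e ∈ E := by
    intro c hc d e hd he
    refine (hE e).2 ⟨he.1, fun C hCR hC => hC.2 c (((hE c).1 hc).2 C hCR hC) d e hd he⟩
  have hnot : ∀ c d e, c ∈ R → Nx R c d → Nx R d e → e ≠ r0 := by
    rintro c d e hc hd he rfl
    rcases hmin d (hR d hd.1) hd.1 with h | h
    · exact not_mem_self _ (h ▸ he.2.1)
    · exact not_mem_mem h he.2.1
  refine ⟨E, hER, unb_of_closed hR hU hER hr0E hEcl, ?_⟩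
  obtain ⟨s0, hs0⟩ := exists_nx hR hU hr0
  refine unb_of_closed hR hU (fun z hz => (mem_diff.1 hz).1) (e0 := s0) ?_ ?_
  · rw [mem_diff]
    refine ⟨hs0.1, fun hsE => ?_⟩
    have := ((hE s0).1 hsE).2 (diff R (sing s0)) (fun z hz => (mem_diff.1 hz).1) (by
      refine ⟨?_, ?_⟩
      · rw [mem_diff, mem_sing]
        refine ⟨h0, fun e => ?_⟩
        exact not_mem_self r0 (by
          have := hs0.2.1
          rw [← e] at this
          exact this)
      · intro c hc d e hd he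
        rw [mem_diff, mem_sing] at hc ⊢
        refine ⟨he.1, fun h => ?_⟩
        rw [h] at he
        have hdr : d = r0 := nx_inj hR hU hd.1 h0 he hs0
        rw [hdr] at hd
        rcases hmin c (hR c hc.1) hc.1 with h | h
        · rw [h] at hd; exact not_mem_self _ hd.2.1
        · exact not_mem_mem h hd.2.1)
    rw [mem_diff, mem_sing] at this
    exact this.2 rfl
  · intro c hc d e hd he
    rw [mem_diff] at hc ⊢
    refine ⟨he.1, fun heE => hc.2 ?_⟩
    refine (hE c).2 ⟨hc.1, fun C hCR hC => ?_⟩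
    by_contra hcC
    have := ((hE e).1 heE).2 (diff C (sing e)) (fun z hz => hCR z (mem_diff.1 hz).1) (by
      refine ⟨?_, ?_⟩
      · rw [mem_diff, mem_sing]
        exact ⟨hC.1, fun h => hnot c d e hc.1 hd he h.symm⟩
      · intro c' hc' d' e' hd' he'
        rw [mem_diff, mem_sing] at hc' ⊢
        refine ⟨hC.2 c' hc'.1 d' e' hd' he', fun h => ?_⟩
        rw [h] at he'
        have hdd : d' = d := nx_inj hR hU hd'.1 hd.1 he' he
        rw [hdd] at hd'
        have hcc : c' = c := nx_inj hR hU (hCR c' hc'.1) hc.1 hd' hd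
        exact hcC (hcc ▸ hc'.1))
    rw [mem_diff, mem_sing] at this
    exact this.2 rfl

end split

/-! ### Amorphous sets -/

/-- `A` is amorphous -/
def Amor (A : V) : Prop := ¬ Kfin A ∧ ∀ B, Sub B A → Kfin B ∨ Kfin (diff A B)

theorem not_kfin_of_unb {E : V} (hE : Sub E omega) (hU : Unb E) : ¬ Kfin E := by
  intro h
  obtain ⟨m, hm, hb⟩ := kfin_bdd h hE
  obtain ⟨n, hn, hmn⟩ := hU m hm
  exact not_mem_mem hmn (hb n hn)

/-- decreasing sequences of subsets of an amorphous set stabilize -/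
theorem amor_stab {A : V} (hA : Amor A) (B : V → V → Prop) [hB : DP (fun v => B (v 0) (v 1))]
    (hdec : ∀ k ∈ (omega : V), ∀ a ∈ A, B (succ k) a → B k a) :
    ∃ m ∈ (omega : V), ∀ a ∈ A, B m a → ∀ k ∈ (omega : V), B k a := by
  have hB' : ∀ (t s : (ℕ → V) → V) [DF t] [DF s], DP (fun v => B (t v) (s v)) :=
    fun t s _ _ => DP.comp2 hB inferInstance inferInstance
  have hdec' : ∀ k ∈ (omega : V), ∀ j ∈ k, ∀ a ∈ A, B k a → B j a := by
    refine nat_ind (Q := fun k => ∀ j ∈ k, ∀ a ∈ A, B k a → B j a) ?_ ?_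
    · intro j hj; exact absurd hj (not_mem_emp j)
    · intro k hk ih j hj a ha h
      have h1 := hdec k hk a ha h
      rcases mem_succ.1 hj with hj | rfl
      · exact ih j hj a ha h1
      · exact h1
  by_contra hcon
  push Not at hcon
  -- the level of `a`: least failing index
  let lev : V → V → Prop := fun a n => n ∈ (omega : V) ∧ ¬ B n a ∧ ∀ j ∈ n, B j a
  have hlevDP : ∀ (t s : (ℕ → V) → V) [DF t] [DF s], DP (fun v => lev (t v) (s v)) :=
    fun t s _ _ => DP.comp2 (R := lev) (by simp only [lev]; infer_instance) inferInstance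
      inferInstance
  have hlev : ∀ a ∈ A, ∀ n n', lev a n → lev a n' → n = n' := by
    intro a _ n n' h h'
    rcases nat_tri h'.1 n h.1 with h1 | h1 | h1
    · exact absurd (h'.2.2 n h1) h.2.1
    · exact h1
    · exact absurd (h.2.2 n' h1) h'.2.1
  have hex : ∀ m ∈ (omega : V), ∃ a ∈ A, ∃ n, m ∈ n ∧ lev a n := by
    intro m hm
    obtain ⟨a, ha, hBa, k, hk, hk'⟩ := hcon m hm
    obtain ⟨n, hn, h1, h2⟩ := exists_min (fun n => ¬ B n a) ⟨k, hk, hk'⟩
    refine ⟨a, ha, n, ?_, hn, h1, ?_⟩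
    · rcases nat_tri hn m hm with h | h | h
      · exact h
      · exact absurd (h ▸ hBa) h1
      · exact absurd (hdec' m hm n h a ha hBa) h1
    · intro j hj
      by_contra hj'
      rcases h2 j (omega_trans hn j hj) hj' with h | h
      · exact not_mem_self j (h ▸ hj)
      · exact not_mem_mem h hj
  let R := sep (fun n => ∃ a ∈ A, lev a n) (omega : V)
  have hR : Sub R omega := fun n hn => (mem_sep.1 hn).1
  have hU : Unb R := by
    intro m hm
    obtain ⟨a, ha, n, hmn, hn⟩ := hex m hm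
    exact ⟨n, mem_sep.2 ⟨hn.1, a, ha, hn⟩, hmn⟩
  obtain ⟨E, hER, hE1, hE2⟩ := exists_split hR hU
  have hinf : ∀ E' : V, Sub E' R → Unb E' → ∀ X : V, (∀ a ∈ A, ∀ n ∈ E', lev a n → a ∈ X) →
      ¬ Kfin X := by
    intro E' hE' hU' X hX hfin
    apply not_kfin_of_unb (fun z hz => hR z (hE' z hz)) hU'
    have hXA : Kfin (inter X A) := kfin_sub hfin _ fun z hz => (mem_inter.1 hz).1
    refine kfin_image hXA (fun a n => lev a n)
      (fun a ha n n' => hlev a (mem_inter.1 ha).2 n n') E' ?_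
    intro n hn
    obtain ⟨_, a, ha, h⟩ := mem_sep.1 (hE' n hn)
    exact ⟨a, mem_inter.2 ⟨hX a ha n hn h, ha⟩, h⟩
  rcases hA.2 (sep (fun a => ∃ n ∈ E, lev a n) A) (fun z hz => (mem_sep.1 hz).1) with h | h
  · exact hinf E hER hE1 _ (fun a ha n hn hl => mem_sep.2 ⟨ha, n, hn, hl⟩) h
  · refine hinf (diff R E) (fun z hz => (mem_diff.1 hz).1) hE2 _ (fun a ha n hn hl => ?_) h
    rw [mem_diff, mem_sep]
    refine ⟨ha, ?_⟩
    rintro ⟨_, n', hn', hl'⟩
    have := hlev a ha n n' hl hl'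
    subst this
    exact (mem_diff.1 hn).2 hn'

end

end Pool.Agent.ZF1
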