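import Pool.Agent.Lib_helper1.ZF.Notions

/-!
# Amorphous sets, dual Dedekind finiteness and pregeometries

All notions are stated for an arbitrary structure `V` for the language of set theory; only the
membership relation of `V` and quantifiers over `V` are used.
-/

universe u

namespace Pool.Agent.ZF1

section
variable {V : Type u} [Lset.Structure V]

/-- `x` is finite: it is in bijection with a natural number. -/
def IsFinite (x : V) : Prop := ∃ n f : V, IsNat n ∧ IsBij f n x

/-- `A` is amorphous: it is infinite and it is not the union of two disjoint infinite sets. -/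
def IsAmorphous (A : V) : Prop := ¬ IsFinite A ∧
  ¬ ∃ B C : V, ¬ IsFinite B ∧ ¬ IsFinite C ∧ (∀ z, z ∈ A ↔ z ∈ B ∨ z ∈ C) ∧ ∀ z ∈ B, z ∉ C

/-- `P` is the power set of `A`. -/
def IsPowerset (P A : V) : Prop := ∀ z, z ∈ P ↔ Sub z A

/-- `X` is dually Dedekind finite: every surjection from `X` to `X` is injective. -/
def IsDuallyDedekindFinite (X : V) : Prop := ∀ f : V, IsFun f X X →
  (∀ y ∈ X, ∃ x ∈ X, OMem x y f) → ∀ x ∈ X, ∀ x' ∈ X, ∀ y, OMem x y f → OMem x' y f → x = x'

/-- `F` is the set of all finite subsets of `A`. -/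
def IsFinSubsets (F A : V) : Prop := ∀ z, z ∈ F ↔ Sub z A ∧ IsFinite z

/-- `T` is `S ∪ {a}`. -/
def IsInsert (T S a : V) : Prop := ∀ z, z ∈ T ↔ z ∈ S ∨ z = a

/-- `Y` is the image of `X` under `p`. -/
def IsImage (Y X p : V) : Prop := ∀ y, y ∈ Y ↔ ∃ x ∈ X, OMem x y p

/-- `p` preserves `cl` on the subsets of `T`: `cl(p[X]) = p[cl(X)]` for all `X ⊆ T` in the domain
of `cl`. -/
def Preserves (p T cl : V) : Prop := ∀ X Y : V, Sub X T → OMem X Y cl →
  ∃ X' Y' : V, IsImage X' X p ∧ IsImage Y' Y p ∧ OMem X' Y' cl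

/-- `cl` is a pregeometry on `A`: a function from the set `F` of finite subsets of `A` to `F` which
is a closure operator and satisfies exchange and local homogeneity. -/
def IsPregeometry (cl A : V) : Prop := ∃ F : V, IsFinSubsets F A ∧ IsFun cl F F ∧
  (∀ S C : V, OMem S C cl → Sub S C ∧ OMem C C cl) ∧
  (∀ S C T D : V, OMem S C cl → OMem T D cl → Sub S T → Sub C D) ∧
  (∀ S C a b Sa Sb Ca Cb : V, OMem S C cl → a ∈ A → b ∈ A → a ∉ C → b ∉ C →
    IsInsert Sa S a → IsInsert Sb S b → OMem Sa Ca cl → OMem Sb Cb cl → (a ∈ Cb ↔ b ∈ Ca)) ∧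
  (∀ S T : V, OMem S S cl → OMem T T cl → Sub S T →
    ∀ a b : V, a ∈ T → a ∉ S → b ∈ T → b ∉ S →
      ∃ p : V, IsBij p T T ∧ OMem a b p ∧ (∀ s ∈ S, OMem s s p) ∧ Preserves p T cl ∧
        ∀ U : V, OMem U U cl → Sub T U →
          ∃ q : V, IsBij q U U ∧ (∀ x y, OMem x y p → OMem x y q) ∧ Preserves q U cl)

/-- `cl` is degenerate: `cl(S)` is the union of the sets `cl({a})`, `a ∈ S`, for every non-empty
`S` in its domain. -/
def IsDegenerate (cl : V) : Prop := ∀ S C : V, OMem S C cl → (∃ s, s ∈ S) →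
  ∀ z, z ∈ C ↔ ∃ a ∈ S, ∃ s D : V, IsUpair s a a ∧ OMem s D cl ∧ z ∈ D

/-- `A` is of projective type: it admits a non-degenerate pregeometry. -/
def IsOfProjectiveType (A : V) : Prop := ∃ cl : V, IsPregeometry cl A ∧ ¬ IsDegenerate cl

end

end Pool.Agent.ZF1
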