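import Pool.Agent.Lib_helper1.ZF.Deg
import Pool.Agent.Lib_helper1.ZF.Models
import Pool.Agent.Lib_helper1.ZF.ProjDefs

/-!
Amorphous sets with dually Dedekind infinite power sets are of projective type.
-/

set_option linter.unusedSectionVars false
set_option linter.unusedVariables false

universe u

namespace Pool.Agent.ZF1

open FirstOrder Language

section
variable {V : Type u} [Lset.Structure V]

instance {t s r : (ℕ → V) → V} [ht : DF t] [hs : DF s] [hr : DF r] :
    DP (fun v => IsBij (t v) (s v) (r v)) :=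
  DP.comp3 (by unfold IsBij; infer_instance) ht hs hr

instance {t : (ℕ → V) → V} [ht : DF t] : DP (fun v => IsFinite (t v)) :=
  DP.comp1 (by unfold IsFinite; infer_instance) ht

end

section
variable {V : Type u} [Lset.Structure V] [IsZF V]

theorem kfin_nat {n : V} (hn : IsNat n) : Kfin n := by
  refine nat_ind (Q := fun n => Kfin n) kfin_emp ?_ n (mem_omega.2 hn)
  intro n _ h
  exact kfin_ins h n

theorem isFun_iff {f X Y : V} : IsFun f X Y ↔ (∀ p ∈ f, ∃ x ∈ X, ∃ y ∈ Y, p = opair x y) ∧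
    ∀ x ∈ X, ∃! y, opair x y ∈ f := by
  simp only [IsFun, isOpair_iff, oMem_iff]

theorem kfin_iff {x : V} : IsFinite x ↔ Kfin x := by
  constructor
  · rintro ⟨n, f, hn, hf, hf'⟩
    rw [isFun_iff] at hf
    refine kfin_image (kfin_nat hn) (fun a z => opair a z ∈ f) ?_ x ?_
    · intro a ha z z' h h'
      exact (hf.2 a ha).unique h h'
    · intro z hz
      obtain ⟨k, hk, _⟩ := hf' z hz
      change OMem k z f at hk
      rw [oMem_iff] at hk
      obtain ⟨k', hk', z', hz', e⟩ := hf.1 _ hk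
      obtain ⟨rfl, rfl⟩ := opair_inj.1 e
      exact ⟨k, hk', hk⟩
  · intro hx
    refine kfin_ind (Q := fun x => IsFinite x) hx ?_ ?_
    · refine ⟨emp, emp, mem_omega.1 emp_mem_omega, isFun_iff.2 ⟨?_, ?_⟩, ?_⟩
      · intro p hp; exact absurd hp (not_mem_emp p)
      · intro p hp; exact absurd hp (not_mem_emp p)
      · intro p hp; exact absurd hp (not_mem_emp p)
    · rintro y a _ ⟨n, f, hn, hf, hf'⟩ hay _ _
      rw [isFun_iff] at hf
      have hf'' : ∀ y' ∈ y, ∃! x, opair x y' ∈ f := by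
        intro y' hy'
        have := hf' y' hy'
        simpa only [oMem_iff] using this
      have hfdom : ∀ {k z}, opair k z ∈ f → k ∈ n ∧ z ∈ y := by
        intro k z h
        obtain ⟨k', hk', z', hz', e⟩ := hf.1 _ h
        obtain ⟨rfl, rfl⟩ := opair_inj.1 e
        exact ⟨hk', hz'⟩
      refine ⟨succ n, ins f (opair n a), mem_omega.1 (succ_mem_omega (mem_omega.2 hn)),
        isFun_iff.2 ⟨?_, ?_⟩, ?_⟩
      · intro p hp
        rcases mem_ins.1 hp with hp | rfl
        · obtain ⟨k, hk, z, hz, rfl⟩ := hf.1 p hp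
          exact ⟨k, mem_succ.2 (Or.inl hk), z, mem_ins.2 (Or.inl hz), rfl⟩
        · exact ⟨n, mem_succ.2 (Or.inr rfl), a, mem_ins_self _ _, rfl⟩
      · intro k hk
        rcases mem_succ.1 hk with hk | rfl
        · obtain ⟨z, hz, huniq⟩ := hf.2 k hk
          refine ⟨z, mem_ins.2 (Or.inl hz), fun z' hz' => ?_⟩
          rcases mem_ins.1 hz' with hz' | e
          · exact huniq z' hz'
          · rw [(opair_inj.1 e).1] at hk
            exact absurd hk (not_mem_self n)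
        · refine ⟨a, mem_ins_self _ _, fun z' hz' => ?_⟩
          rcases mem_ins.1 hz' with hz' | e
          · exact absurd (hfdom hz').1 (not_mem_self k)
          · exact (opair_inj.1 e).2
      · intro z hz
        simp only [oMem_iff]
        rcases mem_ins.1 hz with hz | rfl
        · obtain ⟨k, hk, huniq⟩ := hf'' z hz
          refine ⟨k, mem_ins.2 (Or.inl hk), fun k' hk' => ?_⟩
          rcases mem_ins.1 hk' with hk' | e
          · exact huniq k' hk'
          · rw [(opair_inj.1 e).2] at hz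
            exact absurd hz hay
        · refine ⟨n, mem_ins_self _ _, fun k' hk' => ?_⟩
          rcases mem_ins.1 hk' with hk' | e
          · exact absurd (hfdom hk').2 hay
          · exact (opair_inj.1 e).1

theorem amor_of {A : V} (h : IsAmorphous A) : Amor A := by
  obtain ⟨h1, h2⟩ := h
  simp only [kfin_iff] at h1 h2
  refine ⟨h1, fun B hB => ?_⟩
  by_contra hcon
  push Not at hcon
  refine h2 ⟨B, diff A B, hcon.1, hcon.2, fun z => ?_, fun z hz hz' => (mem_diff.1 hz').2 hz⟩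
  rw [mem_diff]
  constructor
  · intro hz
    by_cases hzB : z ∈ B
    · exact Or.inl hzB
    · exact Or.inr ⟨hz, hzB⟩
  · rintro (hz | hz)
    · exact hB z hz
    · exact hz.1

/-- the finite subsets -/
noncomputable def finSet (A : V) : V := sep (fun S : V => Kfin S) (pow A)

/-- the closure operation as a set -/
noncomputable def clSet (A g : V) : V :=
  sep (fun z => ∃ S : V, z = opair S (clo A g S)) (prod (finSet A) (finSet A))

theorem mem_fin {A S : V} : S ∈ finSet A ↔ Sub S A ∧ Kfin S := by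
  unfold finSet
  rw [mem_sep, mem_pow]

theorem mem_clSet {A g S C : V} (hA : Amor A) :
    opair S C ∈ clSet A g ↔ (Sub S A ∧ Kfin S) ∧ C = clo A g S := by
  unfold clSet
  rw [mem_sep, opair_mem_prod, mem_fin, mem_fin]
  constructor
  · rintro ⟨⟨h1, h2⟩, S', e⟩
    obtain ⟨rfl, h⟩ := opair_inj.1 e
    exact ⟨h1, h⟩
  · rintro ⟨h1, rfl⟩
    exact ⟨⟨h1, clo_sub _, clo_kfin hA h1.1 h1.2⟩, S, rfl⟩

theorem isBij_of {q T : V} (hq : Inje q) (hrel : IsRel q) (hd : dm q = T) (hr : rn q = T) :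
    IsBij q T T := by
  refine ⟨isFun_iff.2 ⟨?_, ?_⟩, ?_⟩
  · intro p hp
    obtain ⟨x, y, rfl⟩ := hrel p hp
    exact ⟨x, by rw [← hd]; exact mem_dm.2 ⟨y, hp⟩, y, by rw [← hr]; exact mem_rn.2 ⟨x, hp⟩, rfl⟩
  · intro x hx
    rw [← hd] at hx
    obtain ⟨y, hy⟩ := mem_dm.1 hx
    exact ⟨y, hy, fun y' hy' => hq.1 _ _ _ hy' hy⟩
  · intro y hy
    rw [← hr] at hy
    obtain ⟨x, hx⟩ := mem_rn.1 hy
    refine ⟨x, oMem_iff.2 hx, fun x' hx' => hq.2 _ _ _ (oMem_iff.1 hx') hx⟩

theorem isImage_img {q X : V} : IsImage (img q X) X q := by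
  intro y
  rw [mem_img]
  simp only [oMem_iff]

theorem isInsert_iff {T S a : V} : IsInsert T S a ↔ T = ins S a := by
  constructor
  · intro h
    exact ext fun z => (h z).trans mem_ins.symm
  · rintro rfl z
    exact mem_ins

theorem El.preserves {A g : V} (hA : Amor A) {q U : V} (hq : El A g q)
    (hUc : clo A g U = U) (hd : dm q = U) : Preserves q U (clSet A g) := by
  intro X Y hX hXY
  rw [oMem_iff, mem_clSet hA] at hXY
  obtain ⟨hXf, rfl⟩ := hXY
  refine ⟨img q X, img q (clo A g X), isImage_img, isImage_img, ?_⟩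
  rw [oMem_iff, mem_clSet hA]
  refine ⟨⟨fun z hz => hq.pinj.rn_sub z (img_sub_rn _ _ z hz), kfin_img hq.pinj.2.1⟩, ?_⟩
  apply hq.img_clo hA hXf.1
  rw [hd]
  have := clo_mono (A := A) (g := g) hX
  rw [hUc] at this
  exact this

theorem isPregeometry_clSet {A g : V} (hA : Amor A) : IsPregeometry (clSet A g) A := by
  refine ⟨finSet A, ?_, isFun_iff.2 ⟨?_, ?_⟩, ?_, ?_, ?_, ?_⟩
  · intro z
    rw [mem_fin, kfin_iff]
  · intro p hp
    obtain ⟨S, hS, C, hC, rfl⟩ := mem_prod.1 (mem_sep.1 hp).1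
    exact ⟨S, hS, C, hC, rfl⟩
  · intro S hS
    rw [mem_fin] at hS
    refine ⟨clo A g S, (mem_clSet hA).2 ⟨hS, rfl⟩, fun C hC => ((mem_clSet hA).1 hC).2⟩
  · intro S C h
    rw [oMem_iff, mem_clSet hA] at h
    obtain ⟨⟨hS, hSf⟩, rfl⟩ := h
    refine ⟨sub_clo hS, ?_⟩
    rw [oMem_iff, mem_clSet hA]
    exact ⟨⟨clo_sub _, clo_kfin hA hS hSf⟩, (clo_clo hA hS hSf).symm⟩
  · intro S C T D h h' hST
    rw [oMem_iff, mem_clSet hA] at h h'
    obtain ⟨_, rfl⟩ := h
    obtain ⟨_, rfl⟩ := h'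
    exact clo_mono hST
  · intro S C a b Sa Sb Ca Cb h ha hb ha' hb' hSa hSb hCa hCb
    rw [oMem_iff, mem_clSet hA] at h hCa hCb
    rw [isInsert_iff] at hSa hSb
    subst hSa hSb
    obtain ⟨⟨hS, hSf⟩, rfl⟩ := h
    obtain ⟨_, rfl⟩ := hCa
    obtain ⟨_, rfl⟩ := hCb
    exact ⟨clo_exchange hA hS hSf ha hb ha' hb', clo_exchange hA hS hSf hb ha hb' ha'⟩
  · intro S T hS hT hST a b haT haS hbT hbS
    rw [oMem_iff, mem_clSet hA] at hS hT
    obtain ⟨⟨hSA, hSf⟩, hSc⟩ := hS
    obtain ⟨⟨hTA, hTf⟩, hTc⟩ := hT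
    have h1 : El A g (ins (idm S) (opair a b)) := clo_gen hA hSA hSf (hTA a haT) (hTA b hbT)
      (by rw [← hSc]; exact haS) (by rw [← hSc]; exact hbS)
    obtain ⟨p, hp, hsub, hpd, hpr⟩ := h1.perm hA hTA hTf hTc.symm (by
      rw [dm_ins, dm_idm]
      exact ins_sub hST haT) (by
      rw [rn_ins, rn_idm]
      exact ins_sub hST hbT)
    refine ⟨p, isBij_of hp.inje hp.rel hpd hpr, oMem_iff.2 (hsub _ (mem_ins_self _ _)), ?_,
      hp.preserves hA hTc.symm hpd, ?_⟩
    · intro s hs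
      exact oMem_iff.2 (hsub _ (mem_ins.2 (Or.inl (mem_idm.2 ⟨hs, rfl⟩))))
    · intro U hU hTU
      rw [oMem_iff, mem_clSet hA] at hU
      obtain ⟨⟨hUA, hUf⟩, hUc⟩ := hU
      obtain ⟨q, hq, hpq, hqd, hqr⟩ := hp.perm hA hUA hUf hUc.symm (by rw [hpd]; exact hTU)
        (by rw [hpr]; exact hTU)
      refine ⟨q, isBij_of hq.inje hq.rel hqd hqr, ?_, hq.preserves hA hUc.symm hqd⟩
      intro x y hxy
      rw [oMem_iff] at hxy ⊢
      exact hpq _ hxy

theorem degen_of {A g : V} (hA : Amor A) (h : IsDegenerate (clSet A g)) : Degen A g := by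
  intro S hS hSf hne z hz
  obtain ⟨a, ha, s, D, hs, hD, hzD⟩ := (h S (clo A g S)
    (by rw [oMem_iff, mem_clSet hA]; exact ⟨⟨hS, hSf⟩, rfl⟩) hne z).1 hz
  rw [isUpair_iff] at hs
  rw [oMem_iff, mem_clSet hA] at hD
  obtain ⟨_, rfl⟩ := hD
  subst hs
  exact ⟨a, ha, hzD⟩

theorem main_zf {A P : V} (hA : IsAmorphous A) (hP : IsPowerset P A)
    (hdd : ¬ IsDuallyDedekindFinite P) : IsOfProjectiveType A := by
  have hA' := amor_of hA
  unfold IsDuallyDedekindFinite at hdd
  push Not at hdd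
  obtain ⟨f, hf, hsurj, X, hX, X', hX', Y, hXY, hX'Y, hne⟩ := hdd
  rw [isFun_iff] at hf
  simp only [oMem_iff] at hsurj hXY hX'Y
  refine ⟨clSet A f, isPregeometry_clSet hA', fun hdeg => hne ?_⟩
  have hdom : ∀ {S T}, opair S T ∈ f → S ∈ P ∧ T ∈ P := by
    intro S T h
    obtain ⟨S', hS', T', hT', e⟩ := hf.1 _ h
    obtain ⟨rfl, rfl⟩ := opair_inj.1 e
    exact ⟨hS', hT'⟩
  refine inj_of_degen hA' (degen_of hA' hdeg) ?_ ?_ ?_ ((hP X).1 hX) ((hP X').1 hX')
    ((hP Y).1 (hdom hXY).2) hXY hX'Y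
  · intro S T T' h h'
    exact (hf.2 S (hdom h).1).unique h h'
  · intro S hS
    obtain ⟨T, hT, _⟩ := hf.2 S ((hP S).2 hS)
    exact ⟨T, (hP T).1 (hdom hT).2, hT⟩
  · intro T hT
    obtain ⟨S, hS, h⟩ := hsurj T ((hP T).2 hT)
    exact ⟨S, (hP S).1 hS, h⟩

end

/-- every model of ZF satisfies the statement -/
theorem main (V : Type u) [Lset.Structure V] (hV : ModelsZF V) (A P : V) (hA : IsAmorphous A)
    (hP : IsPowerset P A) (hdd : ¬ IsDuallyDedekindFinite P) : IsOfProjectiveType A := by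
  have := isZF_of_modelsZF hV
  exact main_zf hA hP hdd

end Pool.Agent.ZF1
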