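import Pool.Agent.Lib_helper1.ZF.Omega

/-!
The stages of the back-and-forth system of a binary relation on the power set of `A`.
-/

set_option linter.unusedSectionVars false
set_option linter.unusedVariables false

universe u

namespace Pool.Agent.ZF1

open FirstOrder Language

section
variable {V : Type u} [Lset.Structure V] [IsZF V]

/-- a subset of `A` or its complement -/
noncomputable def co (A U : V) : Bool → V
  | true => U
  | false => diff A U

instance {t s : (ℕ → V) → V} [ht : DF t] [hs : DF s] (i : Bool) :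
    DF (fun v => co (t v) (s v) i) := by
  cases i
  · change DF (fun v => diff (t v) (s v)); infer_instance
  · change DF (fun v => s v); infer_instance

/-- `p` is a finite partial injection of `A` respecting `g` on (co)supports -/
def At (A g p : V) : Prop := PInj A p ∧ ∀ U W : V, Sub U (dm p) → Sub W (dm p) → ∀ i j : Bool,
  (opair (co A U i) (co A W j) ∈ g ↔ opair (co A (img p U) i) (co A (img p W) j) ∈ g)

instance {t s r : (ℕ → V) → V} [ht : DF t] [hs : DF s] [hr : DF r] :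
    DP (fun v => At (t v) (s v) (r v)) :=
  DP.comp3 (by unfold At; infer_instance) ht hs hr

theorem At.mono {A g p q : V} (h : At A g q) (hpq : Sub p q) : At A g p := by
  refine ⟨h.1.mono hpq, fun U W hU hW i j => ?_⟩
  rw [h.2 U W (sub_trans hU (dm_mono hpq)) (sub_trans hW (dm_mono hpq)) i j,
    img_ext hpq h.1.2.2 hU, img_ext hpq h.1.2.2 hW]

theorem at_idm {A g S : V} (hS : Sub S A) (hf : Kfin S) : At A g (idm S) := by
  refine ⟨pinj_idm hS hf, fun U W hU hW i j => ?_⟩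
  rw [dm_idm] at hU hW
  rw [img_idm hU, img_idm hW]

theorem img_img_inv {p X : V} (hp : Inje p) (h : Sub X (rn p)) : img p (img (inv p) X) = X :=
  ext fun w => by
    rw [mem_img]
    constructor
    · rintro ⟨y, hy, h1⟩
      obtain ⟨x, hx, h2⟩ := mem_img.1 hy
      rw [mem_inv] at h2
      rw [hp.1 _ _ _ h1 h2]; exact hx
    · intro hw
      obtain ⟨y, hy⟩ := mem_rn.1 (h w hw)
      exact ⟨y, mem_img.2 ⟨w, hw, mem_inv.2 hy⟩, hy⟩

theorem At.inv {A g p : V} (h : At A g p) : At A g (inv p) := by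
  refine ⟨h.1.inv, fun U W hU hW i j => ?_⟩
  have e : ∀ X, Sub (img (ZF1.inv p) X) (dm p) := fun X => by
    rw [← rn_inv]; exact img_sub_rn _ _
  rw [dm_inv] at hU hW
  have := h.2 (img (ZF1.inv p) U) (img (ZF1.inv p) W) (e U) (e W) i j
  rw [img_img_inv h.1.2.2 hU, img_img_inv h.1.2.2 hW] at this
  exact this.symm

theorem At.cmp {A g p q : V} (hq : At A g q) (hp : At A g p) (h : rn p = dm q) :
    At A g (cmp q p) := by
  refine ⟨hq.1.cmp hp.1, fun U W hU hW i j => ?_⟩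
  rw [dm_cmp (by rw [h]; exact sub_refl _)] at hU hW
  rw [img_cmp, img_cmp, hp.2 U W hU hW i j, hq.2 (img p U) (img p W)]
  · rw [← h]; exact img_sub_rn _ _
  · rw [← h]; exact img_sub_rn _ _

/-- certificates -/
def Cert (A g Z : V) : Prop := ∀ k p : V, opair k p ∈ Z → At A g p ∧ ∀ j : V, k = succ j →
  (∀ a ∈ A, ∃ b ∈ A, opair j (ins p (opair a b)) ∈ Z) ∧
  (∀ b ∈ A, ∃ a ∈ A, opair j (ins p (opair a b)) ∈ Z)

instance {t s r : (ℕ → V) → V} [ht : DF t] [hs : DF s] [hr : DF r] :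
    DP (fun v => Cert (t v) (s v) (r v)) :=
  DP.comp3 (by unfold Cert; infer_instance) ht hs hr

/-- the stages of the back-and-forth system -/
def St (A g k p : V) : Prop := ∃ Z : V, Cert A g Z ∧ opair k p ∈ Z

instance {t s r q : (ℕ → V) → V} [ht : DF t] [hs : DF s] [hr : DF r] [hq : DF q] :
    DP (fun v => St (t v) (s v) (r v) (q v)) :=
  DP.comp4 (by unfold St; infer_instance) ht hs hr hq

variable {A g : V}

theorem st_at {k p : V} (h : St A g k p) : At A g p := by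
  obtain ⟨Z, hZ, h⟩ := h
  exact (hZ k p h).1

theorem st_zero {p : V} : St A g emp p ↔ At A g p := by
  refine ⟨st_at, fun h => ⟨sing (opair emp p), fun k q hkq => ?_, mem_sing.2 rfl⟩⟩
  obtain ⟨rfl, rfl⟩ := opair_inj.1 (mem_sing.1 hkq)
  exact ⟨h, fun j hj => absurd hj.symm (succ_ne_emp j)⟩

theorem omega_of_succ {k : V} (h : succ k ∈ (omega : V)) : k ∈ (omega : V) :=
  omega_trans h k (mem_succ.2 (Or.inr rfl))

theorem ins_sub_prod {A p a b : V} (h : Sub p (prod A A)) (ha : a ∈ A) (hb : b ∈ A) :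
    Sub (ins p (opair a b)) (prod A A) := fun z hz => by
  rcases mem_ins.1 hz with hz | rfl
  · exact h z hz
  · exact opair_mem_prod.2 ⟨ha, hb⟩

theorem st_succ {k p : V} (hk : k ∈ (omega : V)) : St A g (succ k) p ↔ At A g p ∧
    (∀ a ∈ A, ∃ b ∈ A, St A g k (ins p (opair a b))) ∧
    (∀ b ∈ A, ∃ a ∈ A, St A g k (ins p (opair a b))) := by
  constructor
  · rintro ⟨Z, hZ, h⟩
    obtain ⟨h1, h2⟩ := hZ _ _ h
    obtain ⟨h3, h4⟩ := h2 k rfl
    refine ⟨h1, fun a ha => ?_, fun b hb => ?_⟩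
    · obtain ⟨b, hb, h⟩ := h3 a ha
      exact ⟨b, hb, Z, hZ, h⟩
    · obtain ⟨a, ha, h⟩ := h4 b hb
      exact ⟨a, ha, Z, hZ, h⟩
  · rintro ⟨h1, h2, h3⟩
    let Y := sep (fun z => ∃ k p : V, z = opair k p ∧ St A g k p) (prod omega (pow (prod A A)))
    have hY : ∀ k p : V, k ∈ (omega : V) → Sub p (prod A A) → St A g k p → opair k p ∈ Y :=
      fun k p hk hp h => mem_sep.2 ⟨opair_mem_prod.2 ⟨hk, mem_pow.2 hp⟩, k, p, rfl, h⟩
    refine ⟨ins Y (opair (succ k) p), ?_, mem_ins_self _ _⟩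
    intro l q hlq
    rcases mem_ins.1 hlq with hlq | hlq
    · obtain ⟨hlq1, l', q', e, hst⟩ := mem_sep.1 hlq
      obtain ⟨rfl, rfl⟩ := opair_inj.1 e
      obtain ⟨hl, hq⟩ := opair_mem_prod.1 hlq1
      rw [mem_pow] at hq
      obtain ⟨Z, hZ, h⟩ := hst
      obtain ⟨k1, k2⟩ := hZ _ _ h
      refine ⟨k1, fun j hj => ?_⟩
      obtain ⟨k3, k4⟩ := k2 j hj
      have hjo : j ∈ (omega : V) := omega_of_succ (hj ▸ hl)
      refine ⟨fun a ha => ?_, fun b hb => ?_⟩
      · obtain ⟨b, hb, h⟩ := k3 a ha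
        exact ⟨b, hb, mem_ins.2 (Or.inl (hY _ _ hjo (ins_sub_prod hq ha hb) ⟨Z, hZ, h⟩))⟩
      · obtain ⟨a, ha, h⟩ := k4 b hb
        exact ⟨a, ha, mem_ins.2 (Or.inl (hY _ _ hjo (ins_sub_prod hq ha hb) ⟨Z, hZ, h⟩))⟩
    · obtain ⟨rfl, rfl⟩ := opair_inj.1 hlq
      refine ⟨h1, fun j hj => ?_⟩
      have hjk := succ_inj hj
      subst hjk
      refine ⟨fun a ha => ?_, fun b hb => ?_⟩
      · obtain ⟨b, hb, h⟩ := h2 a ha
        exact ⟨b, hb, mem_ins.2 (Or.inl (hY _ _ hk (ins_sub_prod h1.1.1 ha hb) h))⟩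
      · obtain ⟨a, ha, h⟩ := h3 b hb
        exact ⟨a, ha, mem_ins.2 (Or.inl (hY _ _ hk (ins_sub_prod h1.1.1 ha hb) h))⟩

theorem st_down {k : V} (hk : k ∈ (omega : V)) : ∀ p, St A g (succ k) p → St A g k p := by
  refine nat_ind (Q := fun k => ∀ p, St A g (succ k) p → St A g k p) ?_ ?_ k hk
  · intro p h
    exact st_zero.2 (st_at h)
  · intro n hn ih p h
    obtain ⟨h1, h2, h3⟩ := (st_succ (succ_mem_omega hn)).1 h
    refine (st_succ hn).2 ⟨h1, fun a ha => ?_, fun b hb => ?_⟩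
    · obtain ⟨b, hb, h⟩ := h2 a ha
      exact ⟨b, hb, ih _ h⟩
    · obtain ⟨a, ha, h⟩ := h3 b hb
      exact ⟨a, ha, ih _ h⟩

theorem ins_idm (S a : V) : ins (idm S) (opair a a) = idm (ins S a) := ext fun z => by
  rw [mem_ins, mem_idm', mem_idm']
  constructor
  · rintro (⟨x, hx, rfl⟩ | rfl)
    · exact ⟨x, mem_ins.2 (Or.inl hx), rfl⟩
    · exact ⟨a, mem_ins_self _ _, rfl⟩
  · rintro ⟨x, hx, rfl⟩
    rcases mem_ins.1 hx with hx | rfl
    · exact Or.inl ⟨x, hx, rfl⟩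
    · exact Or.inr rfl

theorem ins_sub {S A a : V} (h : Sub S A) (ha : a ∈ A) : Sub (ins S a) A := fun z hz => by
  rcases mem_ins.1 hz with hz | rfl
  · exact h z hz
  · exact ha

theorem st_idm {k : V} (hk : k ∈ (omega : V)) :
    ∀ S, Sub S A → Kfin S → St A g k (idm S) := by
  refine nat_ind (Q := fun k => ∀ S, Sub S A → Kfin S → St A g k (idm S)) ?_ ?_ k hk
  · intro S hS hf
    exact st_zero.2 (at_idm hS hf)
  · intro n hn ih S hS hf
    refine (st_succ hn).2 ⟨at_idm hS hf, fun a ha => ⟨a, ha, ?_⟩, fun a ha => ⟨a, ha, ?_⟩⟩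
    · rw [ins_idm]; exact ih _ (ins_sub hS ha) (kfin_ins hf a)
    · rw [ins_idm]; exact ih _ (ins_sub hS ha) (kfin_ins hf a)

theorem st_inv {k : V} (hk : k ∈ (omega : V)) : ∀ p, St A g k p → St A g k (inv p) := by
  refine nat_ind (Q := fun k => ∀ p, St A g k p → St A g k (inv p)) ?_ ?_ k hk
  · intro p h
    exact st_zero.2 (st_at h).inv
  · intro n hn ih p h
    obtain ⟨h1, h2, h3⟩ := (st_succ hn).1 h
    refine (st_succ hn).2 ⟨h1.inv, fun a ha => ?_, fun b hb => ?_⟩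
    · obtain ⟨b, hb, h⟩ := h3 a ha
      exact ⟨b, hb, by rw [← inv_ins]; exact ih _ h⟩
    · obtain ⟨a, ha, h⟩ := h2 b hb
      exact ⟨a, ha, by rw [← inv_ins]; exact ih _ h⟩

theorem cmp_ins {p q a b c : V} (hp : Inje (ins p (opair a b))) (hq : Inje (ins q (opair b c))) :
    cmp (ins q (opair b c)) (ins p (opair a b)) = ins (cmp q p) (opair a c) := by
  refine ext fun z => ?_
  rw [mem_cmp', mem_ins, mem_cmp']
  constructor
  · rintro ⟨x, y, w, h1, h2, rfl⟩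
    rcases mem_ins.1 h1 with k1 | k1 <;> rcases mem_ins.1 h2 with k2 | k2
    · exact Or.inl ⟨x, y, w, k1, k2, rfl⟩
    · obtain ⟨rfl, rfl⟩ := opair_inj.1 k2
      right
      rw [hp.2 _ _ _ h1 (mem_ins_self _ _)]
    · obtain ⟨rfl, rfl⟩ := opair_inj.1 k1
      right
      rw [hq.1 _ _ _ h2 (mem_ins_self _ _)]
    · rw [(opair_inj.1 k1).1, (opair_inj.1 k2).2]
      exact Or.inr rfl
  · rintro (⟨x, y, w, h1, h2, rfl⟩ | rfl)
    · exact ⟨x, y, w, mem_ins.2 (Or.inl h1), mem_ins.2 (Or.inl h2), rfl⟩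
    · exact ⟨a, b, c, mem_ins_self _ _, mem_ins_self _ _, rfl⟩

theorem st_cmp {k : V} (hk : k ∈ (omega : V)) :
    ∀ p q, St A g k p → St A g k q → rn p = dm q → St A g k (cmp q p) := by
  refine nat_ind (Q := fun k => ∀ p q, St A g k p → St A g k q → rn p = dm q →
    St A g k (cmp q p)) ?_ ?_ k hk
  · intro p q hp hq h
    exact st_zero.2 ((st_at hq).cmp (st_at hp) h)
  · intro n hn ih p q hp hq h
    obtain ⟨h1, h2, h3⟩ := (st_succ hn).1 hp
    obtain ⟨k1, k2, k3⟩ := (st_succ hn).1 hq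
    refine (st_succ hn).2 ⟨k1.cmp h1 h, fun a ha => ?_, fun c hc => ?_⟩
    · obtain ⟨b, hb, h4⟩ := h2 a ha
      obtain ⟨c, hc, k4⟩ := k2 b hb
      refine ⟨c, hc, ?_⟩
      rw [← cmp_ins (st_at h4).1.2.2 (st_at k4).1.2.2]
      exact ih _ _ h4 k4 (by rw [rn_ins, dm_ins, h])
    · obtain ⟨b, hb, k4⟩ := k3 c hc
      obtain ⟨a, ha, h4⟩ := h3 b hb
      refine ⟨a, ha, ?_⟩
      rw [← cmp_ins (st_at h4).1.2.2 (st_at k4).1.2.2]
      exact ih _ _ h4 k4 (by rw [rn_ins, dm_ins, h])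

theorem ins_mono {p q z : V} (h : Sub p q) : Sub (ins p z) (ins q z) := fun w hw => by
  rcases mem_ins.1 hw with hw | rfl
  · exact mem_ins.2 (Or.inl (h w hw))
  · exact mem_ins_self _ _

theorem st_mono {k : V} (hk : k ∈ (omega : V)) :
    ∀ p q, St A g k q → Sub p q → St A g k p := by
  refine nat_ind (Q := fun k => ∀ p q, St A g k q → Sub p q → St A g k p) ?_ ?_ k hk
  · intro p q h hpq
    exact st_zero.2 ((st_at h).mono hpq)
  · intro n hn ih p q h hpq
    obtain ⟨h1, h2, h3⟩ := (st_succ hn).1 h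
    refine (st_succ hn).2 ⟨h1.mono hpq, fun a ha => ?_, fun b hb => ?_⟩
    · obtain ⟨b, hb, h⟩ := h2 a ha
      exact ⟨b, hb, ih _ _ h (ins_mono hpq)⟩
    · obtain ⟨a, ha, h⟩ := h3 b hb
      exact ⟨a, ha, ih _ _ h (ins_mono hpq)⟩

end

end Pool.Agent.ZF1
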