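import Pool.Agent.Lib_helper1.ZF.Stage

/-!
Finitely many types over finite sets, and genericity.
-/

set_option linter.unusedSectionVars false
set_option linter.unusedVariables false

universe u

namespace Pool.Agent.ZF1

open FirstOrder Language

section
variable {V : Type u} [Lset.Structure V] [IsZF V]

/-- functions from `S` to `A` -/
def Fn (S A x : V) : Prop := Sub x (prod S A) ∧ (∀ i ∈ S, ∃ a, opair i a ∈ x) ∧
  ∀ i a a', opair i a ∈ x → opair i a' ∈ x → a = a'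

instance {t s r : (ℕ → V) → V} [ht : DF t] [hs : DF s] [hr : DF r] :
    DP (fun v => Fn (t v) (s v) (r v)) :=
  DP.comp3 (by unfold Fn; infer_instance) ht hs hr

/-- the transfer relation between two functions on the same index set -/
noncomputable def tr (x y : V) : V := cmp y (inv x)

instance {t s : (ℕ → V) → V} [ht : DF t] [hs : DF s] : DF (fun v => tr (t v) (s v)) := by
  unfold tr; infer_instance

theorem mem_tr {x y a b : V} : opair a b ∈ tr x y ↔ ∃ i, opair i a ∈ x ∧ opair i b ∈ y := by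
  unfold tr
  rw [mem_cmp]
  exact exists_congr fun i => and_congr_left fun _ => mem_inv

theorem isRel_tr (x y : V) : IsRel (tr x y) := isRel_cmp _ _

theorem Fn.dm {S A x : V} (h : Fn S A x) : dm x = S := ext fun i => by
  rw [mem_dm]
  constructor
  · rintro ⟨a, ha⟩
    exact (opair_mem_prod.1 (h.1 _ ha)).1
  · exact fun hi => h.2.1 i hi

theorem Fn.mem_left {S A x i a : V} (h : Fn S A x) (hi : opair i a ∈ x) : i ∈ S :=
  (opair_mem_prod.1 (h.1 _ hi)).1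

theorem Fn.mem_right {S A x i a : V} (h : Fn S A x) (hi : opair i a ∈ x) : a ∈ A :=
  (opair_mem_prod.1 (h.1 _ hi)).2

theorem Fn.rn_sub {S A x : V} (h : Fn S A x) : Sub (rn x) A := fun a ha => by
  obtain ⟨i, hi⟩ := mem_rn.1 ha
  exact h.mem_right hi

theorem Fn.kfin {S A x : V} (h : Fn S A x) (hS : Kfin S) : Kfin x := by
  refine kfin_image hS (fun i z => ∃ a, z = opair i a ∧ z ∈ x) ?_ x ?_
  · rintro i _ z z' ⟨a, rfl, h1⟩ ⟨a', rfl, h2⟩
    rw [h.2.2 i a a' h1 h2]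
  · intro z hz
    obtain ⟨i, hi, a, _, rfl⟩ := mem_prod.1 (h.1 z hz)
    exact ⟨i, hi, a, rfl, hz⟩

theorem dm_tr {S A x y : V} (hx : Fn S A x) (hy : Fn S A y) : dm (tr x y) = rn x := by
  unfold tr
  rw [dm_cmp, dm_inv]
  rw [rn_inv, hx.dm, hy.dm]
  exact sub_refl _

theorem rn_tr {S A x y : V} (hx : Fn S A x) (hy : Fn S A y) : rn (tr x y) = rn y := by
  unfold tr
  rw [rn_cmp]
  rw [rn_inv, hx.dm, hy.dm]
  exact sub_refl _

theorem inv_tr (x y : V) : inv (tr x y) = tr y x :=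
  rel_ext (isRel_inv _) (isRel_tr _ _) fun a b => by
    rw [mem_inv, mem_tr, mem_tr]
    exact exists_congr fun i => and_comm

theorem cmp_tr {S A x y z : V} (hx : Fn S A x) (hy : Fn S A y) (hz : Fn S A z)
    (hI : Inje (tr y z)) : cmp (tr y z) (tr x y) = tr x z :=
  rel_ext (isRel_cmp _ _) (isRel_tr _ _) fun a c => by
    rw [mem_cmp, mem_tr]
    constructor
    · rintro ⟨b, h1, h2⟩
      obtain ⟨i, hi1, hi2⟩ := mem_tr.1 h1
      obtain ⟨c', hc'⟩ := hz.2.1 i (hy.mem_left hi2)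
      have h3 : opair b c' ∈ tr y z := mem_tr.2 ⟨i, hi2, hc'⟩
      rw [hI.1 _ _ _ h2 h3]
      exact ⟨i, hi1, hc'⟩
    · rintro ⟨i, h1, h2⟩
      obtain ⟨b, hb⟩ := hy.2.1 i (hx.mem_left h1)
      exact ⟨b, mem_tr.2 ⟨i, h1, hb⟩, mem_tr.2 ⟨i, hb, h2⟩⟩

theorem tr_ins {S A x y a b : V} (hx : Fn S A x) (hy : Fn S A y) :
    tr (ins x (opair S a)) (ins y (opair S b)) = ins (tr x y) (opair a b) := by
  refine rel_ext (isRel_tr _ _) ?_ fun u w => ?_
  · intro z hz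
    rcases mem_ins.1 hz with hz | rfl
    · exact isRel_tr x y z hz
    · exact ⟨a, b, rfl⟩
  · rw [mem_tr, mem_ins, mem_tr]
    constructor
    · rintro ⟨i, h1, h2⟩
      rcases mem_ins.1 h1 with k1 | k1 <;> rcases mem_ins.1 h2 with k2 | k2
      · exact Or.inl ⟨i, k1, k2⟩
      · have := hx.mem_left k1
        rw [(opair_inj.1 k2).1] at this
        exact absurd this (not_mem_self S)
      · have := hy.mem_left k2
        rw [(opair_inj.1 k1).1] at this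
        exact absurd this (not_mem_self S)
      · right
        rw [(opair_inj.1 k1).2, (opair_inj.1 k2).2]
    · rintro (⟨i, h1, h2⟩ | e)
      · exact ⟨i, mem_ins.2 (Or.inl h1), mem_ins.2 (Or.inl h2)⟩
      · obtain ⟨rfl, rfl⟩ := opair_inj.1 e
        exact ⟨S, mem_ins_self _ _, mem_ins_self _ _⟩

theorem Fn.ins {S A x a : V} (h : Fn S A x) (ha : a ∈ A) :
    Fn (ins S S) A (ins x (opair S a)) := by
  refine ⟨?_, ?_, ?_⟩
  · intro z hz
    rcases mem_ins.1 hz with hz | rfl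
    · obtain ⟨i, hi, b, hb, rfl⟩ := mem_prod.1 (h.1 z hz)
      exact opair_mem_prod.2 ⟨mem_ins.2 (Or.inl hi), hb⟩
    · exact opair_mem_prod.2 ⟨mem_ins_self _ _, ha⟩
  · intro i hi
    rcases mem_ins.1 hi with hi | rfl
    · obtain ⟨b, hb⟩ := h.2.1 i hi
      exact ⟨b, mem_ins.2 (Or.inl hb)⟩
    · exact ⟨a, mem_ins_self _ _⟩
  · intro i b b' h1 h2
    rcases mem_ins.1 h1 with k1 | k1 <;> rcases mem_ins.1 h2 with k2 | k2
    · exact h.2.2 i b b' k1 k2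
    · have := h.mem_left k1
      rw [(opair_inj.1 k2).1] at this
      exact absurd this (not_mem_self S)
    · have := h.mem_left k2
      rw [(opair_inj.1 k1).1] at this
      exact absurd this (not_mem_self S)
    · rw [(opair_inj.1 k1).2, (opair_inj.1 k2).2]

theorem fn_idm {S A : V} (h : Sub S A) : Fn S A (idm S) := by
  refine ⟨?_, ?_, ?_⟩
  · intro z hz
    obtain ⟨x, hx, rfl⟩ := mem_idm'.1 hz
    exact opair_mem_prod.2 ⟨hx, h x hx⟩
  · intro i hi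
    exact ⟨i, mem_idm.2 ⟨hi, rfl⟩⟩
  · exact (inje_idm S).1

theorem tr_idm (S : V) : tr (idm S) (idm S) = idm S :=
  rel_ext (isRel_tr _ _) (isRel_idm _) fun a b => by
    rw [mem_tr, mem_idm]
    constructor
    · rintro ⟨i, h1, h2⟩
      obtain ⟨hi, rfl⟩ := mem_idm.1 h1
      exact mem_idm.1 h2
    · rintro ⟨ha, rfl⟩
      exact ⟨a, mem_idm.2 ⟨ha, rfl⟩, mem_idm.2 ⟨ha, rfl⟩⟩

/-! ### Combination of finite families of classes -/

theorem fincl_and {X : V} (E1 E2 : V → V → Prop) [h1 : DP (fun v => E1 (v 0) (v 1))]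
    [h2 : DP (fun v => E2 (v 0) (v 1))]
    (hs1 : ∀ x y, E1 x y → E1 y x) (ht1 : ∀ x y z, E1 x y → E1 y z → E1 x z)
    (hs2 : ∀ x y, E2 x y → E2 y x) (ht2 : ∀ x y z, E2 x y → E2 y z → E2 x z)
    (hf1 : ∃ F, Kfin F ∧ Sub F X ∧ ∀ x ∈ X, ∃ y ∈ F, E1 x y)
    (hf2 : ∃ F, Kfin F ∧ Sub F X ∧ ∀ x ∈ X, ∃ y ∈ F, E2 x y) :
    ∃ F, Kfin F ∧ Sub F X ∧ ∀ x ∈ X, ∃ y ∈ F, E1 x y ∧ E2 x y := by
  have h1' : ∀ (t s : (ℕ → V) → V) [DF t] [DF s], DP (fun v => E1 (t v) (s v)) :=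
    fun t s _ _ => DP.comp2 h1 inferInstance inferInstance
  have h2' : ∀ (t s : (ℕ → V) → V) [DF t] [DF s], DP (fun v => E2 (t v) (s v)) :=
    fun t s _ _ => DP.comp2 h2 inferInstance inferInstance
  obtain ⟨F1, hF1, _, k1⟩ := hf1
  obtain ⟨F2, hF2, _, k2⟩ := hf2
  obtain ⟨F, hF, hFX, h⟩ := kfin_reps (kfin_prod hF1 hF2) X
    (fun x d => ∃ d1 d2, d = opair d1 d2 ∧ E1 x d1 ∧ E2 x d2)
  refine ⟨F, hF, hFX, fun x hx => ?_⟩
  obtain ⟨y1, hy1, e1⟩ := k1 x hx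
  obtain ⟨y2, hy2, e2⟩ := k2 x hx
  obtain ⟨y, hy, d1, d2, e, e3, e4⟩ := h (opair y1 y2) (opair_mem_prod.2 ⟨hy1, hy2⟩) x hx
    ⟨y1, y2, rfl, e1, e2⟩
  obtain ⟨rfl, rfl⟩ := opair_inj.1 e
  exact ⟨y, hy, ht1 _ _ _ e1 (hs1 _ _ e3), ht2 _ _ _ e2 (hs2 _ _ e4)⟩

/-- same kernel -/
def Ker (D x y : V) : Prop := ∀ i ∈ D, ∀ j ∈ D,
  ((∃ a, opair i a ∈ x ∧ opair j a ∈ x) ↔ (∃ a, opair i a ∈ y ∧ opair j a ∈ y))

instance {t s r : (ℕ → V) → V} [ht : DF t] [hs : DF s] [hr : DF r] :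
    DP (fun v => Ker (t v) (s v) (r v)) :=
  DP.comp3 (by unfold Ker; infer_instance) ht hs hr

/-- same `g`-relations -/
def Gker (A g D : V) (i j : Bool) (x y : V) : Prop := ∀ U ∈ D, ∀ W ∈ D,
  (opair (co A (img x U) i) (co A (img x W) j) ∈ g ↔
    opair (co A (img y U) i) (co A (img y W) j) ∈ g)

instance {t s r q p : (ℕ → V) → V} [ht : DF t] [hs : DF s] [hr : DF r] [hq : DF q] [hp : DF p]
    (i j : Bool) :
    DP (fun v => Gker (t v) (s v) (r v) i j (q v) (p v)) :=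
  DP.comp5 (R := fun a b c d e => Gker a b c i j d e) (by unfold Gker; infer_instance)
    ht hs hr hq hp

theorem ker_fin {S : V} (hS : Kfin S) (X : V) :
    ∃ F, Kfin F ∧ Sub F X ∧ ∀ x ∈ X, ∃ y ∈ F, Ker S x y := by
  obtain ⟨F, hF, hFX, h⟩ := kfin_classes (kfin_prod hS hS) X
    (fun x d => ∃ i j a, d = opair i j ∧ opair i a ∈ x ∧ opair j a ∈ x)
  refine ⟨F, hF, hFX, fun x hx => ?_⟩
  obtain ⟨y, hy, hxy⟩ := h x hx
  refine ⟨y, hy, fun i hi j hj => ?_⟩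
  have := hxy (opair i j) (opair_mem_prod.2 ⟨hi, hj⟩)
  constructor
  · rintro ⟨a, h1, h2⟩
    obtain ⟨i', j', a', e, h3, h4⟩ := this.1 ⟨i, j, a, rfl, h1, h2⟩
    obtain ⟨rfl, rfl⟩ := opair_inj.1 e
    exact ⟨a', h3, h4⟩
  · rintro ⟨a, h1, h2⟩
    obtain ⟨i', j', a', e, h3, h4⟩ := this.2 ⟨i, j, a, rfl, h1, h2⟩
    obtain ⟨rfl, rfl⟩ := opair_inj.1 e
    exact ⟨a', h3, h4⟩

theorem gker_fin (A g : V) {D : V} (hD : Kfin D) (i j : Bool) (X : V) :
    ∃ F, Kfin F ∧ Sub F X ∧ ∀ x ∈ X, ∃ y ∈ F, Gker A g D i j x y := by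
  obtain ⟨F, hF, hFX, h⟩ := kfin_classes (kfin_prod hD hD) X
    (fun x d => ∃ U W, d = opair U W ∧ opair (co A (img x U) i) (co A (img x W) j) ∈ g)
  refine ⟨F, hF, hFX, fun x hx => ?_⟩
  obtain ⟨y, hy, hxy⟩ := h x hx
  refine ⟨y, hy, fun U hU W hW => ?_⟩
  have := hxy (opair U W) (opair_mem_prod.2 ⟨hU, hW⟩)
  constructor
  · intro h1
    obtain ⟨i', j', e, h3⟩ := this.1 ⟨U, W, rfl, h1⟩
    obtain ⟨rfl, rfl⟩ := opair_inj.1 e
    exact h3
  · intro h1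
    obtain ⟨i', j', e, h3⟩ := this.2 ⟨U, W, rfl, h1⟩
    obtain ⟨rfl, rfl⟩ := opair_inj.1 e
    exact h3

theorem img_img_inv' {p X : V} (hp : ∀ x y y', opair x y ∈ p → opair x y' ∈ p → y = y')
    (h : Sub X (rn p)) : img p (img (inv p) X) = X :=
  ext fun w => by
    rw [mem_img]
    constructor
    · rintro ⟨y, hy, h1⟩
      obtain ⟨x, hx, h2⟩ := mem_img.1 hy
      rw [mem_inv] at h2
      rw [hp _ _ _ h1 h2]; exact hx
    · intro hw
      obtain ⟨y, hy⟩ := mem_rn.1 (h w hw)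
      exact ⟨y, mem_img.2 ⟨w, hw, mem_inv.2 hy⟩, hy⟩

theorem at_tr {A g S x y : V} (hS : Kfin S) (hx : Fn S A x) (hy : Fn S A y) (hk : Ker S x y)
    (hg : ∀ i j, Gker A g (pow S) i j x y) : At A g (tr x y) := by
  refine ⟨⟨?_, ?_, ?_, ?_⟩, ?_⟩
  · intro z hz
    obtain ⟨a, ha, b, hb, rfl⟩ := mem_prod.1 (cmp_sub _ _ z hz)
    rw [dm_inv] at ha
    exact opair_mem_prod.2 ⟨hx.rn_sub a ha, hy.rn_sub b hb⟩
  · refine kfin_sub (kfin_prod ?_ (kfin_rn (hy.kfin hS))) _ (cmp_sub _ _)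
    rw [dm_inv]; exact kfin_rn (hx.kfin hS)
  · intro a b b' h1 h2
    obtain ⟨i, hi1, hi2⟩ := mem_tr.1 h1
    obtain ⟨j, hj1, hj2⟩ := mem_tr.1 h2
    obtain ⟨c, hc1, hc2⟩ := (hk i (hx.mem_left hi1) j (hx.mem_left hj1)).1 ⟨a, hi1, hj1⟩
    rw [hy.2.2 _ _ _ hi2 hc1, hy.2.2 _ _ _ hj2 hc2]
  · intro a a' b h1 h2
    obtain ⟨i, hi1, hi2⟩ := mem_tr.1 h1
    obtain ⟨j, hj1, hj2⟩ := mem_tr.1 h2
    obtain ⟨c, hc1, hc2⟩ := (hk i (hx.mem_left hi1) j (hx.mem_left hj1)).2 ⟨b, hi2, hj2⟩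
    rw [hx.2.2 _ _ _ hi1 hc1, hx.2.2 _ _ _ hj1 hc2]
  · intro U W hU hW i j
    rw [dm_tr hx hy] at hU hW
    have e : ∀ U, img (inv x) U ∈ pow S := fun U => mem_pow.2 fun z hz => by
      have := img_sub_rn _ _ z hz
      rw [rn_inv, hx.dm] at this
      exact this
    have := hg i j (img (inv x) U) (e U) (img (inv x) W) (e W)
    rw [img_img_inv' hx.2.2 hU, img_img_inv' hx.2.2 hW] at this
    unfold tr
    rw [img_cmp, img_cmp]
    exact this

/-- finitely many classes for the relation of stage `0` -/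
theorem types_zero {A g S : V} (hS : Kfin S) : ∃ F : V, Kfin F ∧ (∀ y ∈ F, Fn S A y) ∧
    ∀ x : V, Fn S A x → ∃ y ∈ F, St A g emp (tr x y) := by
  let X := sep (fun x => Fn S A x) (pow (prod S A))
  have hX : ∀ x, x ∈ X ↔ Fn S A x := fun x => by
    simp only [X, mem_sep, mem_pow]
    exact ⟨fun h => h.2, fun h => ⟨h.1, h⟩⟩
  have hG : ∀ i, ∃ F, Kfin F ∧ Sub F X ∧ ∀ x ∈ X, ∃ y ∈ F, Gker A g (pow S) i true x y ∧
      Gker A g (pow S) i false x y := by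
    intro i
    refine fincl_and (fun x y => Gker A g (pow S) i true x y)
      (fun x y => Gker A g (pow S) i false x y) ?_ ?_ ?_ ?_
      (gker_fin A g (kfin_pow hS) i true X) (gker_fin A g (kfin_pow hS) i false X)
    · exact fun x y h U hU W hW => (h U hU W hW).symm
    · exact fun x y z h h' U hU W hW => (h U hU W hW).trans (h' U hU W hW)
    · exact fun x y h U hU W hW => (h U hU W hW).symm
    · exact fun x y z h h' U hU W hW => (h U hU W hW).trans (h' U hU W hW)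
  have hG' : ∃ F, Kfin F ∧ Sub F X ∧ ∀ x ∈ X, ∃ y ∈ F, (Gker A g (pow S) true true x y ∧
      Gker A g (pow S) true false x y) ∧ (Gker A g (pow S) false true x y ∧
      Gker A g (pow S) false false x y) := by
    refine fincl_and (fun x y => Gker A g (pow S) true true x y ∧
      Gker A g (pow S) true false x y) (fun x y => Gker A g (pow S) false true x y ∧
      Gker A g (pow S) false false x y) ?_ ?_ ?_ ?_ (hG true) (hG false)
    · exact fun x y h => ⟨fun U hU W hW => (h.1 U hU W hW).symm,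
        fun U hU W hW => (h.2 U hU W hW).symm⟩
    · exact fun x y z h h' => ⟨fun U hU W hW => (h.1 U hU W hW).trans (h'.1 U hU W hW),
        fun U hU W hW => (h.2 U hU W hW).trans (h'.2 U hU W hW)⟩
    · exact fun x y h => ⟨fun U hU W hW => (h.1 U hU W hW).symm,
        fun U hU W hW => (h.2 U hU W hW).symm⟩
    · exact fun x y z h h' => ⟨fun U hU W hW => (h.1 U hU W hW).trans (h'.1 U hU W hW),
        fun U hU W hW => (h.2 U hU W hW).trans (h'.2 U hU W hW)⟩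
  obtain ⟨F, hF, hFX, h⟩ := fincl_and (fun x y => Ker S x y)
    (fun x y => (Gker A g (pow S) true true x y ∧
      Gker A g (pow S) true false x y) ∧ (Gker A g (pow S) false true x y ∧
      Gker A g (pow S) false false x y))
    (fun x y h i hi j hj => (h i hi j hj).symm)
    (fun x y z h h' i hi j hj => (h i hi j hj).trans (h' i hi j hj))
    (fun x y h => ⟨⟨fun U hU W hW => (h.1.1 U hU W hW).symm,
        fun U hU W hW => (h.1.2 U hU W hW).symm⟩, fun U hU W hW => (h.2.1 U hU W hW).symm,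
        fun U hU W hW => (h.2.2 U hU W hW).symm⟩)
    (fun x y z h h' => ⟨⟨fun U hU W hW => (h.1.1 U hU W hW).trans (h'.1.1 U hU W hW),
        fun U hU W hW => (h.1.2 U hU W hW).trans (h'.1.2 U hU W hW)⟩,
        fun U hU W hW => (h.2.1 U hU W hW).trans (h'.2.1 U hU W hW),
        fun U hU W hW => (h.2.2 U hU W hW).trans (h'.2.2 U hU W hW)⟩)
    (ker_fin hS X) hG'
  refine ⟨F, hF, fun y hy => (hX y).1 (hFX y hy), fun x hx => ?_⟩
  obtain ⟨y, hy, hxy⟩ := h x ((hX x).2 hx)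
  refine ⟨y, hy, st_zero.2 (at_tr hS hx ((hX y).1 (hFX y hy)) hxy.1 ?_)⟩
  intro i j
  rcases i with _ | _ <;> rcases j with _ | _
  · exact hxy.2.2.2
  · exact hxy.2.2.1
  · exact hxy.2.1.2
  · exact hxy.2.1.1

theorem st_tr_symm {A g k x y : V} (hk : k ∈ (omega : V)) (h : St A g k (tr x y)) :
    St A g k (tr y x) := by
  rw [← inv_tr]; exact st_inv hk _ h

theorem st_tr_trans {A g k S x y z : V} (hk : k ∈ (omega : V)) (hx : Fn S A x) (hy : Fn S A y)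
    (hz : Fn S A z) (h1 : St A g k (tr x y)) (h2 : St A g k (tr y z)) : St A g k (tr x z) := by
  rw [← cmp_tr hx hy hz (st_at h2).1.2.2]
  exact st_cmp hk _ _ h1 h2 (by rw [rn_tr hx hy, dm_tr hy hz])

/-- finitely many classes for the relation of stage `k` -/
theorem types_fin {A g k : V} (hA : ∃ a, a ∈ A) (hk : k ∈ (omega : V)) :
    ∀ S : V, Kfin S → ∃ F : V, Kfin F ∧ (∀ y ∈ F, Fn S A y) ∧
    ∀ x : V, Fn S A x → ∃ y ∈ F, St A g k (tr x y) := by
  refine nat_ind (Q := fun k => ∀ S : V, Kfin S → ∃ F : V, Kfin F ∧ (∀ y ∈ F, Fn S A y) ∧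
    ∀ x : V, Fn S A x → ∃ y ∈ F, St A g k (tr x y)) (fun S hS => types_zero hS) ?_ k hk
  intro n hn ih S hS
  obtain ⟨F', hF', hFn', hrep⟩ := ih (ins S S) (kfin_ins hS S)
  obtain ⟨F, hF, hFX, h⟩ := kfin_classes hF' (sep (fun x => Fn S A x) (pow (prod S A)))
    (fun x z => ∃ a ∈ A, St A g n (tr (ins x (opair S a)) z))
  have hX : ∀ x, x ∈ sep (fun x => Fn S A x) (pow (prod S A)) ↔ Fn S A x := fun x => by
    simp only [mem_sep, mem_pow]
    exact ⟨fun h => h.2, fun h => ⟨h.1, h⟩⟩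
  refine ⟨F, hF, fun y hy => (hX y).1 (hFX y hy), fun x hx => ?_⟩
  obtain ⟨y, hyF, hxy⟩ := h x ((hX x).2 hx)
  have hy := (hX y).1 (hFX y hyF)
  refine ⟨y, hyF, ?_⟩
  have key1 : ∀ a ∈ A, ∃ b ∈ A, St A g n (ins (tr x y) (opair a b)) := by
    intro a ha
    obtain ⟨z, hz, h1⟩ := hrep _ (hx.ins ha)
    obtain ⟨b, hb, h2⟩ := (hxy z hz).1 ⟨a, ha, h1⟩
    refine ⟨b, hb, ?_⟩
    rw [← tr_ins hx hy]
    exact st_tr_trans hn (hx.ins ha) (hFn' z hz) (hy.ins hb) h1 (st_tr_symm hn h2)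
  have key2 : ∀ b ∈ A, ∃ a ∈ A, St A g n (ins (tr x y) (opair a b)) := by
    intro b hb
    obtain ⟨z, hz, h1⟩ := hrep _ (hy.ins hb)
    obtain ⟨a, ha, h2⟩ := (hxy z hz).2 ⟨b, hb, h1⟩
    refine ⟨a, ha, ?_⟩
    rw [← tr_ins hx hy]
    exact st_tr_trans hn (hx.ins ha) (hFn' z hz) (hy.ins hb) h2 (st_tr_symm hn h1)
  refine (st_succ hn).2 ⟨?_, key1, key2⟩
  obtain ⟨a, ha⟩ := hA
  obtain ⟨b, hb, h1⟩ := key1 a ha
  exact (st_at h1).mono (sub_ins _ _)

/-- an infinite orbit over a finite set -/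
theorem exists_big {A g k : V} (hA : ¬ Kfin A) (hk : k ∈ (omega : V)) {S : V} (hS : Sub S A)
    (hSf : Kfin S) :
    ∃ b ∈ A, ¬ Kfin (sep (fun b' => St A g k (ins (idm S) (opair b b'))) A) := by
  have hA' : ∃ a, a ∈ A := by
    rcases eq_emp_or A with rfl | h
    · exact absurd kfin_emp hA
    · exact h
  obtain ⟨F, hF, hFn, h⟩ := types_fin (g := g) hA' hk (ins S S) (kfin_ins hSf S)
  have hcl : ¬ Kfin (sep (fun b => ∃ y ∈ F, St A g k (tr (ins (idm S) (opair S b)) y)) A) := by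
    intro hf
    refine hA (kfin_sub hf _ fun b hb => mem_sep.2 ⟨hb, ?_⟩)
    exact h _ ((fn_idm hS).ins hb)
  have h2 : ∃ y ∈ F, ¬ Kfin (sep (fun b => ∃ y', y' = y ∧
      St A g k (tr (ins (idm S) (opair S b)) y')) A) := by
    by_contra hcon
    push Not at hcon
    exact hcl (kfin_bUn hF (fun y b => St A g k (tr (ins (idm S) (opair S b)) y)) A hcon)
  obtain ⟨y, hy, hinf⟩ := h2
  have hne : ∃ b, b ∈ sep (fun b => ∃ y', y' = y ∧
      St A g k (tr (ins (idm S) (opair S b)) y')) A := by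
    rcases eq_emp_or (sep (fun b => ∃ y', y' = y ∧
      St A g k (tr (ins (idm S) (opair S b)) y')) A) with e | h
    · rw [e] at hinf
      exact absurd kfin_emp hinf
    · exact h
  obtain ⟨b0, hb0⟩ := hne
  obtain ⟨hb0A, y', rfl, hb0'⟩ := mem_sep.1 hb0
  refine ⟨b0, hb0A, fun hf => hinf (kfin_sub hf _ fun b hb => ?_)⟩
  obtain ⟨hbA, y'', rfl, hb'⟩ := mem_sep.1 hb
  refine mem_sep.2 ⟨hbA, ?_⟩
  have := st_tr_trans hk ((fn_idm hS).ins hb0A) (hFn _ hy) ((fn_idm hS).ins hbA) hb0'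
    (st_tr_symm hk hb')
  rw [tr_ins (fn_idm hS) (fn_idm hS), tr_idm] at this
  exact this

/-! ### Elementary maps -/

/-- `p` belongs to all stages -/
def El (A g p : V) : Prop := ∀ k ∈ (omega : V), St A g k p

end

end Pool.Agent.ZF1
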